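import Mathlib

/-! Basic definitions for MP_4c7af0_al: `SL₂(ℤ[1/m])` inside `SL₂(ℚ)`. -/

namespace Boom4c

open Matrix

/-- `ℤ[1/m]` as a subring of `ℚ`. -/
def A (m : ℕ) : Subring ℚ where
  carrier := {x | ∃ k : ℕ, ∃ z : ℤ, x * (m : ℚ) ^ k = z}
  mul_mem' := by
    rintro a b ⟨k, z, h⟩ ⟨l, w, h'⟩
    refine ⟨k + l, z * w, ?_⟩
    push_cast
    rw [← h, ← h', pow_add]; ring
  one_mem' := ⟨0, 1, by simp⟩
  add_mem' := by
    rintro a b ⟨k, z, h⟩ ⟨l, w, h'⟩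
    refine ⟨k + l, z * m ^ l + w * m ^ k, ?_⟩
    push_cast
    rw [← h, ← h', pow_add]; ring
  zero_mem' := ⟨0, 0, by simp⟩
  neg_mem' := by
    rintro a ⟨k, z, h⟩
    refine ⟨k, -z, ?_⟩
    push_cast
    rw [← h]; ring

theorem mem_A {m : ℕ} {x : ℚ} : x ∈ A m ↔ ∃ k : ℕ, ∃ z : ℤ, x * (m : ℚ) ^ k = z := Iff.rfl

abbrev SL2 := Matrix.SpecialLinearGroup (Fin 2) ℚ

theorem mul_app (a b : SL2) (i j : Fin 2) : (a * b) i j = a i 0 * b 0 j + a i 1 * b 1 j := by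
  simp [Matrix.mul_apply]

theorem one_app (i j : Fin 2) : (1 : SL2) i j = if i = j then 1 else 0 := by
  simp [Matrix.one_apply]

theorem inv00 (a : SL2) : (a⁻¹) 0 0 = a 1 1 := by
  simp [Matrix.adjugate_fin_two]

theorem inv01 (a : SL2) : (a⁻¹) 0 1 = - a 0 1 := by
  simp [Matrix.adjugate_fin_two]

theorem inv10 (a : SL2) : (a⁻¹) 1 0 = - a 1 0 := by
  simp [Matrix.adjugate_fin_two]

theorem inv11 (a : SL2) : (a⁻¹) 1 1 = a 0 0 := by
  simp [Matrix.adjugate_fin_two]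

theorem det_eq (a : SL2) : a 0 0 * a 1 1 - a 0 1 * a 1 0 = 1 := by
  have := a.2
  rwa [Matrix.det_fin_two] at this

theorem ext4 {a b : SL2} (h00 : a 0 0 = b 0 0) (h01 : a 0 1 = b 0 1) (h10 : a 1 0 = b 1 0)
    (h11 : a 1 1 = b 1 1) : a = b := by
  ext i j
  fin_cases i <;> fin_cases j
  · exact h00
  · exact h01
  · exact h10
  · exact h11

/-- build an element of `SL₂(ℚ)` from its entries -/
def mk4 (a b c d : ℚ) (h : a * d - b * c = 1) : SL2 :=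
  ⟨!![a, b; c, d], by rw [Matrix.det_fin_two]; simpa using h⟩

@[simp] theorem mk4_00 (a b c d h) : mk4 a b c d h 0 0 = a := rfl
@[simp] theorem mk4_01 (a b c d h) : mk4 a b c d h 0 1 = b := rfl
@[simp] theorem mk4_10 (a b c d h) : mk4 a b c d h 1 0 = c := rfl
@[simp] theorem mk4_11 (a b c d h) : mk4 a b c d h 1 1 = d := rfl

/-- upper unipotent -/
def u (x : ℚ) : SL2 := mk4 1 x 0 1 (by ring)

/-- lower unipotent -/
def v (x : ℚ) : SL2 := mk4 1 0 x 1 (by ring)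

@[simp] theorem u_00 (x) : u x 0 0 = 1 := rfl
@[simp] theorem u_01 (x) : u x 0 1 = x := rfl
@[simp] theorem u_10 (x) : u x 1 0 = 0 := rfl
@[simp] theorem u_11 (x) : u x 1 1 = 1 := rfl
@[simp] theorem v_00 (x) : v x 0 0 = 1 := rfl
@[simp] theorem v_01 (x) : v x 0 1 = 0 := rfl
@[simp] theorem v_10 (x) : v x 1 0 = x := rfl
@[simp] theorem v_11 (x) : v x 1 1 = 1 := rfl

/-- diagonal matrix `diag(e, 1/e)`; for `e = 0` it is `1` (junk). -/
noncomputable def dg (e : ℚ) : SL2 :=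
  if h : e = 0 then 1 else mk4 e 0 0 e⁻¹ (by rw [mul_inv_cancel₀ h]; ring)

theorem dg_00 {e : ℚ} (h : e ≠ 0) : dg e 0 0 = e := by simp [dg, h]
theorem dg_01 {e : ℚ} (h : e ≠ 0) : dg e 0 1 = 0 := by simp [dg, h]
theorem dg_10 {e : ℚ} (h : e ≠ 0) : dg e 1 0 = 0 := by simp [dg, h]
theorem dg_11 {e : ℚ} (h : e ≠ 0) : dg e 1 1 = e⁻¹ := by simp [dg, h]

/-- `G m = SL₂(ℤ[1/m])`. -/
def G (m : ℕ) : Subgroup SL2 where
  carrier := {g | ∀ i j, g i j ∈ A m}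
  mul_mem' := by
    intro a b ha hb i j
    rw [mul_app]
    exact (A m).add_mem ((A m).mul_mem (ha _ _) (hb _ _)) ((A m).mul_mem (ha _ _) (hb _ _))
  one_mem' := by
    intro i j
    rw [one_app]
    split_ifs
    · exact (A m).one_mem
    · exact (A m).zero_mem
  inv_mem' := by
    intro a ha i j
    fin_cases i <;> fin_cases j
    · change (a⁻¹) 0 0 ∈ A m
      rw [inv00]; exact ha _ _
    · change (a⁻¹) 0 1 ∈ A m
      rw [inv01]; exact (A m).neg_mem (ha _ _)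
    · change (a⁻¹) 1 0 ∈ A m
      rw [inv10]; exact (A m).neg_mem (ha _ _)
    · change (a⁻¹) 1 1 ∈ A m
      rw [inv11]; exact ha _ _

theorem mem_G {m : ℕ} {g : SL2} : g ∈ G m ↔ ∀ i j, g i j ∈ A m := Iff.rfl

theorem mem_G4 {m : ℕ} {g : SL2} (h00 : g 0 0 ∈ A m) (h01 : g 0 1 ∈ A m) (h10 : g 1 0 ∈ A m)
    (h11 : g 1 1 ∈ A m) : g ∈ G m := by
  intro i j
  fin_cases i <;> fin_cases j
  · exact h00
  · exact h01
  · exact h10
  · exact h11

/-- principal congruence subgroup: `g = 1 + N X` with `X` a matrix over `ℤ[1/m]`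
(divisibility by `N` in `ℤ[1/m]` is expressed by division in `ℚ`; `N ≥ 1`). -/
def GN (m N : ℕ) : Subgroup SL2 where
  carrier := {g | (g 0 0 - 1) / N ∈ A m ∧ g 0 1 / N ∈ A m ∧ g 1 0 / N ∈ A m ∧ (g 1 1 - 1) / N ∈ A m}
  mul_mem' := by
    rintro a b ⟨a0, a1, a2, a3⟩ ⟨b0, b1, b2, b3⟩
    rcases Nat.eq_zero_or_pos N with hN | hN
    · subst hN
      refine ⟨?_, ?_, ?_, ?_⟩ <;> simp [(A m).zero_mem]
    have hN' : (N : ℚ) ≠ 0 := by exact_mod_cast hN.ne'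
    have hNm : (N : ℚ) ∈ A m := natCast_mem (A m) N
    refine ⟨?_, ?_, ?_, ?_⟩
    · have : ((a * b) 0 0 - 1) / N = (a 0 0 - 1) / N * (N * ((b 0 0 - 1) / N)) + (a 0 0 - 1) / N
          + (b 0 0 - 1) / N + N * (a 0 1 / N * (b 1 0 / N)) := by
        rw [mul_app]; field_simp; ring
      rw [this]
      exact (A m).add_mem ((A m).add_mem ((A m).add_mem ((A m).mul_mem a0 ((A m).mul_mem hNm b0)) a0)
        b0) ((A m).mul_mem hNm ((A m).mul_mem a1 b2))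
    · have : (a * b) 0 1 / N = (a 0 0 - 1) / N * (N * (b 0 1 / N)) + b 0 1 / N
          + a 0 1 / N * (N * ((b 1 1 - 1) / N)) + a 0 1 / N := by
        rw [mul_app]; field_simp; ring
      rw [this]
      exact (A m).add_mem ((A m).add_mem ((A m).add_mem ((A m).mul_mem a0 ((A m).mul_mem hNm b1)) b1)
        ((A m).mul_mem a1 ((A m).mul_mem hNm b3))) a1
    · have : (a * b) 1 0 / N = a 1 0 / N * (N * ((b 0 0 - 1) / N)) + a 1 0 / N
          + (a 1 1 - 1) / N * (N * (b 1 0 / N)) + b 1 0 / N := by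
        rw [mul_app]; field_simp; ring
      rw [this]
      exact (A m).add_mem ((A m).add_mem ((A m).add_mem ((A m).mul_mem a2 ((A m).mul_mem hNm b0)) a2)
        ((A m).mul_mem a3 ((A m).mul_mem hNm b2))) b2
    · have : ((a * b) 1 1 - 1) / N = N * (a 1 0 / N * (b 0 1 / N)) +
          (a 1 1 - 1) / N * (N * ((b 1 1 - 1) / N)) + (a 1 1 - 1) / N + (b 1 1 - 1) / N := by
        rw [mul_app]; field_simp; ring
      rw [this]
      exact (A m).add_mem ((A m).add_mem ((A m).add_mem ((A m).mul_mem hNm ((A m).mul_mem a2 b1))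
        ((A m).mul_mem a3 ((A m).mul_mem hNm b3))) a3) b3
  one_mem' := by
    refine ⟨?_, ?_, ?_, ?_⟩ <;> simp [(A m).zero_mem]
  inv_mem' := by
    rintro a ⟨a0, a1, a2, a3⟩
    refine ⟨?_, ?_, ?_, ?_⟩
    · rw [inv00]; exact a3
    · rw [inv01, neg_div]; exact (A m).neg_mem a1
    · rw [inv10, neg_div]; exact (A m).neg_mem a2
    · rw [inv11]; exact a0

/-- `E(N) = ⟨u(N x), v(N x) : x ∈ ℤ[1/m]⟩`. -/
def E (m N : ℕ) : Subgroup SL2 :=
  Subgroup.closure ({h | ∃ x ∈ A m, h = u (N * x)} ∪ {h | ∃ x ∈ A m, h = v (N * x)})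

/-- `E*(N) = ⟨g u(N x) g⁻¹ : g ∈ SL₂(ℤ[1/m]), x ∈ ℤ[1/m]⟩`. -/
def Es (m N : ℕ) : Subgroup SL2 :=
  Subgroup.closure {h | ∃ g ∈ G m, ∃ x ∈ A m, h = g * u (N * x) * g⁻¹}

/-- weak recurrence of `D` under conjugation by elements of `Γ`. -/
def Rec (Γ D : Subgroup SL2) : Prop :=
  ∀ γ ∈ Γ, ∀ δ ∈ D, ∀ n₀ : ℕ, ∃ n ≥ n₀, γ ^ n * δ * (γ ^ n)⁻¹ ∈ D

end Boom4c
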