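import Pool.Agent.H.MP_4c7af0_al.Final

/-!
Boomerang subgroups of non-uniform irreducible lattices over `ℚ`: if `m ≥ 2` and
`Γ ≤ SL₂(ℚ)` is commensurable with `SL₂(ℤ[1/m])`, then every boomerang subgroup of `Γ` has finite
index in `Γ` or is contained in `{1, -1}`.
-/

namespace Pool.Agent.H.MP_4c7af0_al.BoomerangFiniteIndexOld

open Boom4c

/-- For `m ≥ 2` and `Γ ≤ SL₂(ℚ)` commensurable with `SL₂(ℤ[1/m])`, every boomerang subgroup `D` of
`Γ` has finite index in `Γ` or is contained in `{1, -1}`. -/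
theorem result (m : ℕ) (hm : 2 ≤ m) (Γ : Subgroup (Matrix.SpecialLinearGroup (Fin 2) ℚ))
    (h₁ : (G m).relIndex Γ ≠ 0) (h₂ : Γ.relIndex (G m) ≠ 0) (D : Subgroup Γ) (hD : IsBoomerang D) :
    D.FiniteIndex ∨
      ∀ δ ∈ D, (δ : Matrix.SpecialLinearGroup (Fin 2) ℚ) = 1 ∨
        (δ : Matrix.SpecialLinearGroup (Fin 2) ℚ) = -1 :=
  main hm Γ h₁ h₂ D hD

end Pool.Agent.H.MP_4c7af0_al.BoomerangFiniteIndexOld
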