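import Mathlib
import Pool.Agent.H.MP_4c7af0_al.Basic

/-! The two primes lemma for MP_4c7af0_al. -/

namespace Boom4c

/-- integer version: two large primes `q₁ ≡ α`, `q₂ ≡ -α` modulo `β` with `(q₁-1)/2` and
`(q₂-1)/2` coprime. -/
theorem int_two_primes (α β : ℤ) (hβ : β ≠ 0) (h : IsCoprime α β) (B : ℕ) :
    ∃ q₁ q₂ : ℕ, q₁.Prime ∧ q₂.Prime ∧ B < q₁ ∧ B < q₂ ∧ 2 < q₁ ∧ 2 < q₂ ∧
      β ∣ (q₁ : ℤ) - α ∧ β ∣ (q₂ : ℤ) + α ∧ Nat.Coprime ((q₁ - 1) / 2) ((q₂ - 1) / 2) := by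
  obtain ⟨q₁, hq₁, hp₁, he₁⟩ := Nat.forall_exists_prime_gt_and_zmodEq (max B 2)
    (q := β.natAbs) (a := α) (by simpa using hβ) (by
      rw [Int.isCoprime_iff_gcd_eq_one] at h ⊢
      simpa [Int.gcd, Int.natAbs_abs] using h)
  have hq₁B : B < q₁ := lt_of_le_of_lt (le_max_left _ _) hq₁
  have hq₁2 : 2 < q₁ := lt_of_le_of_lt (le_max_right _ _) hq₁
  have hd₁ : β ∣ (q₁ : ℤ) - α := by
    have := he₁.symm.dvd
    rwa [Int.natAbs_dvd] at this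
  have hcop : IsCoprime (-(q₁ : ℤ)) ((β.natAbs * (q₁ - 1) : ℕ) : ℤ) := by
    rw [IsCoprime.neg_left_iff]
    push_cast [Nat.cast_sub (show 1 ≤ q₁ by omega)]
    apply IsCoprime.mul_right
    · have h1 : IsCoprime (q₁ : ℤ) β := by
        obtain ⟨t, ht⟩ := hd₁
        have : (q₁ : ℤ) = α + β * t := by linarith
        rw [this]
        exact (IsCoprime.add_mul_left_left_iff).2 h
      rw [Int.isCoprime_iff_gcd_eq_one] at h1 ⊢
      simpa [Int.gcd, Int.natAbs_abs] using h1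
    · exact ⟨1, -1, by ring⟩
  obtain ⟨q₂, hq₂, hp₂, he₂⟩ := Nat.forall_exists_prime_gt_and_zmodEq (max B 2)
    (q := β.natAbs * (q₁ - 1)) (a := -(q₁ : ℤ))
    (by
      have : β.natAbs ≠ 0 := by simpa using hβ
      exact Nat.mul_ne_zero this (by omega)) hcop
  have hq₂B : B < q₂ := lt_of_le_of_lt (le_max_left _ _) hq₂
  have hq₂2 : 2 < q₂ := lt_of_le_of_lt (le_max_right _ _) hq₂
  have hd₂ : ((β.natAbs * (q₁ - 1) : ℕ) : ℤ) ∣ (q₂ : ℤ) + q₁ := by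
    have := he₂.symm.dvd
    simpa using this
  have hd₂' : β ∣ (q₂ : ℤ) + q₁ := by
    refine dvd_trans ?_ hd₂
    push_cast
    exact Dvd.dvd.mul_right (by simp) _
  have hd₂'' : ((q₁ - 1 : ℕ) : ℤ) ∣ (q₂ : ℤ) + q₁ := by
    refine dvd_trans ?_ hd₂
    push_cast
    exact Dvd.intro_left _ rfl
  refine ⟨q₁, q₂, hp₁, hp₂, hq₁B, hq₂B, hq₁2, hq₂2, hd₁, ?_, ?_⟩
  · have : (q₂ : ℤ) + α = ((q₂ : ℤ) + q₁) - (q₁ - α) := by ring
    rw [this]
    exact dvd_sub hd₂' hd₁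
  · -- gcd argument
    have hodd₁ : q₁ % 2 = 1 := by
      rcases hp₁.eq_two_or_odd with h | h
      · omega
      · exact h
    have hodd₂ : q₂ % 2 = 1 := by
      rcases hp₂.eq_two_or_odd with h | h
      · omega
      · exact h
    have h3 : (q₁ - 1) ∣ q₂ + 1 := by
      have h4 : ((q₁ - 1 : ℕ) : ℤ) ∣ ((q₂ + 1 : ℕ) : ℤ) := by
        have : (((q₂ + 1 : ℕ)) : ℤ) = ((q₂ : ℤ) + q₁) - ((q₁ - 1 : ℕ) : ℤ) := by
          push_cast [Nat.cast_sub (show 1 ≤ q₁ by omega)]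
          ring
        rw [this]
        exact dvd_sub hd₂'' (dvd_refl _)
      exact_mod_cast h4
    set k₁ := (q₁ - 1) / 2 with hk₁
    set k₂ := (q₂ - 1) / 2 with hk₂
    have e₁ : q₁ - 1 = 2 * k₁ := by omega
    have e₂ : q₂ + 1 = 2 * (k₂ + 1) := by omega
    rw [e₁, e₂] at h3
    have h5 : k₁ ∣ k₂ + 1 := (Nat.mul_dvd_mul_iff_left (by norm_num)).1 h3
    have h6 : Nat.gcd k₁ k₂ ∣ 1 := by
      have a1 : Nat.gcd k₁ k₂ ∣ k₂ + 1 := (Nat.gcd_dvd_left _ _).trans h5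
      exact (Nat.dvd_add_right (Nat.gcd_dvd_right _ _)).1 a1
    exact Nat.dvd_one.1 h6

/-- splitting off the part dividing a power of `m`. -/
theorem split_m (m : ℕ) : ∀ n : ℕ, 0 < n → ∃ μ β r : ℕ, n = μ * β ∧ μ ∣ m ^ r ∧ Nat.Coprime β m := by
  intro n
  induction n using Nat.strong_induction_on with
  | _ n ih =>
    intro hn
    by_cases h : Nat.Coprime n m
    · exact ⟨1, n, 0, by simp, by simp, h⟩
    · obtain ⟨n', hn'⟩ := Nat.gcd_dvd_left n m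
      have hg0 : 0 < Nat.gcd n m := Nat.gcd_pos_of_pos_left _ hn
      have hg1 : 1 < Nat.gcd n m := by
        rcases Nat.lt_or_ge 1 (Nat.gcd n m) with h1 | h1
        · exact h1
        · exact absurd (le_antisymm h1 hg0) h
      have hn'0 : 0 < n' := by
        rcases Nat.eq_zero_or_pos n' with h0 | h0
        · rw [h0] at hn'; omega
        · exact h0
      have hlt : n' < n := by
        calc n' < Nat.gcd n m * n' := by nlinarith
          _ = n := hn'.symm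
      obtain ⟨μ, β, r, h1, h2, h3⟩ := ih n' hlt hn'0
      refine ⟨Nat.gcd n m * μ, β, r + 1, ?_, ?_, h3⟩
      · calc n = Nat.gcd n m * n' := hn'
          _ = Nat.gcd n m * μ * β := by rw [h1]; ring
      · rw [pow_succ, mul_comm (m ^ r)]
        exact Nat.mul_dvd_mul (Nat.gcd_dvd_right _ _) h2

theorem split_m_int (m : ℕ) (n : ℤ) (hn : n ≠ 0) :
    ∃ μ β : ℤ, ∃ r : ℕ, n = μ * β ∧ μ ≠ 0 ∧ β ≠ 0 ∧ μ ∣ (m : ℤ) ^ r ∧ IsCoprime β (m : ℤ) := by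
  obtain ⟨μ, β, r, h1, h2, h3⟩ := split_m m n.natAbs (Int.natAbs_pos.2 hn)
  have hβ : β ≠ 0 := by
    rintro rfl
    simp at h1
    exact hn h1
  have hμ : μ ≠ 0 := by
    rintro rfl
    simp at h1
    exact hn h1
  refine ⟨Int.sign n * μ, β, r, ?_, ?_, by exact_mod_cast hβ, ?_, ?_⟩
  · rw [mul_assoc, ← Nat.cast_mul, ← h1, Int.sign_mul_natAbs]
  · refine mul_ne_zero ?_ (by exact_mod_cast hμ)
    simpa using hn
  · have h4 : (μ : ℤ) ∣ (m : ℤ) ^ r := by exact_mod_cast h2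
    rcases lt_or_gt_of_ne hn with h | h
    · rw [Int.sign_eq_neg_one_of_neg h]; simpa using h4
    · rw [Int.sign_eq_one_of_pos h]; simpa using h4
  · exact Nat.isCoprime_iff_coprime.2 h3

theorem A_common {m : ℕ} {a b : ℚ} (ha : a ∈ A m) (hb : b ∈ A m) :
    ∃ s : ℕ, ∃ α β : ℤ, a * (m : ℚ) ^ s = α ∧ b * (m : ℚ) ^ s = β := by
  obtain ⟨i, α, h1⟩ := ha
  obtain ⟨j, β, h2⟩ := hb
  refine ⟨i + j, α * m ^ j, β * m ^ i, ?_, ?_⟩
  · push_cast; rw [← h1, pow_add]; ring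
  · push_cast; rw [← h2, pow_add]; ring

theorem div_pow_mem_A {m : ℕ} (hm : 0 < m) (t μ : ℤ) (r : ℕ) (h : μ ∣ (m : ℤ) ^ r) :
    (t : ℚ) / μ ∈ A m := by
  obtain ⟨w, hw⟩ := h
  have hμ : μ ≠ 0 := by
    rintro rfl
    have : (m : ℤ) ^ r ≠ 0 := by positivity
    simp at hw
    omega
  refine ⟨r, t * w, ?_⟩
  have : (m : ℚ) ^ r = μ * w := by exact_mod_cast hw
  rw [this]
  have hμ' : (μ : ℚ) ≠ 0 := by exact_mod_cast hμ
  push_cast
  field_simp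

theorem key_dvd {m N K q k : ℕ} (hm : 2 ≤ m) (hq : q.Prime) (hqm : m < q) (hqN : N < q)
    (hN : 1 ≤ N) (hK2 : N ^ 2 ∣ m ^ K - 1) (hk : 2 * k = q - 1) :
    q * N ^ 2 ∣ m ^ (2 * K * k) - 1 := by
  have h1 : Nat.Coprime q (N ^ 2) := by
    apply Nat.Coprime.pow_right
    exact (Nat.Prime.coprime_iff_not_dvd hq).2 (fun h => by
      have := Nat.le_of_dvd (by omega) h
      omega)
  apply Nat.Coprime.mul_dvd_of_dvd_of_dvd h1
  · have h2 : m ^ (2 * K * k) - 1 = (m ^ (2 * k)) ^ K - 1 ^ K := by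
      rw [← pow_mul, one_pow]; congr 2; ring
    rw [h2, hk]
    refine dvd_trans ?_ (Nat.sub_dvd_pow_sub_pow _ _ _)
    have h3 : Nat.Coprime m q := by
      apply Nat.Coprime.symm
      exact (Nat.Prime.coprime_iff_not_dvd hq).2 (fun h => by
        have := Nat.le_of_dvd (by omega) h
        omega)
    have h4 := Nat.ModEq.pow_totient h3
    rw [Nat.totient_prime hq] at h4
    exact (Nat.modEq_iff_dvd' (Nat.one_le_pow _ _ (by omega))).1 h4.symm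
  · have h2 : m ^ (2 * K * k) - 1 = (m ^ K) ^ (2 * k) - 1 ^ (2 * k) := by
      rw [← pow_mul, one_pow]; congr 2; ring
    rw [h2]
    exact hK2.trans (Nat.sub_dvd_pow_sub_pow _ _ _)

/-- The two primes lemma in `ℤ[1/m]`. -/
theorem two_primes {m : ℕ} (hm : 2 ≤ m) {N K : ℕ} (hN : 1 ≤ N) (hNm : Nat.Coprime N m)
    (hK : 1 ≤ K) (hK2 : N ^ 2 ∣ m ^ K - 1) {a b : ℚ} (ha : a ∈ A m) (hb : b ∈ A m) (hb0 : b ≠ 0)
    (hab : ∃ x ∈ A m, ∃ y ∈ A m, a * x + b * y = 1) :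
    ∃ k₁ k₂ : ℕ, Nat.Coprime k₁ k₂ ∧ 0 < k₁ ∧ 0 < k₂ ∧
      (∃ y ∈ A m, a + b * y ≠ 0 ∧ ((m : ℚ) ^ (2 * K * k₁) - 1) / ((a + b * y) * N ^ 2) ∈ A m) ∧
      (∃ y ∈ A m, a + b * y ≠ 0 ∧ ((m : ℚ) ^ (2 * K * k₂) - 1) / ((a + b * y) * N ^ 2) ∈ A m) := by
  have hm0 : (m : ℚ) ≠ 0 := by
    have : m ≠ 0 := by omega
    exact_mod_cast this
  obtain ⟨s, α, β₀, h1, h2⟩ := A_common ha hb
  have hβ₀ : β₀ ≠ 0 := by
    intro h
    rw [h] at h2
    simp [hb0] at h2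
    omega
  obtain ⟨μ, β, r, h3, hμ, hβ, h4, h5⟩ := split_m_int m β₀ hβ₀
  obtain ⟨x, hx, y, hy, hxy⟩ := hab
  obtain ⟨r', X, Y, h6, h7⟩ := A_common hx hy
  have h8 : α * X + β₀ * Y = (m : ℤ) ^ (s + r') := by
    have : (α * X + β₀ * Y : ℚ) = (m : ℚ) ^ (s + r') := by
      rw [← h1, ← h2, ← h6, ← h7]
      calc a * (m : ℚ) ^ s * (x * (m : ℚ) ^ r') + b * (m : ℚ) ^ s * (y * (m : ℚ) ^ r')
          = (a * x + b * y) * ((m : ℚ) ^ s * (m : ℚ) ^ r') := by ring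
        _ = _ := by rw [hxy, pow_add]; ring
    exact_mod_cast this
  have hcop : IsCoprime α β := by
    have h9 : IsCoprime β ((m : ℤ) ^ (s + r')) := IsCoprime.pow_right h5
    obtain ⟨p, q, hpq⟩ := h9
    refine ⟨q * X, p + q * μ * Y, ?_⟩
    rw [← hpq, ← h8, h3]; ring
  obtain ⟨q₁, q₂, hp₁, hp₂, hB₁, hB₂, h2₁, h2₂, ⟨t₁, ht₁⟩, ⟨t₂, ht₂⟩, hc⟩ :=
    int_two_primes α β hβ hcop (m + N)
  have hodd : ∀ q : ℕ, q.Prime → 2 < q → 2 * ((q - 1) / 2) = q - 1 := by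
    intro q hq h2
    have : q % 2 = 1 := by
      rcases hq.eq_two_or_odd with h | h
      · omega
      · exact h
    omega
  have hint : ∀ q : ℕ, q.Prime → m + N < q → 2 < q → ∀ e : ℚ, e * (m : ℚ) ^ s = q ∨
      e * (m : ℚ) ^ s = - (q : ℚ) → e ≠ 0 ∧
      ((m : ℚ) ^ (2 * K * ((q - 1) / 2)) - 1) / (e * N ^ 2) ∈ A m := by
    intro q hq hqB hq2 e he
    have hq0 : (q : ℚ) ≠ 0 := by exact_mod_cast hq.ne_zero
    have hN0 : (N : ℚ) ≠ 0 := by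
      have : N ≠ 0 := by omega
      exact_mod_cast this
    have hms : (m : ℚ) ^ s ≠ 0 := pow_ne_zero _ hm0
    have he0 : e ≠ 0 := by
      rintro rfl
      rcases he with h | h
      · rw [zero_mul] at h; exact hq0 h.symm
      · rw [zero_mul] at h; exact hq0 (by linarith)
    refine ⟨he0, ?_⟩
    obtain ⟨w, hw⟩ := key_dvd hm hq (show m < q by omega) (show N < q by omega) hN hK2
      (hodd q hq hq2)
    have hw' : (m : ℚ) ^ (2 * K * ((q - 1) / 2)) - 1 = q * N ^ 2 * w := by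
      have h1 : 1 ≤ m ^ (2 * K * ((q - 1) / 2)) := Nat.one_le_pow _ _ (by omega)
      have : ((m ^ (2 * K * ((q - 1) / 2)) - 1 : ℕ) : ℚ) = (q * N ^ 2 * w : ℕ) := by
        exact_mod_cast hw
      rw [Nat.cast_sub h1] at this
      push_cast at this
      exact this
    rw [hw']
    rcases he with h | h
    · have : (q : ℚ) * N ^ 2 * w / (e * N ^ 2) = (m : ℚ) ^ s * w := by
        rw [← h]; field_simp
      rw [this]
      exact (A m).mul_mem ((A m).pow_mem (natCast_mem _ _) _) (natCast_mem _ _)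
    · have h' : (q : ℚ) = - (e * (m : ℚ) ^ s) := by rw [h]; ring
      have : (q : ℚ) * N ^ 2 * w / (e * N ^ 2) = -((m : ℚ) ^ s * w) := by
        rw [h']; field_simp
      rw [this]
      exact (A m).neg_mem
        ((A m).mul_mem ((A m).pow_mem (natCast_mem _ _) _) (natCast_mem _ _))
  have hμ' : (μ : ℚ) ≠ 0 := by exact_mod_cast hμ
  have hb' : b * (m : ℚ) ^ s = μ * β := by rw [h2, h3]; push_cast; ring
  refine ⟨(q₁ - 1) / 2, (q₂ - 1) / 2, hc, ?_, ?_, ⟨(t₁ : ℚ) / μ,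
    div_pow_mem_A (by omega) _ _ r h4, ?_⟩, ⟨-((t₂ : ℚ) / μ),
    (A m).neg_mem (div_pow_mem_A (by omega) _ _ r h4), ?_⟩⟩
  · have := hodd q₁ hp₁ h2₁; omega
  · have := hodd q₂ hp₂ h2₂; omega
  · apply hint q₁ hp₁ hB₁ h2₁
    left
    have e1 : (q₁ : ℚ) = α + β * t₁ := by
      have : (q₁ : ℤ) = α + β * t₁ := by linarith
      exact_mod_cast this
    calc (a + b * ((t₁ : ℚ) / μ)) * (m : ℚ) ^ s
        = a * (m : ℚ) ^ s + (b * (m : ℚ) ^ s) * ((t₁ : ℚ) / μ) := by ring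
      _ = α + (μ * β) * ((t₁ : ℚ) / μ) := by rw [h1, hb']
      _ = α + β * t₁ := by field_simp
      _ = q₁ := e1.symm
  · apply hint q₂ hp₂ hB₂ h2₂
    right
    have e1 : (q₂ : ℚ) = -α + β * t₂ := by
      have : (q₂ : ℤ) = -α + β * t₂ := by linarith
      exact_mod_cast this
    calc (a + b * (-((t₂ : ℚ) / μ))) * (m : ℚ) ^ s
        = a * (m : ℚ) ^ s - (b * (m : ℚ) ^ s) * ((t₂ : ℚ) / μ) := by ring
      _ = α - (μ * β) * ((t₂ : ℚ) / μ) := by rw [h1, hb']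
      _ = α - β * t₂ := by field_simp
      _ = - q₂ := by rw [e1]; ring

end Boom4c
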