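import Mathlib
import Pool.Agent.H.MP_4c7af0_al.Basic
import Pool.Agent.H.MP_4c7af0_al.Primes

/-! Step 2 for MP_4c7af0_al: `E(N)` contains `g u(N' x) g⁻¹` for all `g ∈ G(N)`. -/

namespace Boom4c

namespace Step2

set_option linter.unusedSimpArgs false

/-- `g u(x) g⁻¹` for `g` with first column `(a,c)`. -/
def U (a c x : ℚ) : SL2 := mk4 (1 - a * c * x) (a ^ 2 * x) (-(c ^ 2 * x)) (1 + a * c * x) (by ring)

@[simp] theorem U_00 (a c x) : U a c x 0 0 = 1 - a * c * x := rfl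
@[simp] theorem U_01 (a c x) : U a c x 0 1 = a ^ 2 * x := rfl
@[simp] theorem U_10 (a c x) : U a c x 1 0 = -(c ^ 2 * x) := rfl
@[simp] theorem U_11 (a c x) : U a c x 1 1 = 1 + a * c * x := rfl

theorem conj_u (g : SL2) (x : ℚ) : g * u x * g⁻¹ = U (g 0 0) (g 1 0) x := by
  have hd := det_eq g
  apply ext4
  · simp only [mul_app, inv00, inv01, inv10, inv11, u_00, u_01, u_10, u_11, U_00]
    linear_combination hd
  · simp only [mul_app, inv00, inv01, inv10, inv11, u_00, u_01, u_10, u_11, U_01]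
    ring
  · simp only [mul_app, inv00, inv01, inv10, inv11, u_00, u_01, u_10, u_11, U_10]
    ring
  · simp only [mul_app, inv00, inv01, inv10, inv11, u_00, u_01, u_10, u_11, U_11]
    linear_combination hd

theorem conj_U (e : SL2) (a c x : ℚ) :
    e * U a c x * e⁻¹ = U (e 0 0 * a + e 0 1 * c) (e 1 0 * a + e 1 1 * c) x := by
  have hd := det_eq e
  apply ext4
  · simp only [mul_app, inv00, inv01, inv10, inv11, U_00, U_01, U_10, U_11]
    linear_combination hd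
  · simp only [mul_app, inv00, inv01, inv10, inv11, U_00, U_01, U_10, U_11]
    ring
  · simp only [mul_app, inv00, inv01, inv10, inv11, U_00, U_01, U_10, U_11]
    ring
  · simp only [mul_app, inv00, inv01, inv10, inv11, U_00, U_01, U_10, U_11]
    linear_combination hd

theorem U_add (a c x y : ℚ) : U a c (x + y) = U a c x * U a c y := by
  apply ext4
  all_goals simp only [mul_app, U_00, U_01, U_10, U_11]; ring

theorem U_zero (a c : ℚ) : U a c 0 = 1 := by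
  apply ext4
  all_goals simp [one_app]

theorem U_neg (a c x : ℚ) : U a c (-x) = (U a c x)⁻¹ := by
  rw [eq_inv_iff_mul_eq_one, ← U_add, neg_add_cancel, U_zero]

theorem U_nat (a c x : ℚ) (n : ℕ) : U a c (n * x) = U a c x ^ n := by
  induction n with
  | zero => simp [U_zero]
  | succ n ih => rw [pow_succ, ← ih, ← U_add]; congr 1; push_cast; ring

theorem U_int (a c x : ℚ) (n : ℤ) : U a c (n * x) = U a c x ^ n := by
  obtain ⟨k, rfl | rfl⟩ := n.eq_nat_or_neg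
  · rw [zpow_natCast, ← U_nat]; simp
  · rw [zpow_neg, zpow_natCast, ← U_nat, ← U_neg]; congr 1; push_cast; ring

theorem U_smul (l a c x : ℚ) : U (l * a) (l * c) x = U a c (l ^ 2 * x) := by
  apply ext4
  all_goals simp only [U_00, U_01, U_10, U_11]; ring

theorem u_mem {m N : ℕ} {x : ℚ} (hN : N ≠ 0) (h : x / N ∈ A m) : u x ∈ E m N := by
  apply Subgroup.subset_closure
  left
  refine ⟨x / N, h, ?_⟩
  congr 1
  have : (N : ℚ) ≠ 0 := by exact_mod_cast hN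
  field_simp

theorem v_mem {m N : ℕ} {x : ℚ} (hN : N ≠ 0) (h : x / N ∈ A m) : v x ∈ E m N := by
  apply Subgroup.subset_closure
  right
  refine ⟨x / N, h, ?_⟩
  congr 1
  have : (N : ℚ) ≠ 0 := by exact_mod_cast hN
  field_simp

theorem inv_pow_mem {m : ℕ} (hm : m ≠ 0) (k : ℕ) : ((m : ℚ) ^ k)⁻¹ ∈ A m := by
  have : (m : ℚ) ≠ 0 := by exact_mod_cast hm
  exact ⟨k, 1, by push_cast; field_simp⟩

theorem pow_mem_A {m : ℕ} (k : ℕ) : (m : ℚ) ^ k ∈ A m := (A m).pow_mem (natCast_mem _ _) _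

/-- `diag(m^k, m^-k)` in `E(N)` if `N² ∣ m^k - 1`. -/
theorem t_mem {m N k : ℕ} (hm : m ≠ 0) (hN : N ≠ 0) (h : N ^ 2 ∣ m ^ k - 1) :
    dg ((m : ℚ) ^ k) ∈ E m N := by
  have hm0 : (m : ℚ) ≠ 0 := by exact_mod_cast hm
  have hN0 : (N : ℚ) ≠ 0 := by exact_mod_cast hN
  obtain ⟨w, hw⟩ := h
  have he : (m : ℚ) ^ k = 1 + N * (N * w) := by
    have h1 : 1 ≤ m ^ k := Nat.one_le_pow _ _ (by omega)
    have h2 : ((m ^ k - 1 : ℕ) : ℚ) = (N ^ 2 * w : ℕ) := by exact_mod_cast hw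
    rw [Nat.cast_sub h1] at h2
    push_cast at h2
    linear_combination h2
  set e : ℚ := (m : ℚ) ^ k with hedef
  have he0 : e ≠ 0 := pow_ne_zero _ hm0
  have hinv : e⁻¹ ∈ A m := inv_pow_mem hm k
  have key : dg e = v (-(N * w) * e⁻¹) * u N * v (N * w) * u (-N * e⁻¹) := by
    apply ext4
    · rw [dg_00 he0]
      simp only [mul_app, u_00, u_01, u_10, u_11, v_00, v_01, v_10, v_11]
      rw [he]; ring
    · rw [dg_01 he0]
      simp only [mul_app, u_00, u_01, u_10, u_11, v_00, v_01, v_10, v_11]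
      field_simp
      rw [he]; ring
    · rw [dg_10 he0]
      simp only [mul_app, u_00, u_01, u_10, u_11, v_00, v_01, v_10, v_11]
      field_simp
      rw [he]; ring
    · rw [dg_11 he0]
      simp only [mul_app, u_00, u_01, u_10, u_11, v_00, v_01, v_10, v_11]
      field_simp
      rw [he]; ring
  rw [key]
  refine (E m N).mul_mem ((E m N).mul_mem ((E m N).mul_mem ?_ ?_) ?_) ?_
  · apply v_mem hN
    have : -((N : ℚ) * w) * e⁻¹ / N = -(w * e⁻¹) := by field_simp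
    rw [this]
    exact (A m).neg_mem ((A m).mul_mem (natCast_mem _ _) hinv)
  · apply u_mem hN
    rw [div_self hN0]; exact (A m).one_mem
  · apply v_mem hN
    have : ((N : ℚ) * w) / N = w := by field_simp
    rw [this]
    exact natCast_mem _ _
  · apply u_mem hN
    have : -(N : ℚ) * e⁻¹ / N = -e⁻¹ := by field_simp
    rw [this]
    exact (A m).neg_mem hinv

/-- `x A ⊆ {y | U a c y ∈ E(N)}`. -/
def J (m N : ℕ) (a c x : ℚ) : Prop := ∀ r ∈ A m, U a c (r * x) ∈ E m N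

theorem J.add {m N : ℕ} {a c x y : ℚ} (hx : J m N a c x) (hy : J m N a c y) :
    J m N a c (x + y) := by
  intro r hr
  rw [mul_add, U_add]
  exact (E m N).mul_mem (hx r hr) (hy r hr)

theorem J.smul {m N : ℕ} {a c x s : ℚ} (hx : J m N a c x) (hs : s ∈ A m) :
    J m N a c (s * x) := by
  intro r hr
  rw [← mul_assoc]
  exact hx _ ((A m).mul_mem hr hs)

theorem J_conj {m N : ℕ} {a c x : ℚ} {e : SL2} (he : e ∈ E m N) :
    J m N a c x ↔ J m N (e 0 0 * a + e 0 1 * c) (e 1 0 * a + e 1 1 * c) x := by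
  constructor
  · intro h r hr
    rw [← conj_U]
    exact (E m N).mul_mem ((E m N).mul_mem he (h r hr)) ((E m N).inv_mem he)
  · intro h r hr
    have h1 := h r hr
    rw [← conj_U] at h1
    have h2 := (E m N).mul_mem ((E m N).mul_mem ((E m N).inv_mem he) h1) he
    simpa [mul_assoc] using h2

/-- from a single element to the ideal -/
theorem J_of_mem {m N k : ℕ} {a c x : ℚ} (hm : m ≠ 0) (hk : 1 ≤ k) {h : SL2} (hh : h ∈ E m N)
    (h0 : h 0 0 * a + h 0 1 * c = ((m : ℚ) ^ k)⁻¹ * a)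
    (h1 : h 1 0 * a + h 1 1 * c = ((m : ℚ) ^ k)⁻¹ * c)
    (hx : U a c x ∈ E m N) : J m N a c x := by
  have hm0 : (m : ℚ) ≠ 0 := by exact_mod_cast hm
  have hj : ∀ j : ℕ, U a c ((((m : ℚ) ^ k)⁻¹ ^ 2) ^ j * x) ∈ E m N := by
    intro j
    induction j with
    | zero => simpa using hx
    | succ j ih =>
      have h2 := (E m N).mul_mem ((E m N).mul_mem hh ih) ((E m N).inv_mem hh)
      rw [conj_U, h0, h1, U_smul] at h2
      rw [pow_succ']
      rwa [mul_assoc]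
  rintro r ⟨i, z, hz⟩
  have h3 : r * x = ((z * (m : ℤ) ^ (2 * k * i - i) : ℤ) : ℚ) *
      ((((m : ℚ) ^ k)⁻¹ ^ 2) ^ i * x) := by
    have h4 : i ≤ 2 * k * i := by nlinarith
    have h5 : (m : ℚ) ^ (2 * k * i) = (m : ℚ) ^ (2 * k * i - i) * (m : ℚ) ^ i := by
      rw [← pow_add]; congr 1; omega
    have h6 : (((m : ℚ) ^ k)⁻¹ ^ 2) ^ i = ((m : ℚ) ^ (2 * k * i))⁻¹ := by
      rw [← pow_mul, inv_pow, ← pow_mul]; congr 2; ring
    rw [h6, h5]
    push_cast
    rw [← hz]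
    have h7 : (m : ℚ) ^ (2 * k * i - i) ≠ 0 := pow_ne_zero _ hm0
    have h8 : (m : ℚ) ^ i ≠ 0 := pow_ne_zero _ hm0
    field_simp
  rw [h3, U_int]
  exact (E m N).zpow_mem (hj i) _

/-- the two hyperbolic elements and their commutator -/
theorem main1 {m N k l : ℕ} {a c : ℚ} (hm : m ≠ 0) (hN : N ≠ 0) (ha : a ∈ A m) (hc : c / N ∈ A m)
    (ha0 : a ≠ 0) (hc0 : c ≠ 0) (hk1 : 1 ≤ k)
    (hk : N ^ 2 ∣ m ^ k - 1) (hl : N ^ 2 ∣ m ^ l - 1)
    (hck : ((m : ℚ) ^ (2 * k) - 1) / (c * N) ∈ A m) (hal : ((m : ℚ) ^ (2 * l) - 1) / a ∈ A m) :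
    J m N a c (((m : ℚ) ^ (2 * k) - 1) / c * (((m : ℚ) ^ (2 * l) - 1) / a)) := by
  have hm0 : (m : ℚ) ≠ 0 := by exact_mod_cast hm
  have hN0 : (N : ℚ) ≠ 0 := by exact_mod_cast hN
  have hMk : (m : ℚ) ^ (2 * k) = ((m : ℚ) ^ k) ^ 2 := by rw [← pow_mul]; congr 1; ring
  have hMl : (m : ℚ) ^ (2 * l) = ((m : ℚ) ^ l) ^ 2 := by rw [← pow_mul]; congr 1; ring
  have hkinv := inv_pow_mem hm k
  have hlinv := inv_pow_mem hm l
  have ht := t_mem hm hN hk
  have ht' := t_mem hm hN hl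
  rw [hMk] at hck ⊢
  rw [hMl] at hal ⊢
  have hM0 : (m : ℚ) ^ k ≠ 0 := pow_ne_zero _ hm0
  have hL0 : (m : ℚ) ^ l ≠ 0 := pow_ne_zero _ hm0
  set M : ℚ := (m : ℚ) ^ k with hM
  set L : ℚ := (m : ℚ) ^ l with hL
  have hMA : M ∈ A m := pow_mem_A k
  have hLA : L ∈ A m := pow_mem_A l
  -- h
  have hh : dg M * u (-((M ^ 2 - 1) * a / (c * M ^ 2))) ∈ E m N := by
    refine (E m N).mul_mem ht (u_mem hN ?_)
    have : -((M ^ 2 - 1) * a / (c * M ^ 2)) / N = -((M ^ 2 - 1) / (c * N) * a * (M⁻¹ * M⁻¹)) := by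
      field_simp
    rw [this]
    exact (A m).neg_mem ((A m).mul_mem ((A m).mul_mem hck ha) ((A m).mul_mem hkinv hkinv))
  have hh' : dg L * v ((L ^ 2 - 1) * c / a) ∈ E m N := by
    refine (E m N).mul_mem ht' (v_mem hN ?_)
    have : (L ^ 2 - 1) * c / a / N = (L ^ 2 - 1) / a * (c / N) := by
      field_simp
    rw [this]
    exact (A m).mul_mem hal hc
  set h : SL2 := dg M * u (-((M ^ 2 - 1) * a / (c * M ^ 2))) with hhdef
  set h' : SL2 := dg L * v ((L ^ 2 - 1) * c / a) with hh'def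
  have h00 : h 0 0 = M := by
    rw [hhdef, mul_app, dg_00 hM0, dg_01 hM0]; simp
  have h01 : h 0 1 = -((M ^ 2 - 1) * a / (c * M)) := by
    rw [hhdef, mul_app, dg_00 hM0, dg_01 hM0]; simp; field_simp
  have h10 : h 1 0 = 0 := by
    rw [hhdef, mul_app, dg_10 hM0, dg_11 hM0]; simp
  have h11 : h 1 1 = M⁻¹ := by
    rw [hhdef, mul_app, dg_10 hM0, dg_11 hM0]; simp
  have h'00 : h' 0 0 = L := by
    rw [hh'def, mul_app, dg_00 hL0, dg_01 hL0]; simp
  have h'01 : h' 0 1 = 0 := by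
    rw [hh'def, mul_app, dg_00 hL0, dg_01 hL0]; simp
  have h'10 : h' 1 0 = (L ^ 2 - 1) * c / (a * L) := by
    rw [hh'def, mul_app, dg_10 hL0, dg_11 hL0]; simp; field_simp
  have h'11 : h' 1 1 = L⁻¹ := by
    rw [hh'def, mul_app, dg_10 hL0, dg_11 hL0]; simp
  have hcomm : h * h' = U a c ((M⁻¹) ^ 2 * ((M ^ 2 - 1) / c * ((L ^ 2 - 1) / a))) * (h' * h) := by
    apply ext4
    · simp only [mul_app, U_00, U_01, U_10, U_11, h00, h01, h10, h11, h'00, h'01, h'10, h'11]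
      field_simp
      ring
    · simp only [mul_app, U_00, U_01, U_10, U_11, h00, h01, h10, h11, h'00, h'01, h'10, h'11]
      field_simp
      ring
    · simp only [mul_app, U_00, U_01, U_10, U_11, h00, h01, h10, h11, h'00, h'01, h'10, h'11]
      field_simp
      ring
    · simp only [mul_app, U_00, U_01, U_10, U_11, h00, h01, h10, h11, h'00, h'01, h'10, h'11]
      field_simp
      ring
  have hU : U a c ((M⁻¹) ^ 2 * ((M ^ 2 - 1) / c * ((L ^ 2 - 1) / a))) ∈ E m N := by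
    have : U a c ((M⁻¹) ^ 2 * ((M ^ 2 - 1) / c * ((L ^ 2 - 1) / a))) = h * h' * (h' * h)⁻¹ := by
      rw [hcomm, mul_inv_cancel_right]
    rw [this]
    exact (E m N).mul_mem ((E m N).mul_mem hh hh') ((E m N).inv_mem ((E m N).mul_mem hh' hh))
  have hJ : J m N a c ((M⁻¹) ^ 2 * ((M ^ 2 - 1) / c * ((L ^ 2 - 1) / a))) := by
    refine J_of_mem hm hk1 hh ?_ ?_ hU
    · rw [h00, h01]; field_simp; ring
    · rw [h10, h11]; ring
  have hJ2 := hJ.smul (s := M ^ 2) ((A m).pow_mem hMA 2)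
  have : M ^ 2 * ((M⁻¹) ^ 2 * ((M ^ 2 - 1) / c * ((L ^ 2 - 1) / a))) =
      (M ^ 2 - 1) / c * ((L ^ 2 - 1) / a) := by
    field_simp
  rwa [this] at hJ2

/-- gcd step -/
theorem J_gcd {m N : ℕ} {a c X : ℚ} (M k₁ k₂ : ℕ) (hM : 1 ≤ M) (hc : Nat.Coprime k₁ k₂)
    (h1 : J m N a c (X * ((M : ℚ) ^ k₁ - 1))) (h2 : J m N a c (X * ((M : ℚ) ^ k₂ - 1))) :
    J m N a c (X * ((M : ℚ) - 1)) := by
  have hg := Nat.pow_sub_one_gcd_pow_sub_one M k₁ k₂
  rw [hc.gcd_eq_one, pow_one] at hg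
  have hb := Nat.gcd_eq_gcd_ab (M ^ k₁ - 1) (M ^ k₂ - 1)
  rw [hg] at hb
  have hb' : (M : ℚ) - 1 = ((M : ℚ) ^ k₁ - 1) * ((M ^ k₁ - 1).gcdA (M ^ k₂ - 1) : ℤ) +
      ((M : ℚ) ^ k₂ - 1) * ((M ^ k₁ - 1).gcdB (M ^ k₂ - 1) : ℤ) := by
    have h3 : (((M - 1 : ℕ) : ℤ) : ℚ) = ((M ^ k₁ - 1 : ℕ) : ℚ) * ((M ^ k₁ - 1).gcdA (M ^ k₂ - 1) : ℤ) +
      ((M ^ k₂ - 1 : ℕ) : ℚ) * ((M ^ k₁ - 1).gcdB (M ^ k₂ - 1) : ℤ) := by
      rw [hb]; push_cast; rfl
    rw [Nat.cast_sub (Nat.one_le_pow _ _ hM), Nat.cast_sub (Nat.one_le_pow _ _ hM)] at h3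
    push_cast [Nat.cast_sub hM] at h3
    exact h3
  rw [hb']
  have h4 := (h1.smul (s := ((M ^ k₁ - 1).gcdA (M ^ k₂ - 1) : ℤ)) (intCast_mem _ _)).add
    (h2.smul (s := ((M ^ k₁ - 1).gcdB (M ^ k₂ - 1) : ℤ)) (intCast_mem _ _))
  convert h4 using 1
  ring

theorem J_shift_a {m N : ℕ} {a c x y : ℚ} (hN : N ≠ 0) (hy : y ∈ A m) :
    J m N a c x ↔ J m N (a + c * N * y) c x := by
  have h := J_conj (m := m) (N := N) (a := a) (c := c) (x := x) (e := u (N * y))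
    (u_mem hN (by
      have : (N : ℚ) ≠ 0 := by exact_mod_cast hN
      have h2 : (N : ℚ) * y / N = y := by field_simp
      rw [h2]; exact hy))
  rw [h]
  simp only [u_00, u_01, u_10, u_11]
  have e1 : 1 * a + (N : ℚ) * y * c = a + c * N * y := by ring
  have e2 : 0 * a + 1 * c = c := by ring
  rw [e1, e2]

theorem J_shift_c {m N : ℕ} {a c x y : ℚ} (hN : N ≠ 0) (hy : y ∈ A m) :
    J m N a c x ↔ J m N a (c + a * N * y) x := by
  have h := J_conj (m := m) (N := N) (a := a) (c := c) (x := x) (e := v (N * y))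
    (v_mem hN (by
      have : (N : ℚ) ≠ 0 := by exact_mod_cast hN
      have h2 : (N : ℚ) * y / N = y := by field_simp
      rw [h2]; exact hy))
  rw [h]
  simp only [v_00, v_01, v_10, v_11]
  have e1 : (N : ℚ) * y * a + 1 * c = c + a * N * y := by ring
  have e2 : 1 * a + 0 * c = a := by ring
  rw [e1, e2]

theorem dvd_mul_exp {m N K j : ℕ} (h : N ^ 2 ∣ m ^ K - 1) : N ^ 2 ∣ m ^ (K * j) - 1 := by
  have h2 : m ^ (K * j) - 1 = (m ^ K) ^ j - 1 ^ j := by rw [← pow_mul, one_pow]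
  rw [h2]
  exact h.trans (Nat.sub_dvd_pow_sub_pow _ _ _)

theorem main2 {m N K k : ℕ} {a b c d : ℚ} (hm : 2 ≤ m) (hN : 1 ≤ N) (hNm : Nat.Coprime N m)
    (hK : 1 ≤ K) (hK2 : N ^ 2 ∣ m ^ K - 1)
    (ha : (a - 1) / N ∈ A m) (hb : b ∈ A m) (hc : c / N ∈ A m) (hd : d ∈ A m)
    (hdet : a * d - b * c = 1)
    (hc0 : c ≠ 0) (hk1 : 1 ≤ k) (hk : N ^ 2 ∣ m ^ k - 1)
    (hck : ((m : ℚ) ^ (2 * k) - 1) / (c * N) ∈ A m) :
    J m N a c (((m : ℚ) ^ (2 * k) - 1) / c * ((m : ℚ) ^ (2 * K) - 1)) := by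
  have hN' : N ≠ 0 := by omega
  have hm' : m ≠ 0 := by omega
  have hN0 : (N : ℚ) ≠ 0 := by exact_mod_cast hN'
  have hNA : (N : ℚ) ∈ A m := natCast_mem _ _
  have haA : a ∈ A m := by
    have : a = (a - 1) / N * N + 1 := by field_simp; ring
    rw [this]
    exact (A m).add_mem ((A m).mul_mem ha hNA) (A m).one_mem
  have hcA : c ∈ A m := by
    have : c = c / N * N := by field_simp
    rw [this]
    exact (A m).mul_mem hc hNA
  obtain ⟨k₁, k₂, hcop, h1, h2, ⟨y₁, hy₁, ha₁, he₁⟩, ⟨y₂, hy₂, ha₂, he₂⟩⟩ :=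
    two_primes hm hN hNm hK hK2 haA (b := c * N) ((A m).mul_mem hcA hNA) (mul_ne_zero hc0 hN0)
      ⟨d * (a - (a - 1)) - b * c, (A m).sub_mem ((A m).mul_mem hd ((A m).sub_mem haA
        ((A m).sub_mem haA (A m).one_mem))) ((A m).mul_mem hb hcA),
        b * ((a - 1) / N), (A m).mul_mem hb ha, by
          field_simp
          linear_combination hdet⟩
  have step : ∀ (j : ℕ) (y : ℚ), y ∈ A m → a + c * N * y ≠ 0 →
      ((m : ℚ) ^ (2 * K * j) - 1) / ((a + c * N * y) * N ^ 2) ∈ A m →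
      J m N a c (((m : ℚ) ^ (2 * k) - 1) / c * (((m ^ (2 * K) : ℕ) : ℚ) ^ j - 1)) := by
    intro j y hy h0 he
    rw [J_shift_a hN' hy]
    have hA' : a + c * N * y ∈ A m :=
      (A m).add_mem haA ((A m).mul_mem ((A m).mul_mem hcA hNA) hy)
    have h3 := main1 (l := K * j) hm' hN' hA' hc h0 hc0 hk1 hk (dvd_mul_exp hK2) hck (by
      have : ((m : ℚ) ^ (2 * (K * j)) - 1) / (a + c * N * y) =
        ((m : ℚ) ^ (2 * K * j) - 1) / ((a + c * N * y) * N ^ 2) * N ^ 2 := by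
        rw [← mul_assoc]; field_simp
      rw [this]
      exact (A m).mul_mem he ((A m).pow_mem hNA 2))
    have h4 := h3.smul hA'
    have hexp : (m : ℚ) ^ (2 * (K * j)) = (m : ℚ) ^ (2 * K * j) := by rw [mul_assoc]
    rw [hexp] at h4
    convert h4 using 1
    push_cast
    rw [← pow_mul]
    field_simp
  have := J_gcd (m ^ (2 * K)) k₁ k₂ (Nat.one_le_pow _ _ (by omega)) hcop
    (step k₁ y₁ hy₁ ha₁ he₁) (step k₂ y₂ hy₂ ha₂ he₂)
  push_cast at this
  exact this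

theorem main3 {m N K : ℕ} {a b c d : ℚ} (hm : 2 ≤ m) (hN : 1 ≤ N) (hNm : Nat.Coprime N m)
    (hK : 1 ≤ K) (hK2 : N ^ 2 ∣ m ^ K - 1)
    (ha : (a - 1) / N ∈ A m) (hb : b ∈ A m) (hc : c / N ∈ A m) (hd : d ∈ A m)
    (hdet : a * d - b * c = 1) (ha0 : a ≠ 0) :
    J m N a c (((m : ℚ) ^ (2 * K) - 1) * ((m : ℚ) ^ (2 * K) - 1)) := by
  have hN' : N ≠ 0 := by omega
  have hm' : m ≠ 0 := by omega
  have hN0 : (N : ℚ) ≠ 0 := by exact_mod_cast hN'
  have hNA : (N : ℚ) ∈ A m := natCast_mem _ _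
  have haA : a ∈ A m := by
    have : a = (a - 1) / N * N + 1 := by field_simp; ring
    rw [this]
    exact (A m).add_mem ((A m).mul_mem ha hNA) (A m).one_mem
  obtain ⟨k₁, k₂, hcop, h1, h2, ⟨y₁, hy₁, ha₁, he₁⟩, ⟨y₂, hy₂, ha₂, he₂⟩⟩ :=
    two_primes hm hN hNm hK hK2 hc (b := a) haA ha0
      ⟨-(b * N), (A m).neg_mem ((A m).mul_mem hb hNA), d, hd, by
          field_simp
          linear_combination hdet⟩
  have step : ∀ (j : ℕ) (y : ℚ), 0 < j → y ∈ A m → c / N + a * y ≠ 0 →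
      ((m : ℚ) ^ (2 * K * j) - 1) / ((c / N + a * y) * N ^ 2) ∈ A m →
      J m N a c (((m : ℚ) ^ (2 * K) - 1) * (((m ^ (2 * K) : ℕ) : ℚ) ^ j - 1)) := by
    intro j y hj hy h0 he
    rw [J_shift_c hN' hy]
    have e0 : c + a * N * y = (c / N + a * y) * N := by field_simp
    have hc0 : c + a * N * y ≠ 0 := by rw [e0]; exact mul_ne_zero h0 hN0
    have hA' : (c + a * N * y) / N ∈ A m := by
      have : (c + a * N * y) / N = c / N + a * y := by field_simp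
      rw [this]
      exact (A m).add_mem hc ((A m).mul_mem haA hy)
    have hA'' : c + a * N * y ∈ A m := by
      have : c + a * N * y = (c + a * N * y) / N * N := by field_simp
      rw [this]
      exact (A m).mul_mem hA' hNA
    have h3 := main2 (k := K * j) (a := a) (b := b) (c := c + a * N * y) (d := d + b * N * y)
      hm hN hNm hK hK2 ha hb hA'
      ((A m).add_mem hd ((A m).mul_mem ((A m).mul_mem hb hNA) hy)) (by linear_combination hdet) hc0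
      (Nat.mul_pos (by omega) hj) (dvd_mul_exp hK2) (by
        have : ((m : ℚ) ^ (2 * (K * j)) - 1) / ((c + a * N * y) * N) =
          ((m : ℚ) ^ (2 * K * j) - 1) / ((c / N + a * y) * N ^ 2) := by
          rw [e0, ← mul_assoc]; congr 1; ring
        rw [this]; exact he)
    have h4 := h3.smul hA''
    have hexp : (m : ℚ) ^ (2 * (K * j)) = (m : ℚ) ^ (2 * K * j) := by rw [mul_assoc]
    rw [hexp] at h4
    convert h4 using 1
    push_cast
    rw [← pow_mul]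
    field_simp
  have := J_gcd (m ^ (2 * K)) k₁ k₂ (Nat.one_le_pow _ _ (by omega)) hcop
    (step k₁ y₁ h1 hy₁ ha₁ he₁) (step k₂ y₂ h2 hy₂ ha₂ he₂)
  push_cast at this
  exact this

theorem one_div_not_mem {m N : ℕ} (hm : 2 ≤ m) (hN : 2 ≤ N) (hNm : Nat.Coprime N m) :
    ¬ (-1 : ℚ) / N ∈ A m := by
  rintro ⟨k, z, hz⟩
  have hN0 : (N : ℚ) ≠ 0 := by
    have : N ≠ 0 := by omega
    exact_mod_cast this
  have h1 : (m : ℤ) ^ k = -(N * z) := by
    have : (m : ℚ) ^ k = -(N * z) := by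
      rw [← hz]; field_simp
    exact_mod_cast this
  have h2 : (N : ℤ) ∣ (m : ℤ) ^ k := by
    rw [h1]; exact (Dvd.intro _ rfl).neg_right
  have h3 : N ∣ m ^ k := by exact_mod_cast h2
  have h4 : Nat.Coprime N (m ^ k) := hNm.pow_right k
  have h5 := Nat.Coprime.eq_one_of_dvd h4 h3
  omega

end Step2

open Step2

theorem step2 {m N : ℕ} (hm : 2 ≤ m) (hN : 2 ≤ N) (hNm : Nat.Coprime N m) :
    ∃ N' : ℕ, 0 < N' ∧ Nat.Coprime N' m ∧
      ∀ g ∈ GN m N, ∀ x ∈ A m, g * u (N' * x) * g⁻¹ ∈ E m N := by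
  have hcop : Nat.Coprime m (N ^ 2) := Nat.Coprime.pow_right _ hNm.symm
  have hN2 : 0 < N ^ 2 := by positivity
  obtain ⟨K, hK, hK2⟩ : ∃ K : ℕ, 1 ≤ K ∧ N ^ 2 ∣ m ^ K - 1 := by
    refine ⟨Nat.totient (N ^ 2), Nat.totient_pos.2 hN2, ?_⟩
    have h4 := Nat.ModEq.pow_totient hcop
    exact (Nat.modEq_iff_dvd' (Nat.one_le_pow _ _ (by omega))).1 h4.symm
  have hpow : 1 < m ^ (2 * K) := Nat.one_lt_pow (by omega) (by omega)
  refine ⟨(m ^ (2 * K) - 1) ^ 2, ?_, ?_, ?_⟩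
  · have : 0 < m ^ (2 * K) - 1 := by omega
    positivity
  · apply Nat.Coprime.pow_left
    have h1 : Nat.Coprime (m ^ (2 * K) - 1) (m ^ (2 * K)) := by
      have h2 : m ^ (2 * K) = (m ^ (2 * K) - 1) + 1 := by omega
      conv_rhs => rw [h2]
      simp
    exact Nat.Coprime.coprime_dvd_right (dvd_pow_self m (by omega)) h1
  · rintro g ⟨g0, g1, g2, g3⟩ x hx
    have hN0 : (N : ℚ) ≠ 0 := by
      have : N ≠ 0 := by omega
      exact_mod_cast this
    have hNA : (N : ℚ) ∈ A m := natCast_mem _ _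
    have hb : g 0 1 ∈ A m := by
      have : g 0 1 = g 0 1 / N * N := by field_simp
      rw [this]; exact (A m).mul_mem g1 hNA
    have hd : g 1 1 ∈ A m := by
      have : g 1 1 = (g 1 1 - 1) / N * N + 1 := by field_simp; ring
      rw [this]; exact (A m).add_mem ((A m).mul_mem g3 hNA) (A m).one_mem
    have ha0 : g 0 0 ≠ 0 := by
      intro h
      rw [h, zero_sub] at g0
      exact one_div_not_mem hm hN hNm g0
    have h := main3 hm (by omega) hNm hK hK2 g0 hb g2 hd (det_eq g) ha0 x hx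
    rw [conj_u]
    convert h using 2
    push_cast [Nat.cast_sub hpow.le]
    ring

end Boom4c
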