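import Pool.Agent.H.MP_4c7af0_al.Step4c

/-! Step 4, part 4: `E*(N)` has finite index in `SL₂(ℤ[1/m])`. -/

namespace Boom4c

open Matrix

/-- central-by-finite groups have finite commutator subgroup -/
theorem finite_commutator_of_center {Q : Type*} [Group Q] (h : (Subgroup.center Q).index ≠ 0) :
    Finite (commutator Q) := by
  have hfin : Finite (Q ⧸ Subgroup.center Q) := by
    have : (Subgroup.center Q).FiniteIndex := ⟨h⟩
    infer_instance
  have h1 : (commutatorSet Q).Finite := by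
    have h2 : commutatorSet Q ⊆ Set.range
        (fun p : (Q ⧸ Subgroup.center Q) × (Q ⧸ Subgroup.center Q) =>
          p.1.out * p.2.out * (p.1.out)⁻¹ * (p.2.out)⁻¹) := by
      rintro _ ⟨g, k, rfl⟩
      refine ⟨((g : Q ⧸ Subgroup.center Q), (k : Q ⧸ Subgroup.center Q)), ?_⟩
      obtain ⟨z, hz⟩ := QuotientGroup.mk_out_eq_mul (Subgroup.center Q) g
      obtain ⟨w, hw⟩ := QuotientGroup.mk_out_eq_mul (Subgroup.center Q) k
      simp only
      rw [hz, hw, commutatorElement_def]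
      have hz' := Subgroup.mem_center_iff.1 z.2
      have hw' := Subgroup.mem_center_iff.1 w.2
      have e1 : g * (z : Q) * (k * w) * (g * (z : Q))⁻¹ * (k * (w : Q))⁻¹
          = g * ((z : Q) * (k * w) * (z : Q)⁻¹) * g⁻¹ * (k * (w : Q))⁻¹ := by group
      have e2 : (z : Q) * (k * w) * (z : Q)⁻¹ = k * w := by
        rw [← hz' (k * w)]; group
      have e3 : g * (k * (w : Q)) * g⁻¹ * (k * (w : Q))⁻¹
          = g * k * ((w : Q) * g⁻¹ * (w : Q)⁻¹) * k⁻¹ := by group
      have e4 : (w : Q) * g⁻¹ * (w : Q)⁻¹ = g⁻¹ := by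
        rw [← hw' g⁻¹]; group
      rw [e1, e2, e3, e4]
    exact (Set.finite_range _).subset h2
  have : Finite (commutatorSet Q) := h1
  infer_instance

theorem schur_fin {Γ : Type*} [Group Γ] [Group.FG Γ] (P E : Subgroup Γ) [E.Normal]
    (hP : P.index ≠ 0)
    (hcomm : ∀ g : Γ, ∀ x ∈ P, Commute (QuotientGroup.mk' E g) (QuotientGroup.mk' E x))
    {s : ℕ} (hs : 0 < s) (htor : ∀ g : Γ, (Abelianization.of g) ^ s = 1) : E.index ≠ 0 := by
  have hsurj : Function.Surjective (QuotientGroup.mk' E) := QuotientGroup.mk'_surjective E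
  -- the center has finite index
  have h1 : (Subgroup.center (Γ ⧸ E)).index ≠ 0 := by
    have h2 : P.map (QuotientGroup.mk' E) ≤ Subgroup.center (Γ ⧸ E) := by
      rintro _ ⟨x, hx, rfl⟩
      rw [Subgroup.mem_center_iff]
      intro q
      obtain ⟨g, rfl⟩ := hsurj q
      exact (hcomm g x hx).eq
    have h3 := Subgroup.index_dvd_of_le h2
    have h4 := Subgroup.index_map_dvd P hsurj
    exact ne_zero_of_dvd_ne_zero hP (h3.trans h4)
  have hfc : Finite (commutator (Γ ⧸ E)) := finite_commutator_of_center h1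
  -- the abelianization is finite
  have hfg : Group.FG (Γ ⧸ E) := Group.fg_of_surjective hsurj
  have hfg' : Group.FG (Abelianization (Γ ⧸ E)) :=
    Group.fg_of_surjective (f := Abelianization.of) (QuotientGroup.mk'_surjective _)
  have htors : ∀ a : Abelianization (Γ ⧸ E), a ^ s = 1 := by
    intro a
    obtain ⟨q, rfl⟩ := QuotientGroup.mk'_surjective _ a
    obtain ⟨g, rfl⟩ := hsurj q
    have h5 := congrArg (Abelianization.map (QuotientGroup.mk' E)) (htor g)
    rw [map_pow, Abelianization.map_of, map_one] at h5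
    exact h5
  have hfa : Finite (Abelianization (Γ ⧸ E)) :=
    CommGroup.finite_of_fg_isMulTorsion _ (fun a => isOfFinOrder_iff_pow_eq_one.2 ⟨s, hs, htors a⟩)
  have h6 : (commutator (Γ ⧸ E)).index ≠ 0 := by
    have : Finite ((Γ ⧸ E) ⧸ commutator (Γ ⧸ E)) := hfa
    exact Subgroup.index_ne_zero_of_finite
  have h7 := (commutator (Γ ⧸ E)).index_mul_card
  have h8 : Nat.card (commutator (Γ ⧸ E)) ≠ 0 := Nat.card_pos.ne'
  rw [Subgroup.index]
  rw [← h7]
  exact mul_ne_zero h6 h8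

/-- the generators of `G m` as a set in the group `G m`. -/
noncomputable def gens (m : ℕ) : Set (G m) :=
  {⟨u 1, u_mem_G (A m).one_mem⟩, ⟨v 1, v_mem_G (A m).one_mem⟩, tG m}

theorem closure_gens {m : ℕ} (hm : 2 ≤ m) : Subgroup.closure (gens m) = ⊤ := by
  rw [eq_top_iff]
  intro g _
  have h1 : G m ≤ (Subgroup.closure (gens m)).map (G m).subtype := by
    apply gen hm
    · exact ⟨⟨u 1, u_mem_G (A m).one_mem⟩, Subgroup.subset_closure (by simp [gens]), rfl⟩
    · exact ⟨⟨v 1, v_mem_G (A m).one_mem⟩, Subgroup.subset_closure (by simp [gens]), rfl⟩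
    · exact ⟨tG m, Subgroup.subset_closure (by simp [gens]), rfl⟩
  obtain ⟨x, hx, hxg⟩ := h1 g.2
  have : x = g := Subtype.ext hxg
  rwa [this] at hx

theorem fg_G {m : ℕ} (hm : 2 ≤ m) : Group.FG (G m) := by
  rw [Group.fg_iff]
  exact ⟨gens m, closure_gens hm, by simp [gens]⟩

theorem ab_u {m : ℕ} (hm : 2 ≤ m) {x : ℚ} (hx : x ∈ A m) :
    (Abelianization.of (⟨u x, u_mem_G hx⟩ : G m)) ^ (m ^ 2 - 1) = 1 := by
  have hmq : (m : ℚ) ≠ 0 := by exact_mod_cast (by omega : m ≠ 0)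
  have hm2 : 1 ≤ m ^ 2 := Nat.one_le_pow _ _ (by omega)
  rw [← map_pow]
  have : (⟨u x, u_mem_G hx⟩ : G m) ^ (m ^ 2 - 1)
      = tG m * ⟨u x, u_mem_G hx⟩ * (tG m)⁻¹ * (⟨u x, u_mem_G hx⟩)⁻¹ := by
    apply Subtype.ext
    change u x ^ (m ^ 2 - 1) = dg m * u x * (dg m)⁻¹ * (u x)⁻¹
    rw [u_pow, dg_conj_u hmq, u_inv, u_mul]
    congr 1
    rw [Nat.cast_sub hm2]; push_cast; ring
  rw [this, map_mul, map_mul, map_mul, map_inv, map_inv]
  rw [mul_comm (Abelianization.of (tG m)), mul_inv_cancel_right, mul_inv_cancel]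

theorem ab_v {m : ℕ} (hm : 2 ≤ m) {x : ℚ} (hx : x ∈ A m) :
    (Abelianization.of (⟨v x, v_mem_G hx⟩ : G m)) ^ (m ^ 2 - 1) = 1 := by
  have hnx : -x ∈ A m := (A m).neg_mem hx
  have e : (⟨v x, v_mem_G hx⟩ : G m) = ⟨wy, wy_mem_G⟩ * ⟨u (-x), u_mem_G hnx⟩ * ⟨wy, wy_mem_G⟩⁻¹ := by
    apply Subtype.ext
    change v x = wy * u (-x) * wy⁻¹
    rw [wy_conj_u, neg_neg]
  rw [e, map_mul, map_mul, map_inv, mul_comm (Abelianization.of (⟨wy, wy_mem_G⟩ : G m)),
    mul_inv_cancel_right]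
  exact ab_u hm hnx

theorem ab_t {m : ℕ} (hm : 2 ≤ m) : (Abelianization.of (tG m)) ^ (m ^ 2 - 1) = 1 := by
  have hmq : (m : ℚ) ≠ 0 := by exact_mod_cast (by omega : m ≠ 0)
  have h1 := (A m).one_mem
  have hn1 := (A m).neg_mem h1
  have hmA := natA m m
  have hmi : -((m : ℚ))⁻¹ ∈ A m := (A m).neg_mem inv_m_mem
  have e : tG m = ⟨u m, u_mem_G hmA⟩ * ⟨v (-(m : ℚ)⁻¹), v_mem_G hmi⟩ * ⟨u m, u_mem_G hmA⟩ *
      (⟨u (-1), u_mem_G hn1⟩ * ⟨v 1, v_mem_G h1⟩ * ⟨u (-1), u_mem_G hn1⟩) := by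
    apply Subtype.ext
    exact dg_eq hmq
  rw [e]
  rw [map_mul, map_mul, map_mul, map_mul, map_mul, mul_pow, mul_pow, mul_pow, mul_pow, mul_pow,
    ab_u hm hmA, ab_v hm hmi, ab_u hm hn1, ab_v hm h1]
  simp

theorem ab_all {m : ℕ} (hm : 2 ≤ m) (g : G m) : (Abelianization.of g) ^ (m ^ 2 - 1) = 1 := by
  have h : g ∈ Subgroup.closure (gens m) := by rw [closure_gens hm]; trivial
  induction h using Subgroup.closure_induction with
  | mem x hx =>
    rcases hx with rfl | rfl | hx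
    · exact ab_u hm (A m).one_mem
    · exact ab_v hm (A m).one_mem
    · have : x = tG m := hx
      rw [this]; exact ab_t hm
  | one => simp
  | mul x y _ _ hx hy => rw [map_mul, mul_pow, hx, hy, one_mul]
  | inv x _ hx => rw [map_inv, inv_pow, hx, inv_one]

theorem all_comm {m N : ℕ} (hm : 2 ≤ m) (hN : 1 ≤ N) (hNm : Nat.Coprime N m) (g x : G m)
    (hx : (x : SL2) ∈ GN m N) : Commute (pr m N g) (pr m N x) := by
  have h : g ∈ Subgroup.closure (gens m) := by rw [closure_gens hm]; trivial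
  induction h using Subgroup.closure_induction with
  | mem y hy =>
    rcases hy with rfl | rfl | hy
    · have h1 := u1_comm hm hN hNm x hx
      have e : (⟨u 1, u_mem_G (A m).one_mem⟩ : G m) = ⟨u (-1), u_neg_one_mem⟩⁻¹ := by
        apply Subtype.ext
        change u 1 = (u (-1))⁻¹
        rw [u_inv, neg_neg]
      rw [e, map_inv]
      exact h1.inv_left
    · exact v1_comm hm hN hNm x hx
    · have : y = tG m := hy
      rw [this]; exact t_comm hm hN x hx
  | one => rw [map_one]; exact Commute.one_left _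
  | mul y z _ _ hy hz => rw [map_mul]; exact hy.mul_left hz
  | inv y _ hy => rw [map_inv]; exact hy.inv_left

/-- `E*(N)` has finite index in `SL₂(ℤ[1/m])`. -/
theorem step4' {m N : ℕ} (hm : 2 ≤ m) (hN : 1 ≤ N) (hNm : Nat.Coprime N m) :
    (Es m N).relIndex (G m) ≠ 0 := by
  have := fg_G hm
  have hm2 : 4 ≤ m ^ 2 := by nlinarith
  exact schur_fin ((GN m N).subgroupOf (G m)) ((Es m N).subgroupOf (G m)) (GN_relIndex hN hNm)
    (fun g x hx => all_comm hm hN hNm g x hx) (s := m ^ 2 - 1) (by omega) (ab_all hm)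

theorem step4 {m N : ℕ} (hm : 2 ≤ m) (hN : 2 ≤ N) (hNm : Nat.Coprime N m) :
    (Es m N).relIndex (G m) ≠ 0 := step4' hm (by omega) hNm

end Boom4c
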