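import Pool.Agent.H.MP_4c7af0_al.Step1
import Pool.Agent.H.MP_4c7af0_al.Step2
import Pool.Agent.H.MP_4c7af0_al.Step4

/-! Assembly for MP_4c7af0_al. -/

namespace Boom4c

open Matrix

/-- some positive power of every element of `Γ` lies in a finite index subgroup -/
theorem exists_pow_mem {K Γ : Subgroup SL2} (h : K.relIndex Γ ≠ 0) {g : SL2} (hg : g ∈ Γ) :
    ∃ j : ℕ, 0 < j ∧ g ^ j ∈ K := by
  have hfi : (K.subgroupOf Γ).FiniteIndex := ⟨h⟩
  obtain ⟨j, hj, -, hjK⟩ := Subgroup.exists_pow_mem_of_index_ne_zero h ⟨g, hg⟩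
  refine ⟨j, hj, ?_⟩
  rw [Subgroup.mem_subgroupOf] at hjK
  simpa using hjK

/-- Subgroup generated by the `Γ(N)`-conjugates of `u(N' A)`. -/
def Rg (m N N' : ℕ) : Subgroup SL2 :=
  Subgroup.closure {h | ∃ g ∈ GN m N, ∃ x ∈ A m, h = g * u (N' * x) * g⁻¹}

theorem Rg_conj {m N N' : ℕ} {γ δ : SL2} (hγ : γ ∈ GN m N) (hδ : δ ∈ Rg m N N') :
    γ * δ * γ⁻¹ ∈ Rg m N N' := by
  induction hδ using Subgroup.closure_induction with
  | mem x hx =>
    obtain ⟨g, hg, x, hx, rfl⟩ := hx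
    apply Subgroup.subset_closure
    exact ⟨γ * g, (GN m N).mul_mem hγ hg, x, hx, by group⟩
  | one => simp
  | mul x y _ _ hx hy =>
    have : γ * (x * y) * γ⁻¹ = (γ * x * γ⁻¹) * (γ * y * γ⁻¹) := by group
    rw [this]; exact (Rg m N N').mul_mem hx hy
  | inv x _ hx =>
    have : γ * x⁻¹ * γ⁻¹ = (γ * x * γ⁻¹)⁻¹ := by group
    rw [this]; exact (Rg m N N').inv_mem hx

theorem Rg_le {m N N' : ℕ} (hN : 1 ≤ N) : Rg m N N' ≤ G m := by
  rw [Rg, Subgroup.closure_le]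
  rintro h ⟨g, hg, x, hx, rfl⟩
  have hg' := GN_le hN hg
  exact (G m).mul_mem ((G m).mul_mem hg' (u_mem_G ((A m).mul_mem (natA m N') hx))) ((G m).inv_mem hg')

theorem Rg_pow_conj {m N N' : ℕ} {γ δ : SL2} (hγ : γ ∈ GN m N) (hδ : δ ∈ Rg m N N') (n : ℕ) :
    γ ^ n * δ * (γ ^ n)⁻¹ ∈ Rg m N N' := Rg_conj ((GN m N).pow_mem hγ n) hδ

theorem Rg_rec {m N N' : ℕ} (hN : 1 ≤ N) (hNm : Nat.Coprime N m) : Rec (G m) (Rg m N N') := by
  intro γ hγ δ hδ n₀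
  obtain ⟨j, hj, hjK⟩ := exists_pow_mem (GN_relIndex hN hNm) hγ
  refine ⟨j * n₀, Nat.le_mul_of_pos_left n₀ hj, ?_⟩
  rw [pow_mul]
  exact Rg_pow_conj hjK hδ n₀

theorem Rg_nonCentral {m N N' : ℕ} (hN' : 0 < N') : NonCentral (Rg m N N') := by
  refine ⟨u N', ?_, ?_⟩
  · apply Subgroup.subset_closure
    exact ⟨1, (GN m N).one_mem, 1, (A m).one_mem, by simp⟩
  · rintro ⟨h, -, -⟩
    rw [u_01] at h
    have : (N' : ℚ) ≠ 0 := by exact_mod_cast hN'.ne'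
    exact this h

/-- Step 3: `R` contains `E*(N'')`. -/
theorem Es_le_Rg {m N N' : ℕ} (hm : 2 ≤ m) (hN : 1 ≤ N) (hNm : Nat.Coprime N m) (hN' : 0 < N') :
    ∃ N'' : ℕ, 2 ≤ N'' ∧ Nat.Coprime N'' m ∧ Es m N'' ≤ Rg m N N' := by
  classical
  have h1 := step1 hm (Rg_le hN) (Rg_rec hN hNm) (Rg_nonCentral (m := m) (N := N) hN')
  have hfin : Finite ((G m) ⧸ (GN m N).subgroupOf (G m)) := by
    have : ((GN m N).subgroupOf (G m)).FiniteIndex := ⟨GN_relIndex hN hNm⟩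
    infer_instance
  have := Fintype.ofFinite ((G m) ⧸ (GN m N).subgroupOf (G m))
  -- choose levels for the representatives
  choose c hc0 hcm hc using fun q : (G m) ⧸ (GN m N).subgroupOf (G m) =>
    h1 ((q.out : G m) : SL2) (q.out : G m).2
  obtain ⟨r, hr2, hrm⟩ : ∃ r : ℕ, 2 ≤ r ∧ Nat.Coprime r m := ⟨m + 1, by omega, by simp⟩
  refine ⟨r * ∏ q, c q, ?_, ?_, ?_⟩
  · have : 0 < ∏ q, c q := Finset.prod_pos fun q _ => hc0 q
    nlinarith
  · exact Nat.Coprime.mul_left hrm (Nat.Coprime.prod_left fun q _ => hcm q)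
  · rw [Es, Subgroup.closure_le]
    rintro h ⟨g, hg, x, hx, rfl⟩
    -- `g = γ g₀` with `γ ∈ Γ(N)`
    set q : (G m) ⧸ (GN m N).subgroupOf (G m) := QuotientGroup.mk (⟨g, hg⟩ : G m) with hq
    have hmem : ((q.out : G m) : SL2)⁻¹ * g ∈ GN m N := by
      have : (QuotientGroup.mk (q.out : G m) : (G m) ⧸ (GN m N).subgroupOf (G m))
        = QuotientGroup.mk (⟨g, hg⟩ : G m) := by rw [QuotientGroup.out_eq']
      rw [QuotientGroup.eq, Subgroup.mem_subgroupOf] at this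
      exact this
    set g₀ : SL2 := ((q.out : G m) : SL2) with hg₀
    have hg₀G : g₀ ∈ G m := (q.out : G m).2
    have hγ : g₀ * (g₀⁻¹ * g) * g₀⁻¹ ∈ GN m N := GN_conj hN hg₀G hmem
    have hdiv : ∏ q, c q = c q * ∏ q' ∈ Finset.univ.erase q, c q' :=
      (Finset.mul_prod_erase _ _ (Finset.mem_univ q)).symm
    have key : g₀ * u (((r * ∏ q, c q : ℕ) : ℚ) * x) * g₀⁻¹ ∈ Rg m N N' := by
      have e : (((r * ∏ q, c q : ℕ) : ℚ) * x) = (c q : ℚ) * (((r * ∏ q' ∈ Finset.univ.erase q, c q' : ℕ) : ℚ) * x) := by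
        rw [hdiv]; push_cast; ring
      rw [e]
      exact hc q _ ((A m).mul_mem (natA m _) hx)
    have := Rg_conj hγ key
    have e2 : g₀ * (g₀⁻¹ * g) * g₀⁻¹ * (g₀ * u (((r * ∏ q, c q : ℕ) : ℚ) * x) * g₀⁻¹) *
        (g₀ * (g₀⁻¹ * g) * g₀⁻¹)⁻¹ = g * u (((r * ∏ q, c q : ℕ) : ℚ) * x) * g⁻¹ := by group
    rw [e2] at this
    exact this

/-- The Weyl element. -/
def w : SL2 := mk4 0 (-1) 1 0 (by ring)

theorem w_mem {m : ℕ} : w ∈ G m := by
  apply mem_G4 <;> simp [w, (A m).zero_mem, (A m).one_mem]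

theorem w_conj (x : ℚ) : w * u x * w⁻¹ = v (-x) := by
  apply ext4 <;> simp [mul_app, inv00, inv01, inv10, inv11, w]

/-- Main theorem for subgroups of `SL₂(ℤ[1/m])`. -/
theorem main_G {m : ℕ} (hm : 2 ≤ m) {D : Subgroup SL2} (hD : D ≤ G m) (hrec : Rec (G m) D)
    (hnc : NonCentral D) : D.relIndex (G m) ≠ 0 := by
  have h1 := step1 hm hD hrec hnc
  obtain ⟨c₁, hc₁, hc₁m, h₁⟩ := h1 1 (G m).one_mem
  obtain ⟨c₂, hc₂, hc₂m, h₂⟩ := h1 w w_mem
  obtain ⟨r, hr2, hrm⟩ : ∃ r : ℕ, 2 ≤ r ∧ Nat.Coprime r m := ⟨m + 1, by omega, by simp⟩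
  set N := r * (c₁ * c₂) with hNdef
  have hN : 2 ≤ N := by
    have : 0 < c₁ * c₂ := Nat.mul_pos hc₁ hc₂
    nlinarith
  have hNm : Nat.Coprime N m := Nat.Coprime.mul_left hrm (Nat.Coprime.mul_left hc₁m hc₂m)
  have hE : E m N ≤ D := by
    rw [E, Subgroup.closure_le]
    rintro h (⟨x, hx, rfl⟩ | ⟨x, hx, rfl⟩)
    · have := h₁ ((r * c₂ : ℕ) * x) ((A m).mul_mem (natA m _) hx)
      have e : (c₁ : ℚ) * ((r * c₂ : ℕ) * x) = N * x := by rw [hNdef]; push_cast; ring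
      rw [e] at this
      simpa using this
    · have := h₂ (-((r * c₁ : ℕ) * x)) ((A m).neg_mem ((A m).mul_mem (natA m _) hx))
      have e : (c₂ : ℚ) * (-((r * c₁ : ℕ) * x)) = -(N * x) := by rw [hNdef]; push_cast; ring
      rw [e, w_conj, neg_neg] at this
      exact this
  obtain ⟨N', hN'0, -, h2⟩ := step2 hm hN hNm
  have hR : Rg m N N' ≤ E m N := by
    rw [Rg, Subgroup.closure_le]
    rintro h ⟨g, hg, x, hx, rfl⟩
    exact h2 g hg x hx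
  obtain ⟨N'', hN''2, hN''m, h3⟩ := Es_le_Rg hm (by omega : 1 ≤ N) hNm hN'0
  have h4 := step4 hm hN''2 hN''m
  have hle : Es m N'' ≤ D := h3.trans (hR.trans hE)
  intro h0
  exact h4 (Nat.eq_zero_of_zero_dvd (h0 ▸ Subgroup.relIndex_dvd_of_le_left _ hle))

/-! ### Boomerang subgroups -/

open Classical in
/-- The point of `{0,1}^Γ` given by a subgroup. -/
noncomputable def ind {Γ : Type*} [Group Γ] (D : Subgroup Γ) : Γ → Bool := fun x => decide (x ∈ D)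

/-- `D` is a boomerang subgroup of the (discrete) group `Γ`: for every `γ` there are positive
integers `n₀ < n₁ < ⋯` with `γ^{nᵢ} D γ^{-nᵢ} → D` in `Sub(Γ) ⊆ {0,1}^Γ` (product topology). -/
def IsBoomerang {Γ : Type*} [Group Γ] (D : Subgroup Γ) : Prop :=
  ∀ γ : Γ, ∃ n : ℕ → ℕ, StrictMono n ∧ (∀ i, 0 < n i) ∧
    Filter.Tendsto (fun i => ind (D.map (MulAut.conj (γ ^ n i)).toMonoidHom)) Filter.atTop
      (nhds (ind D))

theorem IsBoomerang.rec {Γ : Type*} [Group Γ] {D : Subgroup Γ} (h : IsBoomerang D) (γ : Γ)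
    {δ : Γ} (hδ : δ ∈ D) (n₀ : ℕ) : ∃ n ≥ n₀, γ ^ n * δ * (γ ^ n)⁻¹ ∈ D := by
  classical
  obtain ⟨n, hn, -, ht⟩ := h γ⁻¹
  rw [tendsto_pi_nhds] at ht
  have h1 := ht δ
  have h2 : ∀ᶠ i in Filter.atTop, ind (D.map (MulAut.conj (γ⁻¹ ^ n i)).toMonoidHom) δ = ind D δ := by
    rwa [nhds_discrete, Filter.tendsto_pure] at h1
  obtain ⟨i, hi, hi'⟩ := (h2.and (Filter.eventually_ge_atTop n₀)).exists
  refine ⟨n i, hi'.trans (hn.id_le i), ?_⟩
  have h3 : ind D δ = true := by simp [ind, hδ]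
  rw [h3] at hi
  simp only [ind, decide_eq_true_eq, Subgroup.mem_map] at hi
  obtain ⟨x, hx, hx'⟩ := hi
  have : γ ^ n i * δ * (γ ^ n i)⁻¹ = x := by
    change (MulAut.conj (γ⁻¹ ^ n i)) x = δ at hx'
    rw [MulAut.conj_apply] at hx'
    rw [← hx', inv_pow]
    group
  rw [this]; exact hx


theorem eq_pm_one {δ : SL2} (h01 : δ 0 1 = 0) (h10 : δ 1 0 = 0) (h00 : δ 0 0 = δ 1 1) :
    δ = 1 ∨ δ = -1 := by
  have hd := det_eq δ
  rw [h01, ← h00] at hd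
  have : (δ 0 0 - 1) * (δ 0 0 + 1) = 0 := by linear_combination hd
  rcases mul_eq_zero.1 this with h | h
  · left
    apply ext4
    · rw [one_app, if_pos rfl]; linarith
    · rw [one_app, if_neg (by decide)]; exact h01
    · rw [one_app, if_neg (by decide)]; exact h10
    · rw [one_app, if_pos rfl]; linarith
  · right
    have e : ∀ i j : Fin 2, (-1 : SL2) i j = - ((1 : SL2) i j) := by
      intro i j; simp
    apply ext4
    · rw [e, one_app, if_pos rfl]; linarith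
    · rw [e, one_app, if_neg (by decide)]; simpa using h01
    · rw [e, one_app, if_neg (by decide)]; simpa using h10
    · rw [e, one_app, if_pos rfl]; linarith

/-- Every boomerang subgroup of a subgroup `Γ` of `SL₂(ℚ)` commensurable with `SL₂(ℤ[1/m])` is of
finite index or contained in `{1, -1}`. -/
theorem main {m : ℕ} (hm : 2 ≤ m) (Γ : Subgroup SL2) (h₁ : (G m).relIndex Γ ≠ 0)
    (h₂ : Γ.relIndex (G m) ≠ 0) (D : Subgroup Γ) (hD : IsBoomerang D) :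
    D.FiniteIndex ∨ ∀ δ ∈ D, (δ : SL2) = 1 ∨ (δ : SL2) = -1 := by
  classical
  set D₁ : Subgroup SL2 := D.map Γ.subtype with hD₁
  have hD₁Γ : D₁ ≤ Γ := by
    rw [hD₁]; exact Subgroup.map_subtype_le D
  -- recurrence for elements of Γ
  have hrec₁ : ∀ γ ∈ Γ, ∀ δ ∈ D₁, ∀ n₀ : ℕ, ∃ n ≥ n₀, γ ^ n * δ * (γ ^ n)⁻¹ ∈ D₁ := by
    intro γ hγ δ hδ n₀
    obtain ⟨δ', hδ', rfl⟩ := hδ
    obtain ⟨n, hn, h⟩ := hD.rec (⟨γ, hγ⟩ : Γ) hδ' n₀
    exact ⟨n, hn, _, h, by simp⟩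
  have hrec₂ : Rec (G m) (D₁ ⊓ G m) := by
    intro γ hγ δ hδ n₀
    obtain ⟨j, hj, hjΓ⟩ := exists_pow_mem h₂ hγ
    obtain ⟨n, hn, h⟩ := hrec₁ _ hjΓ δ hδ.1 n₀
    refine ⟨j * n, hn.le.trans (Nat.le_mul_of_pos_left n hj), ?_⟩
    rw [pow_mul]
    refine ⟨h, ?_⟩
    exact (G m).mul_mem ((G m).mul_mem ((G m).pow_mem ((G m).pow_mem hγ _) _) hδ.2)
      ((G m).inv_mem ((G m).pow_mem ((G m).pow_mem hγ _) _))
  by_cases hnc : NonCentral (D₁ ⊓ G m)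
  · left
    have h3 := main_G hm inf_le_right hrec₂ hnc
    have h4 : (D₁ ⊓ G m).relIndex Γ ≠ 0 := by
      have h5 : (D₁ ⊓ G m).relIndex Γ ≠ 0 := by
        have := Subgroup.relIndex_ne_zero_trans h3 h₁
        exact this
      exact h5
    have h6 : D₁.relIndex Γ ≠ 0 := by
      intro h0
      exact h4 (Nat.eq_zero_of_zero_dvd (h0 ▸ Subgroup.relIndex_dvd_of_le_left _ inf_le_left))
    refine ⟨?_⟩
    have : D₁.subgroupOf Γ = D := by
      rw [hD₁]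
      exact Subgroup.comap_map_eq_self_of_injective Γ.subtype_injective D
    rw [Subgroup.relIndex, this] at h6
    exact h6
  · right
    -- every element of `D₁ ⊓ G m` is `±1`
    have hpm : ∀ δ ∈ D₁ ⊓ G m, δ = 1 ∨ δ = -1 := by
      intro δ hδ
      by_contra hcon
      apply hnc
      refine ⟨δ, hδ, ?_⟩
      rintro ⟨h01, h10, h00⟩
      exact hcon (eq_pm_one h01 h10 h00)
    have hfinD : Finite D₁ := by
      have h7 : (G m).relIndex D₁ ≠ 0 := fun h => h₁ (Subgroup.relIndex_eq_zero_of_le_right hD₁Γ h)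
      have hfi : ((G m).subgroupOf D₁).FiniteIndex := ⟨h7⟩
      have hsub : Finite ((G m).subgroupOf D₁) := by
        have hfin2 : Set.Finite ({1, -1} : Set SL2) := by simp
        have := hfin2.to_subtype
        refine Finite.of_injective (fun x : (G m).subgroupOf D₁ =>
          (⟨((x : D₁) : SL2), ?_⟩ : ({1, -1} : Set SL2))) ?_
        · have := hpm ((x : D₁) : SL2) ⟨(x : D₁).2, x.2⟩
          simpa using this
        · intro x y hxy
          apply Subtype.ext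
          apply Subtype.ext
          exact congrArg (fun z : ({1, -1} : Set SL2) => (z : SL2)) hxy
      exact Finite.of_subgroup_quotient ((G m).subgroupOf D₁)
    have hcomm : ∀ γ ∈ Γ, ∀ δ ∈ D₁, ∃ k : ℕ, 0 < k ∧ γ ^ k * δ = δ * γ ^ k := by
      intro γ hγ δ hδ
      have hinf : Set.Infinite {n : ℕ | γ ^ n * δ * (γ ^ n)⁻¹ ∈ D₁} := by
        apply Set.infinite_of_forall_exists_gt
        intro n₀
        obtain ⟨n, hn, h⟩ := hrec₁ γ hγ δ hδ (n₀ + 1)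
        exact ⟨n, h, by omega⟩
      have := hinf.to_subtype
      obtain ⟨x, y, hxy, hf⟩ := Finite.exists_ne_map_eq_of_infinite
        (fun n : {n : ℕ | γ ^ n * δ * (γ ^ n)⁻¹ ∈ D₁} => (⟨γ ^ (n : ℕ) * δ * (γ ^ (n : ℕ))⁻¹, n.2⟩ : D₁))
      have hf' : γ ^ (x : ℕ) * δ * (γ ^ (x : ℕ))⁻¹ = γ ^ (y : ℕ) * δ * (γ ^ (y : ℕ))⁻¹ :=
        congrArg (fun z : D₁ => (z : SL2)) hf
      have aux : ∀ a b : ℕ, a < b → γ ^ a * δ * (γ ^ a)⁻¹ = γ ^ b * δ * (γ ^ b)⁻¹ →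
          ∃ k : ℕ, 0 < k ∧ γ ^ k * δ = δ * γ ^ k := by
        intro a b hab h
        refine ⟨b - a, by omega, ?_⟩
        have hb : γ ^ b = γ ^ a * γ ^ (b - a) := by rw [← pow_add]; congr 1; omega
        rw [hb] at h
        have h8 : (γ ^ a)⁻¹ * (γ ^ a * δ * (γ ^ a)⁻¹) * (γ ^ a * γ ^ (b - a))
            = (γ ^ a)⁻¹ * (γ ^ a * γ ^ (b - a) * δ * (γ ^ a * γ ^ (b - a))⁻¹) * (γ ^ a * γ ^ (b - a)) := by
          rw [h]
        have h9 : (γ ^ a)⁻¹ * (γ ^ a * δ * (γ ^ a)⁻¹) * (γ ^ a * γ ^ (b - a)) = δ * γ ^ (b - a) := by group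
        have h10 : (γ ^ a)⁻¹ * (γ ^ a * γ ^ (b - a) * δ * (γ ^ a * γ ^ (b - a))⁻¹) * (γ ^ a * γ ^ (b - a))
            = γ ^ (b - a) * δ := by group
        rw [h9, h10] at h8
        exact h8.symm
      rcases lt_or_gt_of_ne (fun h => hxy (Subtype.ext h) : (x : ℕ) ≠ y) with h | h
      · exact aux _ _ h hf'
      · exact aux _ _ h hf'.symm
    have h1G : ∀ x ∈ A m, u x ∈ G m := fun x hx => u_mem_G hx
    obtain ⟨j₁, hj₁, hu⟩ := exists_pow_mem h₂ (u_mem_G (m := m) (A m).one_mem)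
    obtain ⟨j₂, hj₂, hv⟩ := exists_pow_mem h₂ (v_mem_G (m := m) (A m).one_mem)
    intro δ hδ
    have hδ₁ : (δ : SL2) ∈ D₁ := ⟨δ, hδ, rfl⟩
    obtain ⟨k₁, hk₁, hc₁⟩ := hcomm _ hu _ hδ₁
    obtain ⟨k₂, hk₂, hc₂⟩ := hcomm _ hv _ hδ₁
    rw [← pow_mul, u_pow, mul_one] at hc₁
    rw [← pow_mul, v_pow, mul_one] at hc₂
    have hj : ((j₁ * k₁ : ℕ) : ℚ) ≠ 0 := by
      have : 0 < j₁ * k₁ := Nat.mul_pos hj₁ hk₁
      exact_mod_cast this.ne'
    have hj' : ((j₂ * k₂ : ℕ) : ℚ) ≠ 0 := by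
      have : 0 < j₂ * k₂ := Nat.mul_pos hj₂ hk₂
      exact_mod_cast this.ne'
    have e1 := congrArg (fun z : SL2 => z 0 0) hc₁
    have e2 := congrArg (fun z : SL2 => z 0 0) hc₂
    have e3 := congrArg (fun z : SL2 => z 0 1) hc₁
    simp only [mul_app, u_00, u_01, u_10, u_11, v_00, v_01, v_10, v_11] at e1 e2 e3
    have h10 : (δ : SL2) 1 0 = 0 := by
      have : ((j₁ * k₁ : ℕ) : ℚ) * (δ : SL2) 1 0 = 0 := by linarith
      exact (mul_eq_zero.1 this).resolve_left hj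
    have h01 : (δ : SL2) 0 1 = 0 := by
      have : ((j₂ * k₂ : ℕ) : ℚ) * (δ : SL2) 0 1 = 0 := by linarith
      exact (mul_eq_zero.1 this).resolve_left hj'
    have h00 : (δ : SL2) 0 0 = (δ : SL2) 1 1 := by
      have : ((j₁ * k₁ : ℕ) : ℚ) * ((δ : SL2) 0 0 - (δ : SL2) 1 1) = 0 := by linarith
      have := (mul_eq_zero.1 this).resolve_left hj
      linarith
    exact eq_pm_one h01 h10 h00

end Boom4c
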