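import Pool.Agent.H.MP_4c7af0_al.Basic

/-! `Γ(N)` is a normal subgroup of finite index of `SL₂(ℤ[1/m])` (N prime to m). -/

namespace Boom4c

open Matrix

theorem natA (m n : ℕ) : (n : ℚ) ∈ A m := natCast_mem (A m) n
theorem intA (m : ℕ) (n : ℤ) : (n : ℚ) ∈ A m := intCast_mem (A m) n

/-- `m⁻¹ ∈ ℤ[1/m]` -/
theorem inv_m_mem {m : ℕ} : ((m : ℚ))⁻¹ ∈ A m := by
  rcases Nat.eq_zero_or_pos m with h | h
  · subst h; simp [(A 0).zero_mem]
  · refine ⟨1, 1, ?_⟩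
    have : (m : ℚ) ≠ 0 := by exact_mod_cast h.ne'
    rw [pow_one, inv_mul_cancel₀ this]; norm_num

theorem zpow_m_mem {m : ℕ} (k : ℤ) : ((m : ℚ)) ^ k ∈ A m := by
  rcases k with k | k
  · rw [Int.ofNat_eq_natCast, zpow_natCast]; exact (A m).pow_mem (natA m m) k
  · rw [zpow_negSucc, ← inv_pow]; exact (A m).pow_mem inv_m_mem _

/-- every element of `ℤ[1/m]` is congruent to an integer in `[0, N)` modulo `N`. -/
theorem exists_residue {m N : ℕ} (hN : 1 ≤ N) (hNm : Nat.Coprime N m) {x : ℚ} (hx : x ∈ A m) :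
    ∃ r : Fin N, (x - (r : ℕ)) / N ∈ A m := by
  obtain ⟨k, z, h⟩ := hx
  have hco : IsCoprime (N : ℤ) ((m : ℤ) ^ k) := by
    apply IsCoprime.pow_right
    exact Nat.isCoprime_iff_coprime.2 hNm
  obtain ⟨e, c, hec⟩ := hco
  have hNz : (N : ℤ) ≠ 0 := by exact_mod_cast (by omega : N ≠ 0)
  have hNq : (N : ℚ) ≠ 0 := by exact_mod_cast (by omega : N ≠ 0)
  have hr0 : 0 ≤ (z * c) % (N : ℤ) := Int.emod_nonneg _ hNz
  have hr1 : (z * c) % (N : ℤ) < N := Int.emod_lt_of_pos _ (by exact_mod_cast (by omega : 0 < N))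
  obtain ⟨r, hr⟩ := Int.eq_ofNat_of_zero_le hr0
  refine ⟨⟨r, by omega⟩, k, e * z + (z * c / (N : ℤ)) * (m : ℤ) ^ k, ?_⟩
  have h1 : z * c = r + N * (z * c / (N : ℤ)) := by
    rw [← hr]; exact (Int.emod_add_mul_ediv _ _).symm
  have h1' : (z : ℚ) * c = r + N * ((z * c / (N : ℤ) : ℤ) : ℚ) := by exact_mod_cast h1
  have h2' : (e : ℚ) * N + c * (m : ℚ) ^ k = 1 := by exact_mod_cast hec
  push_cast
  field_simp
  have : x * (m : ℚ) ^ k - r * (m : ℚ) ^ k = (z : ℚ) * 1 - r * (m : ℚ) ^ k := by rw [h]; ring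
  rw [sub_mul, this, ← h2']
  have h3 : (z : ℚ) * c * (m : ℚ) ^ k = (r + N * ((z * c / (N : ℤ) : ℤ) : ℚ)) * (m : ℚ) ^ k := by
    rw [h1']

  linear_combination h3

theorem GN_le {m N : ℕ} (hN : 1 ≤ N) : GN m N ≤ G m := by
  rintro g ⟨h0, h1, h2, h3⟩
  have hNq : (N : ℚ) ≠ 0 := by exact_mod_cast (by omega : N ≠ 0)
  have hNm := natA m N
  apply mem_G4
  · have : g 0 0 = N * ((g 0 0 - 1) / N) + 1 := by field_simp; ring
    rw [this]; exact (A m).add_mem ((A m).mul_mem hNm h0) (A m).one_mem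
  · have : g 0 1 = N * (g 0 1 / N) := by field_simp
    rw [this]; exact (A m).mul_mem hNm h1
  · have : g 1 0 = N * (g 1 0 / N) := by field_simp
    rw [this]; exact (A m).mul_mem hNm h2
  · have : g 1 1 = N * ((g 1 1 - 1) / N) + 1 := by field_simp; ring
    rw [this]; exact (A m).add_mem ((A m).mul_mem hNm h3) (A m).one_mem

/-- If all entries of `a, b ∈ SL₂(ℤ[1/m])` are congruent mod `N` then `a⁻¹ b ∈ Γ(N)`. -/
theorem inv_mul_mem_GN {m N : ℕ} (hN : 1 ≤ N) {a b : SL2} (ha : a ∈ G m)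
    (hab : ∀ i j, (b i j - a i j) / N ∈ A m) : a⁻¹ * b ∈ GN m N := by
  have hNq : (N : ℚ) ≠ 0 := by exact_mod_cast (by omega : N ≠ 0)
  have hd := det_eq a
  refine ⟨?_, ?_, ?_, ?_⟩
  · have : ((a⁻¹ * b) 0 0 - 1) / N = a 1 1 * ((b 0 0 - a 0 0) / N) + (- a 0 1) * ((b 1 0 - a 1 0) / N) := by
      rw [mul_app, inv00, inv01]; field_simp; linear_combination hd
    rw [this]
    exact (A m).add_mem ((A m).mul_mem (ha _ _) (hab _ _)) ((A m).mul_mem ((A m).neg_mem (ha _ _)) (hab _ _))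
  · have : ((a⁻¹ * b) 0 1) / N = a 1 1 * ((b 0 1 - a 0 1) / N) + (- a 0 1) * ((b 1 1 - a 1 1) / N) := by
      rw [mul_app, inv00, inv01]; field_simp; ring
    rw [this]
    exact (A m).add_mem ((A m).mul_mem (ha _ _) (hab _ _)) ((A m).mul_mem ((A m).neg_mem (ha _ _)) (hab _ _))
  · have : ((a⁻¹ * b) 1 0) / N = (-a 1 0) * ((b 0 0 - a 0 0) / N) + (a 0 0) * ((b 1 0 - a 1 0) / N) := by
      rw [mul_app, inv10, inv11]; field_simp; ring
    rw [this]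
    exact (A m).add_mem ((A m).mul_mem ((A m).neg_mem (ha _ _)) (hab _ _)) ((A m).mul_mem (ha _ _) (hab _ _))
  · have : ((a⁻¹ * b) 1 1 - 1) / N = (-a 1 0) * ((b 0 1 - a 0 1) / N) + (a 0 0) * ((b 1 1 - a 1 1) / N) := by
      rw [mul_app, inv10, inv11]; field_simp; linear_combination hd
    rw [this]
    exact (A m).add_mem ((A m).mul_mem ((A m).neg_mem (ha _ _)) (hab _ _)) ((A m).mul_mem (ha _ _) (hab _ _))

/-- `Γ(N)` has finite index in `SL₂(ℤ[1/m])`. -/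
theorem GN_relIndex {m N : ℕ} (hN : 1 ≤ N) (hNm : Nat.Coprime N m) :
    (GN m N).relIndex (G m) ≠ 0 := by
  classical
  have hres : ∀ g : G m, ∃ r : Fin 2 → Fin 2 → Fin N, ∀ i j, (((g : SL2) i j) - (r i j : ℕ)) / N ∈ A m := by
    intro g
    choose r hr using fun i j => exists_residue hN hNm (g.2 i j)
    exact ⟨r, hr⟩
  choose φ hφ using hres
  have hfin : Finite ((G m) ⧸ (GN m N).subgroupOf (G m)) := by
    refine Finite.of_injective (fun q : (G m) ⧸ (GN m N).subgroupOf (G m) => φ q.out) ?_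
    intro q q' h
    simp only at h
    rw [← q.out_eq', ← q'.out_eq']
    apply QuotientGroup.eq.2
    rw [Subgroup.mem_subgroupOf]
    change ((q.out : G m) : SL2)⁻¹ * ((q'.out : G m) : SL2) ∈ GN m N
    apply inv_mul_mem_GN hN (q.out : G m).2
    intro i j
    have h1 := hφ q.out i j
    have h2 := hφ q'.out i j
    rw [← h] at h2
    have : ((((q'.out : G m) : SL2) i j) - (((q.out : G m) : SL2) i j)) / N
        = ((((q'.out : G m) : SL2) i j) - (φ q.out i j : ℕ)) / N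
          - ((((q.out : G m) : SL2) i j) - (φ q.out i j : ℕ)) / N := by ring
    rw [this]
    exact (A m).sub_mem h2 h1
  rw [Subgroup.relIndex]
  exact Subgroup.index_ne_zero_of_finite

/-- `Γ(N)` is normalised by `SL₂(ℤ[1/m])`. -/
theorem GN_conj {m N : ℕ} (hN : 1 ≤ N) {g h : SL2} (hg : g ∈ G m) (hh : h ∈ GN m N) :
    g * h * g⁻¹ ∈ GN m N := by
  have hNq : (N : ℚ) ≠ 0 := by exact_mod_cast (by omega : N ≠ 0)
  -- `g h g⁻¹ = (g⁻¹)⁻¹ * (h g⁻¹)`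
  have e : g * h * g⁻¹ = (g⁻¹)⁻¹ * (h * g⁻¹) := by group
  rw [e]
  have hgi : g⁻¹ ∈ G m := (G m).inv_mem hg
  apply inv_mul_mem_GN hN hgi
  obtain ⟨h0, h1, h2, h3⟩ := hh
  intro i j
  rw [mul_app]
  fin_cases i
  · have : ((h : SL2) 0 0 * (g⁻¹ : SL2) 0 j + (h : SL2) 0 1 * (g⁻¹ : SL2) 1 j - (g⁻¹ : SL2) 0 j) / N
        = (h 0 0 - 1) / N * (g⁻¹ : SL2) 0 j + h 0 1 / N * (g⁻¹ : SL2) 1 j := by
      field_simp; ring
    change ((h : SL2) 0 0 * (g⁻¹ : SL2) 0 j + (h : SL2) 0 1 * (g⁻¹ : SL2) 1 j - (g⁻¹ : SL2) 0 j) / N ∈ A m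
    rw [this]
    exact (A m).add_mem ((A m).mul_mem h0 (hgi _ _)) ((A m).mul_mem h1 (hgi _ _))
  · have : ((h : SL2) 1 0 * (g⁻¹ : SL2) 0 j + (h : SL2) 1 1 * (g⁻¹ : SL2) 1 j - (g⁻¹ : SL2) 1 j) / N
        = h 1 0 / N * (g⁻¹ : SL2) 0 j + (h 1 1 - 1) / N * (g⁻¹ : SL2) 1 j := by
      field_simp; ring
    change ((h : SL2) 1 0 * (g⁻¹ : SL2) 0 j + (h : SL2) 1 1 * (g⁻¹ : SL2) 1 j - (g⁻¹ : SL2) 1 j) / N ∈ A m
    rw [this]
    exact (A m).add_mem ((A m).mul_mem h2 (hgi _ _)) ((A m).mul_mem h3 (hgi _ _))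

theorem u_mul (x y : ℚ) : u x * u y = u (x + y) := by
  apply ext4 <;> simp only [mul_app, u_00, u_01, u_10, u_11] <;> ring

theorem v_mul (x y : ℚ) : v x * v y = v (x + y) := by
  apply ext4 <;> simp only [mul_app, v_00, v_01, v_10, v_11] <;> ring

theorem u_zero : u 0 = 1 := by
  apply ext4 <;> simp

theorem v_zero : v 0 = 1 := by
  apply ext4 <;> simp

theorem u_inv (x : ℚ) : (u x)⁻¹ = u (-x) := by
  rw [inv_eq_iff_mul_eq_one, u_mul, add_neg_cancel, u_zero]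

theorem v_inv (x : ℚ) : (v x)⁻¹ = v (-x) := by
  rw [inv_eq_iff_mul_eq_one, v_mul, add_neg_cancel, v_zero]

theorem u_pow (x : ℚ) (n : ℕ) : (u x) ^ n = u (n * x) := by
  induction n with
  | zero => simp [u_zero]
  | succ n ih => rw [pow_succ, ih, u_mul]; congr 1; push_cast; ring

theorem v_pow (x : ℚ) (n : ℕ) : (v x) ^ n = v (n * x) := by
  induction n with
  | zero => simp [v_zero]
  | succ n ih => rw [pow_succ, ih, v_mul]; congr 1; push_cast; ring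

theorem u_mem_G {m : ℕ} {x : ℚ} (hx : x ∈ A m) : u x ∈ G m := by
  apply mem_G4 <;> simp [hx, (A m).zero_mem, (A m).one_mem]

theorem v_mem_G {m : ℕ} {x : ℚ} (hx : x ∈ A m) : v x ∈ G m := by
  apply mem_G4 <;> simp [hx, (A m).zero_mem, (A m).one_mem]

theorem dg_mem_G {m : ℕ} {e : ℚ} (he : e ∈ A m) (he' : e⁻¹ ∈ A m) : dg e ∈ G m := by
  by_cases h : e = 0
  · rw [dg, dif_pos h]; exact (G m).one_mem
  · apply mem_G4
    · rw [dg_00 h]; exact he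
    · rw [dg_01 h]; exact (A m).zero_mem
    · rw [dg_10 h]; exact (A m).zero_mem
    · rw [dg_11 h]; exact he'

theorem u_mem_GN {m N : ℕ} {x : ℚ} (hx : x / N ∈ A m) : u x ∈ GN m N := by
  refine ⟨?_, ?_, ?_, ?_⟩ <;> simp [hx, (A m).zero_mem]

theorem v_mem_GN {m N : ℕ} {x : ℚ} (hx : x / N ∈ A m) : v x ∈ GN m N := by
  refine ⟨?_, ?_, ?_, ?_⟩ <;> simp [hx, (A m).zero_mem]

end Boom4c
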