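import Mathlib
import Pool.Agent.H.MP_4c7af0_al.Basic

/-! Step 1 for MP_4c7af0_al: a non-central subgroup of `SL₂(ℤ[1/m])` with weak recurrence contains a
nonzero ideal of unipotents at every cusp. -/

namespace Boom4c

open Matrix

set_option linter.unusedSimpArgs false

/-- `D` has an element that is not a scalar matrix (`±1`). -/
def NonCentral (D : Subgroup SL2) : Prop := ∃ δ ∈ D, ¬ (δ 0 1 = 0 ∧ δ 1 0 = 0 ∧ δ 0 0 = δ 1 1)

namespace S1

/-- conjugate subgroup `g⁻¹ D g`. -/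
def cj (g : SL2) (D : Subgroup SL2) : Subgroup SL2 := D.comap (MulAut.conj g).toMonoidHom

theorem mem_cj {g x : SL2} {D : Subgroup SL2} : x ∈ cj g D ↔ g * x * g⁻¹ ∈ D := by
  unfold cj
  rw [Subgroup.mem_comap]
  simp

theorem intCast_mem_A (m : ℕ) (z : ℤ) : (z : ℚ) ∈ A m := intCast_mem (A m) z

theorem inv_pow_mem_A {m : ℕ} (hm : 2 ≤ m) (k : ℕ) : ((m : ℚ) ^ k)⁻¹ ∈ A m := by
  have h0 : (m : ℚ) ≠ 0 := by positivity
  exact ⟨k, 1, by rw [inv_mul_cancel₀ (pow_ne_zero k h0)]; simp⟩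

theorem u_add (x y : ℚ) : u x * u y = u (x + y) := by
  apply ext4 <;> simp [mul_app, add_comm]

theorem u_zero : u 0 = 1 := by
  apply ext4 <;> simp

theorem u_neg (x : ℚ) : (u x)⁻¹ = u (-x) := by
  rw [inv_eq_iff_mul_eq_one, u_add, add_neg_cancel, u_zero]

theorem u_pow (x : ℚ) (n : ℕ) : u x ^ n = u (n * x) := by
  induction n with
  | zero => simp [u_zero]
  | succ n ih => rw [pow_succ, ih, u_add]; congr 1; push_cast; ring

theorem u_zsmul {D : Subgroup SL2} {x : ℚ} (hx : u x ∈ D) (n : ℤ) : u (n * x) ∈ D := by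
  induction n using Int.induction_on with
  | zero => simpa [u_zero] using D.one_mem
  | succ n ih =>
    have := D.mul_mem ih hx
    rw [u_add] at this
    have e : (((n : ℤ) + 1 : ℤ) : ℚ) * x = ((n : ℤ) : ℚ) * x + x := by push_cast; ring
    rw [e]; exact this
  | pred n ih =>
    have := D.mul_mem ih (D.inv_mem hx)
    rw [u_neg, u_add] at this
    have e : ((-(n : ℤ) - 1 : ℤ) : ℚ) * x = ((-(n : ℤ) : ℤ) : ℚ) * x + -x := by push_cast; ring
    rw [e]; exact this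

theorem v_add (x y : ℚ) : v x * v y = v (x + y) := by
  apply ext4 <;> simp [mul_app, add_comm]

theorem v_zero : v 0 = 1 := by
  apply ext4 <;> simp

theorem v_neg (x : ℚ) : (v x)⁻¹ = v (-x) := by
  rw [inv_eq_iff_mul_eq_one, v_add, add_neg_cancel, v_zero]

theorem u_mem_G {m : ℕ} {x : ℚ} (hx : x ∈ A m) : u x ∈ G m :=
  mem_G4 (by simpa using (A m).one_mem) (by simpa using hx) (by simpa using (A m).zero_mem)
    (by simpa using (A m).one_mem)

theorem v_mem_G {m : ℕ} {x : ℚ} (hx : x ∈ A m) : v x ∈ G m :=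
  mem_G4 (by simpa using (A m).one_mem) (by simpa using (A m).zero_mem) (by simpa using hx)
    (by simpa using (A m).one_mem)

theorem dg_mul {e f : ℚ} (he : e ≠ 0) (hf : f ≠ 0) : dg e * dg f = dg (e * f) := by
  have h := mul_ne_zero he hf
  apply ext4
  · rw [mul_app, dg_00 he, dg_00 hf, dg_01 he, dg_10 hf, dg_00 h]; ring
  · rw [mul_app, dg_00 he, dg_01 hf, dg_01 he, dg_11 hf, dg_01 h]; ring
  · rw [mul_app, dg_10 he, dg_00 hf, dg_11 he, dg_10 hf, dg_10 h]; ring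
  · rw [mul_app, dg_10 he, dg_01 hf, dg_11 he, dg_11 hf, dg_11 h, mul_inv]; ring

theorem dg_one : dg 1 = 1 := by
  apply ext4
  · rw [dg_00 one_ne_zero]; simp
  · rw [dg_01 one_ne_zero]; simp
  · rw [dg_10 one_ne_zero]; simp
  · rw [dg_11 one_ne_zero]; simp

theorem dg_pow {e : ℚ} (he : e ≠ 0) (n : ℕ) : dg e ^ n = dg (e ^ n) := by
  induction n with
  | zero => simp [dg_one]
  | succ n ih => rw [pow_succ, ih, dg_mul (pow_ne_zero n he) he, pow_succ]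

theorem dg_u {e : ℚ} (he : e ≠ 0) (x : ℚ) : dg e * u x * (dg e)⁻¹ = u (e ^ 2 * x) := by
  apply ext4
  · rw [mul_app, mul_app, mul_app, inv00, inv10, dg_00 he, dg_01 he, dg_10 he, dg_11 he]
    simp only [u_00, u_01, u_10, u_11]; field_simp; ring
  · rw [mul_app, mul_app, mul_app, inv01, inv11, dg_00 he, dg_01 he]
    simp only [u_00, u_01, u_10, u_11]; ring
  · rw [mul_app, mul_app, mul_app, inv00, inv10, dg_10 he, dg_11 he]
    simp only [u_00, u_01, u_10, u_11]; ring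
  · rw [mul_app, mul_app, mul_app, inv01, inv11, dg_00 he, dg_01 he, dg_10 he, dg_11 he]
    simp only [u_00, u_01, u_10, u_11]; field_simp; ring

theorem dg_mem_G {m : ℕ} {e : ℚ} (he : e ≠ 0) (h1 : e ∈ A m) (h2 : e⁻¹ ∈ A m) : dg e ∈ G m :=
  mem_G4 (by rw [dg_00 he]; exact h1) (by rw [dg_01 he]; exact (A m).zero_mem)
    (by rw [dg_10 he]; exact (A m).zero_mem) (by rw [dg_11 he]; exact h2)

/-- a nonzero `c ∈ ℤ[1/m]` divides some `m ^ (2k) - 1` with `k ≥ 1`. -/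
theorem exists_unit_sub_one {m : ℕ} (hm : 2 ≤ m) {c : ℚ} (hc : c ∈ A m) (hc0 : c ≠ 0) :
    ∃ k : ℕ, 1 ≤ k ∧ (((m : ℚ) ^ k) ^ 2 - 1) / c ∈ A m := by
  obtain ⟨j, z, hz⟩ := hc
  have h0 : (m : ℚ) ≠ 0 := by positivity
  have hz0 : z ≠ 0 := by
    rintro rfl
    apply hc0
    have : c * (m : ℚ) ^ j = 0 := by simpa using hz
    exact (mul_eq_zero.mp this).resolve_right (pow_ne_zero j h0)
  haveI : NeZero z.natAbs := ⟨by simpa using hz0⟩
  obtain ⟨i, l, hil, heq⟩ := Finite.exists_ne_map_eq_of_infinite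
    (fun k : ℕ => ((m : ZMod z.natAbs)) ^ k)
  -- wlog i < l
  obtain ⟨i, l, hil, heq⟩ : ∃ i l : ℕ, i < l ∧ (m : ZMod z.natAbs) ^ i = (m : ZMod z.natAbs) ^ l := by
    rcases lt_or_gt_of_ne hil with h | h
    · exact ⟨i, l, h, heq⟩
    · exact ⟨l, i, h, heq.symm⟩
  have hdvd : z ∣ (m : ℤ) ^ l - (m : ℤ) ^ i := by
    have h1 : (((m : ℤ) ^ l - (m : ℤ) ^ i : ℤ) : ZMod z.natAbs) = 0 := by
      push_cast
      rw [← heq]; ring
    rw [ZMod.intCast_zmod_eq_zero_iff_dvd] at h1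
    exact Int.natAbs_dvd.mp h1
  obtain ⟨w, hw⟩ := hdvd
  refine ⟨l - i, by omega, ?_⟩
  have hsub : (m : ℚ) ^ l = (m : ℚ) ^ i * (m : ℚ) ^ (l - i) := by
    rw [← pow_add]; congr 1; omega
  have hw' : (m : ℚ) ^ l - (m : ℚ) ^ i = z * w := by exact_mod_cast hw
  have hzq : (z : ℚ) ≠ 0 := by exact_mod_cast hz0
  have hcz : c = z / (m : ℚ) ^ j := by
    rw [← hz]; field_simp
  have key : (((m : ℚ) ^ (l - i)) ^ 2 - 1) / c
      = ((m : ℚ) ^ (l - i) + 1) * (w : ℚ) * (m : ℚ) ^ j * ((m : ℚ) ^ i)⁻¹ := by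
    have h2 : (m : ℚ) ^ i * ((m : ℚ) ^ (l - i) - 1) = z * w := by
      rw [← hw', hsub]; ring
    have hi : (m : ℚ) ^ i ≠ 0 := pow_ne_zero i h0
    have hj : (m : ℚ) ^ j ≠ 0 := pow_ne_zero j h0
    rw [hcz]
    have h3 : (m : ℚ) ^ (l - i) - 1 = z * w / (m : ℚ) ^ i := by
      rw [← h2]; field_simp
    have h4 : ((m : ℚ) ^ (l - i)) ^ 2 - 1 = ((m : ℚ) ^ (l - i) + 1) * ((m : ℚ) ^ (l - i) - 1) := by ring
    rw [h4, h3]
    field_simp
  rw [key]
  have hmA : (m : ℚ) ∈ A m := natCast_mem (A m) m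
  exact (A m).mul_mem ((A m).mul_mem ((A m).mul_mem ((A m).add_mem ((A m).pow_mem hmA _)
    (A m).one_mem) (intCast_mem_A m w)) ((A m).pow_mem hmA _)) (inv_pow_mem_A hm i)

/-- the element fixing `∞` and `x` with eigenvalue `E` at `∞`. -/
theorem conj_dg_pow {E x : ℚ} (hE : E ≠ 0) (n : ℕ) :
    (u x * dg E * (u x)⁻¹) ^ n = u x * dg (E ^ n) * (u x)⁻¹ := by
  rw [conj_pow, dg_pow hE]

theorem cdg_00 {E x : ℚ} (hE : E ≠ 0) : (u x * dg E * (u x)⁻¹) 0 0 = E := by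
  rw [mul_app, mul_app, mul_app, inv00, inv10, dg_00 hE, dg_10 hE]
  simp

theorem cdg_01 {E x : ℚ} (hE : E ≠ 0) : (u x * dg E * (u x)⁻¹) 0 1 = x * (E⁻¹ - E) := by
  rw [mul_app, mul_app, mul_app, inv01, inv11, dg_00 hE, dg_10 hE, dg_01 hE, dg_11 hE]
  simp; ring

theorem cdg_10 {E x : ℚ} (hE : E ≠ 0) : (u x * dg E * (u x)⁻¹) 1 0 = 0 := by
  rw [mul_app, mul_app, mul_app, inv00, inv10, dg_00 hE, dg_10 hE]
  simp

theorem cdg_11 {E x : ℚ} (hE : E ≠ 0) : (u x * dg E * (u x)⁻¹) 1 1 = E⁻¹ := by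
  rw [mul_app, mul_app, mul_app, inv01, inv11, dg_00 hE, dg_10 hE, dg_01 hE, dg_11 hE]
  simp

/-- cusp lemma: an element of `D` moving `∞` yields a nontrivial `u y ∈ D`. -/
theorem exists_u {m : ℕ} (hm : 2 ≤ m) {D : Subgroup SL2} (hD : D ≤ G m) (hrec : Rec (G m) D)
    {δ : SL2} (hδ : δ ∈ D) (hc : δ 1 0 ≠ 0) : ∃ y ∈ A m, y ≠ 0 ∧ u y ∈ D := by
  have hδG := mem_G.mp (hD hδ)
  obtain ⟨k, hk, hkA⟩ := exists_unit_sub_one hm (hδG 1 0) hc
  have h0 : (m : ℚ) ≠ 0 := by positivity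
  have hm1 : (1 : ℚ) < m := by exact_mod_cast (by omega : 1 < m)
  set e : ℚ := (m : ℚ) ^ k with he
  have he0 : e ≠ 0 := pow_ne_zero k h0
  have he1 : 1 < e := one_lt_pow₀ hm1 (by omega)
  have heA : e ∈ A m := (A m).pow_mem (natCast_mem (A m) m) k
  have heiA : e⁻¹ ∈ A m := inv_pow_mem_A hm k
  set x : ℚ := - δ 1 1 / δ 1 0 with hx
  set h : SL2 := u x * dg e * (u x)⁻¹ with hh
  have hhG : h ∈ G m := by
    apply mem_G4
    · rw [hh, cdg_00 he0]; exact heA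
    · rw [hh, cdg_01 he0]
      have : x * (e⁻¹ - e) = δ 1 1 * e⁻¹ * ((e ^ 2 - 1) / δ 1 0) := by
        rw [hx]; field_simp; ring
      rw [this]
      exact (A m).mul_mem ((A m).mul_mem (hδG 1 1) heiA) hkA
    · rw [hh, cdg_10 he0]; exact (A m).zero_mem
    · rw [hh, cdg_11 he0]; exact heiA
  obtain ⟨n, hn, hn2⟩ := hrec h hhG δ hδ 1
  rw [hh, conj_dg_pow he0] at hn2
  set E : ℚ := e ^ n with hE
  have hE0 : E ≠ 0 := pow_ne_zero n he0
  have hE1 : 1 < E := one_lt_pow₀ he1 (by omega)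
  set H : SL2 := u x * dg E * (u x)⁻¹ with hH
  -- f
  have hf : H * δ * H⁻¹ * δ⁻¹ ∈ D := D.mul_mem hn2 (D.inv_mem hδ)
  have H00 : H 0 0 = E := cdg_00 hE0
  have H01 : H 0 1 = x * (E⁻¹ - E) := cdg_01 hE0
  have H10 : H 1 0 = 0 := cdg_10 hE0
  have H11 : H 1 1 = E⁻¹ := cdg_11 hE0
  set f : SL2 := H * δ * H⁻¹ * δ⁻¹ with hfd
  have hdet := det_eq δ
  have f10 : f 1 0 = 0 := by
    rw [hfd]
    simp only [mul_app, inv00, inv01, inv10, inv11, H00, H01, H10, H11, hx]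
    field_simp
    ring
  have f00 : f 0 0 = E ^ 2 := by
    rw [hfd]
    simp only [mul_app, inv00, inv01, inv10, inv11, H00, H01, H10, H11, hx]
    have : δ 0 1 = (δ 0 0 * δ 1 1 - 1) / δ 1 0 := by
      field_simp; linarith
    rw [this]
    field_simp
    ring
  have f11 : f 1 1 = (E ^ 2)⁻¹ := by
    have := det_eq f
    rw [f10, f00] at this
    field_simp
    linarith
  -- commutator with u(n')
  obtain ⟨n', hn', hn2'⟩ := hrec (u 1) (u_mem_G (A m).one_mem) f hf 1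
  rw [u_pow, u_neg] at hn2'
  have hcomm : u (n' * 1) * f * u (-(n' * 1)) * f⁻¹ ∈ D := D.mul_mem hn2' (D.inv_mem hf)
  have hcu : u (n' * 1) * f * u (-(n' * 1)) * f⁻¹ = u (n' * (1 - E ^ 4)) := by
    apply ext4
    · simp only [mul_app, inv00, inv01, inv10, inv11, f10, f00, f11, u_00, u_01, u_10, u_11]
      field_simp; ring
    · simp only [mul_app, inv00, inv01, inv10, inv11, f10, f00, f11, u_00, u_01, u_10, u_11]
      field_simp; ring
    · simp only [mul_app, inv00, inv01, inv10, inv11, f10, f00, f11, u_00, u_01, u_10, u_11]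
      ring
    · simp only [mul_app, inv00, inv01, inv10, inv11, f10, f00, f11, u_00, u_01, u_10, u_11]
      field_simp; ring
  rw [hcu] at hcomm
  refine ⟨n' * (1 - E ^ 4), ?_, ?_, hcomm⟩
  · have hEA : E ∈ A m := (A m).pow_mem heA n
    exact (A m).mul_mem (natCast_mem (A m) n') ((A m).sub_mem (A m).one_mem ((A m).pow_mem hEA 4))
  · have h1 : (n' : ℚ) ≠ 0 := by
      have : n' ≠ 0 := by omega
      exact_mod_cast this
    have h2 : 1 < E ^ 4 := one_lt_pow₀ hE1 (by norm_num)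
    exact mul_ne_zero h1 (by linarith)

theorem cj_le {m : ℕ} {g : SL2} (hg : g ∈ G m) {D : Subgroup SL2} (hD : D ≤ G m) : cj g D ≤ G m := by
  intro x hx
  have h := hD (mem_cj.mp hx)
  have : x = g⁻¹ * (g * x * g⁻¹) * g := by group
  rw [this]
  exact (G m).mul_mem ((G m).mul_mem ((G m).inv_mem hg) h) hg

theorem cj_rec {m : ℕ} {g : SL2} (hg : g ∈ G m) {D : Subgroup SL2} (hrec : Rec (G m) D) :
    Rec (G m) (cj g D) := by
  intro γ hγ δ hδ n₀
  obtain ⟨n, hn, h⟩ := hrec (g * γ * g⁻¹) ((G m).mul_mem ((G m).mul_mem hg hγ) ((G m).inv_mem hg))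
    (g * δ * g⁻¹) (mem_cj.mp hδ) n₀
  refine ⟨n, hn, mem_cj.mpr ?_⟩
  rw [conj_pow] at h
  have e : g * γ ^ n * g⁻¹ * (g * δ * g⁻¹) * (g * γ ^ n * g⁻¹)⁻¹ = g * (γ ^ n * δ * (γ ^ n)⁻¹) * g⁻¹ := by
    group
  rw [e] at h
  exact h

theorem central_iff {δ : SL2} (h : δ 0 1 = 0 ∧ δ 1 0 = 0 ∧ δ 0 0 = δ 1 1) (g : SL2) :
    g * δ = δ * g := by
  obtain ⟨h1, h2, h3⟩ := h
  apply ext4 <;> simp only [mul_app, h1, h2, h3] <;> ring

theorem cj_nc {g : SL2} {D : Subgroup SL2} (hnc : NonCentral D) : NonCentral (cj g D) := by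
  obtain ⟨δ, hδ, h⟩ := hnc
  refine ⟨g⁻¹ * δ * g, mem_cj.mpr ?_, ?_⟩
  · have : g * (g⁻¹ * δ * g) * g⁻¹ = δ := by group
    rw [this]; exact hδ
  · intro hc
    apply h
    have hcomm := central_iff hc g
    have : δ = g⁻¹ * δ * g := by
      have h1 : δ * g = g * (g⁻¹ * δ * g) := by group
      rw [hcomm] at h1
      exact mul_right_cancel h1
    rw [this]
    exact hc

/-- `D` non-central recurrent does not fix `∞`. -/
theorem exists_moving {m : ℕ} (hm : 2 ≤ m) {D : Subgroup SL2} (hD : D ≤ G m) (hrec : Rec (G m) D)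
    (hnc : NonCentral D) : ∃ δ ∈ D, δ 1 0 ≠ 0 := by
  by_contra hcon
  push Not at hcon
  obtain ⟨δ, hδ, h⟩ := hnc
  have h10 := hcon δ hδ
  have hdet := det_eq δ
  rw [h10, mul_zero, sub_zero] at hdet
  -- choose s
  obtain ⟨s, hs0, hsm, hs⟩ : ∃ s : ℚ, s ≠ 0 ∧ s ∈ A m ∧ s * (δ 1 1 - δ 0 0 - δ 0 1 * s) ≠ 0 := by
    by_cases hb : δ 1 1 - δ 0 0 - δ 0 1 * 1 = 0
    · refine ⟨2, by norm_num, ?_, ?_⟩
      · simpa using natCast_mem (A m) 2
      · intro h2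
        have h3 : δ 1 1 - δ 0 0 - δ 0 1 * 2 = 0 := by
          rcases mul_eq_zero.mp h2 with h | h
          · norm_num at h
          · exact h
        have h4 : δ 0 1 = 0 := by linarith
        exact h ⟨h4, h10, by rw [h4] at hb; linarith⟩
    · exact ⟨1, one_ne_zero, (A m).one_mem, by simpa using hb⟩
  have hv : v s ∈ G m := v_mem_G hsm
  have hmem : (v s)⁻¹ * δ * v s ∈ cj (v s) D := by
    rw [mem_cj]
    have : v s * ((v s)⁻¹ * δ * v s) * (v s)⁻¹ = δ := by group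
    rw [this]; exact hδ
  have hne : ((v s)⁻¹ * δ * v s) 1 0 ≠ 0 := by
    simp only [mul_app, inv00, inv01, inv10, inv11, v_00, v_01, v_10, v_11, h10]
    intro hh
    apply hs
    linarith
  obtain ⟨y, hyA, hy0, hy⟩ := exists_u hm (cj_le hv hD) (cj_rec hv hrec) hmem hne
  have h1 := hcon _ (mem_cj.mp hy)
  simp only [mul_app, inv00, inv01, inv10, inv11, v_00, v_01, v_10, v_11, u_00, u_01, u_10, u_11] at h1
  have h2 : y * s ^ 2 = 0 := by linarith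
  exact (mul_ne_zero hy0 (pow_ne_zero 2 hs0)) h2

/-- ideal property at `∞`. -/
theorem ideal_infty {m : ℕ} (hm : 2 ≤ m) {D : Subgroup SL2} (hrec : Rec (G m) D) {x : ℚ}
    (hx : u x ∈ D) {a : ℚ} (ha : a ∈ A m) : u (a * x) ∈ D := by
  obtain ⟨k, z, hz⟩ := ha
  have h0 : (m : ℚ) ≠ 0 := by positivity
  have hi0 : (m : ℚ)⁻¹ ≠ 0 := inv_ne_zero h0
  have hiA : (m : ℚ)⁻¹ ∈ A m := by simpa using inv_pow_mem_A hm 1
  have hg : dg (m : ℚ)⁻¹ ∈ G m := dg_mem_G hi0 hiA (by rw [inv_inv]; exact natCast_mem (A m) m)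
  obtain ⟨n, hn, h⟩ := hrec _ hg (u x) hx k
  rw [dg_pow hi0, dg_u (pow_ne_zero n hi0)] at h
  have h2 := u_zsmul h (z * (m : ℤ) ^ (2 * n - k))
  have e : ((z * (m : ℤ) ^ (2 * n - k) : ℤ) : ℚ) * (((m : ℚ)⁻¹ ^ n) ^ 2 * x) = a * x := by
    push_cast
    rw [← hz]
    have h3 : (m : ℚ) ^ k * (m : ℚ) ^ (2 * n - k) = (m : ℚ) ^ (2 * n) := by
      rw [← pow_add]; congr 1; omega
    have h4 : ((m : ℚ)⁻¹ ^ n) ^ 2 = ((m : ℚ) ^ (2 * n))⁻¹ := by
      rw [← pow_mul, inv_pow, mul_comm]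
    rw [h4]
    have h5 : (m : ℚ) ^ (2 * n) ≠ 0 := pow_ne_zero _ h0
    calc a * (m : ℚ) ^ k * (m : ℚ) ^ (2 * n - k) * (((m : ℚ) ^ (2 * n))⁻¹ * x)
        = a * x * (((m : ℚ) ^ k * (m : ℚ) ^ (2 * n - k)) * ((m : ℚ) ^ (2 * n))⁻¹) := by ring
      _ = a * x := by rw [h3, mul_inv_cancel₀ h5, mul_one]
  rw [e] at h2
  exact h2

theorem step1_infty {m : ℕ} (hm : 2 ≤ m) {D : Subgroup SL2} (hD : D ≤ G m) (hrec : Rec (G m) D)
    (hnc : NonCentral D) : ∃ c : ℕ, 0 < c ∧ Nat.Coprime c m ∧ ∀ x ∈ A m, u (c * x) ∈ D := by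
  obtain ⟨δ, hδ, hne⟩ := exists_moving hm hD hrec hnc
  obtain ⟨y, hyA, hy0, hy⟩ := exists_u hm hD hrec hδ hne
  have h0 : (m : ℚ) ≠ 0 := by positivity
  -- natural number multiple
  obtain ⟨k, z, hz⟩ := hyA
  have hz0 : z ≠ 0 := by
    rintro rfl
    have : y * (m : ℚ) ^ k = 0 := by simpa using hz
    exact hy0 ((mul_eq_zero.mp this).resolve_right (pow_ne_zero k h0))
  have hex : ∃ c : ℕ, 0 < c ∧ ∀ x ∈ A m, u (c * x) ∈ D := by
    refine ⟨z.natAbs, Int.natAbs_pos.mpr hz0, ?_⟩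
    intro x hx
    have h1 : ((z.natAbs : ℕ) : ℚ) = |(z : ℚ)| := by
      rw [Nat.cast_natAbs]; push_cast; rfl
    rw [h1]
    have hmA : (m : ℚ) ∈ A m := natCast_mem (A m) m
    have h2 : ∀ w ∈ A m, u (w * y) ∈ D := fun w hw => ideal_infty hm hrec hy hw
    rcases abs_choice (z : ℚ) with h | h
    · rw [h, ← hz]
      have := h2 ((m : ℚ) ^ k * x) ((A m).mul_mem ((A m).pow_mem hmA k) hx)
      have e : y * (m : ℚ) ^ k * x = (m : ℚ) ^ k * x * y := by ring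
      rw [e]; exact this
    · rw [h, ← hz]
      have := h2 (-((m : ℚ) ^ k * x)) ((A m).neg_mem ((A m).mul_mem ((A m).pow_mem hmA k) hx))
      have e : -(y * (m : ℚ) ^ k) * x = -((m : ℚ) ^ k * x) * y := by ring
      rw [e]; exact this
  classical
  let c := Nat.find hex
  have hc := Nat.find_spec hex
  refine ⟨c, hc.1, ?_, hc.2⟩
  by_contra hcop
  have hg1 : Nat.gcd c m ≠ 1 := hcop
  have hgpos : 0 < Nat.gcd c m := Nat.gcd_pos_of_pos_left _ hc.1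
  obtain ⟨c', hc'⟩ := Nat.gcd_dvd_left c m
  obtain ⟨m', hm'⟩ := Nat.gcd_dvd_right c m
  set g := Nat.gcd c m with hgdef
  have hc'pos : 0 < c' := by
    rcases Nat.eq_zero_or_pos c' with h | h
    · rw [h, mul_zero] at hc'
      exact absurd hc' hc.1.ne'
    · exact h
  have hlt : c' < c := by
    rw [hc']
    have : 2 ≤ g := by omega
    nlinarith
  refine Nat.find_min hex hlt ⟨hc'pos, ?_⟩
  intro x hx
  have hgq : (g : ℚ) ≠ 0 := by exact_mod_cast hgpos.ne'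
  have hxg : x / g ∈ A m := by
    have e : x / g = x * m' * ((m : ℚ) ^ 1)⁻¹ := by
      have : (m : ℚ) = g * m' := by exact_mod_cast hm'
      rw [pow_one, this]
      have hm'0 : (m' : ℚ) ≠ 0 := by
        intro h
        apply h0
        rw [this, h, mul_zero]
      field_simp
    rw [e]
    exact (A m).mul_mem ((A m).mul_mem hx (natCast_mem (A m) m')) (inv_pow_mem_A hm 1)
  have h3 := hc.2 _ hxg
  have e : ((Nat.find hex : ℕ) : ℚ) * (x / g) = c' * x := by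
    have : ((Nat.find hex : ℕ) : ℚ) = g * c' := by exact_mod_cast hc'
    rw [this]; field_simp
  rw [e] at h3
  exact h3

end S1

open S1 in
theorem step1 {m : ℕ} (hm : 2 ≤ m) {D : Subgroup SL2} (hD : D ≤ G m) (hrec : Rec (G m) D)
    (hnc : NonCentral D) : ∀ g ∈ G m, ∃ c : ℕ, 0 < c ∧ Nat.Coprime c m ∧
      ∀ x ∈ A m, g * u (c * x) * g⁻¹ ∈ D := by
  intro g hg
  obtain ⟨c, hc, hcm, h⟩ := step1_infty hm (cj_le hg hD) (cj_rec hg hrec) (cj_nc hnc)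
  exact ⟨c, hc, hcm, fun x hx => mem_cj.mp (h x hx)⟩

end Boom4c
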