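import Pool.Agent.H.MP_4c7af0_al.Index
import Pool.Agent.H.MP_4c7af0_al.Primes

/-! Step 4, part 1: basic facts on `E*(N)`, generation of `SL₂(ℤ[1/m])`. -/

namespace Boom4c

open Matrix

theorem Es_conj {m N : ℕ} {g h : SL2} (hg : g ∈ G m) (hh : h ∈ Es m N) : g * h * g⁻¹ ∈ Es m N := by
  induction hh using Subgroup.closure_induction with
  | mem x hx =>
    obtain ⟨k, hk, y, hy, rfl⟩ := hx
    refine Subgroup.subset_closure ⟨g * k, (G m).mul_mem hg hk, y, hy, ?_⟩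
    group
  | one => simp
  | mul x y _ _ hx hy =>
    have : g * (x * y) * g⁻¹ = (g * x * g⁻¹) * (g * y * g⁻¹) := by group
    rw [this]; exact (Es m N).mul_mem hx hy
  | inv x _ hx =>
    have : g * x⁻¹ * g⁻¹ = (g * x * g⁻¹)⁻¹ := by group
    rw [this]; exact (Es m N).inv_mem hx

theorem Es_le_GN {m N : ℕ} (hN : 1 ≤ N) : Es m N ≤ GN m N := by
  rw [Es, Subgroup.closure_le]
  rintro h ⟨g, hg, x, hx, rfl⟩
  have hNq : (N : ℚ) ≠ 0 := by exact_mod_cast (by omega : N ≠ 0)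
  apply GN_conj hN hg
  apply u_mem_GN
  rw [mul_div_cancel_left₀ _ hNq]; exact hx

theorem u_mem_Es {m N : ℕ} (hN : 1 ≤ N) {x : ℚ} (hx : x / N ∈ A m) : u x ∈ Es m N := by
  have hNq : (N : ℚ) ≠ 0 := by exact_mod_cast (by omega : N ≠ 0)
  refine Subgroup.subset_closure ⟨1, (G m).one_mem, x / N, hx, ?_⟩
  rw [mul_div_cancel₀ _ hNq]; simp

/-- the Weyl element -/
def wy : SL2 := mk4 0 (-1) 1 0 (by ring)

@[simp] theorem wy_00 : wy 0 0 = 0 := rfl
@[simp] theorem wy_01 : wy 0 1 = -1 := rfl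
@[simp] theorem wy_10 : wy 1 0 = 1 := rfl
@[simp] theorem wy_11 : wy 1 1 = 0 := rfl

theorem wy_mem_G {m : ℕ} : wy ∈ G m := by
  apply mem_G4 <;> simp [(A m).zero_mem, (A m).one_mem, (A m).neg_mem]

theorem wy_conj_u (x : ℚ) : wy * u x * wy⁻¹ = v (-x) := by
  apply ext4 <;> simp only [mul_app, inv00, inv01, inv10, inv11, wy_00, wy_01, wy_10, wy_11, u_00,
    u_01, u_10, u_11, v_00, v_01, v_10, v_11] <;> ring

theorem v_mem_Es {m N : ℕ} (hN : 1 ≤ N) {x : ℚ} (hx : x / N ∈ A m) : v x ∈ Es m N := by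
  have h1 := Es_conj (N := N) wy_mem_G (u_mem_Es (m := m) hN (x := -x) (by
    rw [neg_div]; exact (A m).neg_mem hx))
  rwa [wy_conj_u, neg_neg] at h1

theorem wy_eq : wy = u (-1) * v 1 * u (-1) := by
  apply ext4 <;> simp only [mul_app, wy_00, wy_01, wy_10, wy_11, u_00,
    u_01, u_10, u_11, v_00, v_01, v_10, v_11] <;> ring

theorem dg_eq {e : ℚ} (he : e ≠ 0) :
    dg e = u e * v (-e⁻¹) * u e * (u (-1) * v 1 * u (-1)) := by
  apply ext4 <;> simp only [mul_app, dg_00 he, dg_01 he, dg_10 he, dg_11 he, u_00,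
    u_01, u_10, u_11, v_00, v_01, v_10, v_11] <;> field_simp <;> ring

theorem dg_conj_u {e : ℚ} (he : e ≠ 0) (x : ℚ) : dg e * u x * (dg e)⁻¹ = u (e ^ 2 * x) := by
  apply ext4 <;> simp only [mul_app, inv00, inv01, inv10, inv11, dg_00 he, dg_01 he, dg_10 he,
    dg_11 he, u_00, u_01, u_10, u_11] <;> field_simp <;> ring

theorem dg_conj_v {e : ℚ} (he : e ≠ 0) (x : ℚ) : dg e * v x * (dg e)⁻¹ = v ((e ^ 2)⁻¹ * x) := by
  apply ext4 <;> simp only [mul_app, inv00, inv01, inv10, inv11, dg_00 he, dg_01 he, dg_10 he,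
    dg_11 he, v_00, v_01, v_10, v_11] <;> field_simp <;> ring

theorem dg_mul {e f : ℚ} (he : e ≠ 0) (hf : f ≠ 0) : dg e * dg f = dg (e * f) := by
  have hef : e * f ≠ 0 := mul_ne_zero he hf
  apply ext4 <;> simp only [mul_app, dg_00 he, dg_01 he, dg_10 he, dg_11 he, dg_00 hf, dg_01 hf,
    dg_10 hf, dg_11 hf, dg_00 hef, dg_01 hef, dg_10 hef, dg_11 hef] <;> field_simp <;> ring

theorem dg_one : dg 1 = 1 := by
  apply ext4 <;> simp [dg_00, dg_01, dg_10, dg_11]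

theorem dg_pow {e : ℚ} (he : e ≠ 0) (k : ℕ) : dg e ^ k = dg (e ^ k) := by
  induction k with
  | zero => simp [dg_one]
  | succ k ih => rw [pow_succ, ih, dg_mul (pow_ne_zero _ he) he, pow_succ]

theorem u_zpow (x : ℚ) (n : ℤ) : (u x) ^ n = u (n * x) := by
  rcases n with n | n
  · rw [Int.ofNat_eq_natCast, zpow_natCast, u_pow]; push_cast; rfl
  · rw [zpow_negSucc, u_pow, u_inv]; congr 1; push_cast; ring

theorem v_zpow (x : ℚ) (n : ℤ) : (v x) ^ n = v (n * x) := by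
  rcases n with n | n
  · rw [Int.ofNat_eq_natCast, zpow_natCast, v_pow]; push_cast; rfl
  · rw [zpow_negSucc, v_pow, v_inv]; congr 1; push_cast; ring

/-- `SL₂(ℤ)` lies in every subgroup containing `u 1` and `v 1`. -/
theorem int_mem {C : Subgroup SL2} (hu : u 1 ∈ C) (hv : v 1 ∈ C) {a b c d : ℤ}
    (h : a * d - b * c = 1) :
    mk4 a b c d (by exact_mod_cast h) ∈ C := by
  have hS : wy ∈ C := by
    rw [wy_eq, ← u_inv]
    exact C.mul_mem (C.mul_mem (C.inv_mem hu) hv) (C.inv_mem hu)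
  let φ : Matrix.SpecialLinearGroup (Fin 2) ℤ →* SL2 :=
    Matrix.SpecialLinearGroup.map (Int.castRingHom ℚ)
  have h1 : (⊤ : Subgroup (Matrix.SpecialLinearGroup (Fin 2) ℤ)).map φ ≤ C := by
    rw [← SpecialLinearGroup.SL2Z_generators, MonoidHom.map_closure, Subgroup.closure_le]
    rintro _ ⟨x, hx, rfl⟩
    rcases hx with rfl | hx
    · have : φ ModularGroup.S = wy := by
        apply ext4 <;> simp [φ, ModularGroup.S]
      rw [this]; exact hS
    · have hx' : x = ModularGroup.T := hx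
      subst hx'
      have : φ ModularGroup.T = u 1 := by
        apply ext4 <;> simp [φ, ModularGroup.T]
      rw [this]; exact hu
  let g : Matrix.SpecialLinearGroup (Fin 2) ℤ := ⟨!![a, b; c, d], by
    rw [Matrix.det_fin_two]; simpa using h⟩
  have h2 : φ g ∈ C := h1 ⟨g, trivial, rfl⟩
  have h3 : φ g = mk4 a b c d (by exact_mod_cast h) := by
    apply ext4 <;> simp [φ, g]
  rwa [h3] at h2

/-- a nonzero column is a scalar times the first column of an integral matrix. -/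
theorem bezout_col {m : ℕ} (hm : 2 ≤ m) {a c : ℚ} (ha : a ∈ A m) (hc : c ∈ A m)
    (h0 : ¬ (a = 0 ∧ c = 0)) :
    ∃ l ∈ A m, l ≠ 0 ∧ ∃ h : SL2, (∀ C : Subgroup SL2, u 1 ∈ C → v 1 ∈ C → h ∈ C) ∧ h ∈ G m ∧
      a = h 0 0 * l ∧ c = h 1 0 * l := by
  have hmq : (m : ℚ) ≠ 0 := by exact_mod_cast (by omega : m ≠ 0)
  obtain ⟨j, p, hp⟩ := ha
  obtain ⟨k, q, hq⟩ := hc
  -- common denominator
  set p' : ℤ := p * (m : ℤ) ^ k with hp'
  set q' : ℤ := q * (m : ℤ) ^ j with hq'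
  have hpe : a * (m : ℚ) ^ (j + k) = p' := by
    rw [hp', pow_add, ← mul_assoc, hp]; push_cast; ring
  have hqe : c * (m : ℚ) ^ (j + k) = q' := by
    rw [hq', pow_add, mul_comm ((m : ℚ) ^ j), ← mul_assoc, hq]; push_cast; ring
  have hpq : ¬ (p' = 0 ∧ q' = 0) := by
    rintro ⟨h1, h2⟩
    apply h0
    have hpow : (m : ℚ) ^ (j + k) ≠ 0 := pow_ne_zero _ hmq
    constructor
    · rw [h1] at hpe; push_cast at hpe
      exact (mul_eq_zero.1 hpe).resolve_right hpow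
    · rw [h2] at hqe; push_cast at hqe
      exact (mul_eq_zero.1 hqe).resolve_right hpow
  have hd0 : 0 < Int.gcd p' q' := by
    rw [Int.gcd_pos_iff]
    by_contra hcon
    push Not at hcon
    exact hpq hcon
  obtain ⟨d, hd⟩ : ∃ d : ℕ, d = Int.gcd p' q' := ⟨_, rfl⟩
  rw [← hd] at hd0
  obtain ⟨p₂, hp₂⟩ : (d : ℤ) ∣ p' := by rw [hd]; exact Int.gcd_dvd_left ..
  obtain ⟨q₂, hq₂⟩ : (d : ℤ) ∣ q' := by rw [hd]; exact Int.gcd_dvd_right ..
  have hbez : (d : ℤ) = p' * Int.gcdA p' q' + q' * Int.gcdB p' q' := by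
    rw [hd]; exact Int.gcd_eq_gcd_ab p' q'
  set e := Int.gcdA p' q'
  set f := Int.gcdB p' q'
  have hdz : (d : ℤ) ≠ 0 := by exact_mod_cast hd0.ne'
  have hef : p₂ * e - (-f) * q₂ = 1 := by
    apply mul_left_cancel₀ hdz
    rw [mul_one]
    calc (d : ℤ) * (p₂ * e - (-f) * q₂) = ((d : ℤ) * p₂) * e + ((d : ℤ) * q₂) * f := by ring
      _ = d := by rw [← hp₂, ← hq₂, ← hbez]
  have hpow : (m : ℚ) ^ (j + k) ≠ 0 := pow_ne_zero _ hmq
  refine ⟨(d : ℚ) / (m : ℚ) ^ (j + k), ⟨j + k, d, ?_⟩, ?_, mk4 p₂ (-f : ℤ) q₂ e (by exact_mod_cast hef),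
    fun C hu hv => int_mem hu hv hef, ?_, ?_, ?_⟩
  · rw [div_mul_cancel₀ _ hpow]; norm_num
  · exact div_ne_zero (by exact_mod_cast hd0.ne') hpow
  · apply mem_G4
    · exact intA m p₂
    · exact intA m (-f)
    · exact intA m q₂
    · exact intA m e
  · rw [mk4_00, mul_div_assoc', eq_div_iff hpow, hpe, hp₂]; push_cast; ring
  · rw [mk4_10, mul_div_assoc', eq_div_iff hpow, hqe, hq₂]; push_cast; ring

theorem gen {m : ℕ} (hm : 2 ≤ m) {C : Subgroup SL2} (hu : u 1 ∈ C) (hv : v 1 ∈ C)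
    (ht : dg m ∈ C) : G m ≤ C := by
  have hmq : (m : ℚ) ≠ 0 := by exact_mod_cast (by omega : m ≠ 0)
  have hu' : ∀ x ∈ A m, u x ∈ C := by
    rintro x ⟨k, z, hz⟩
    have h1 : dg m ^ k * u x * (dg m ^ k)⁻¹ ∈ C := by
      rw [dg_pow hmq, dg_conj_u (pow_ne_zero _ hmq)]
      have : ((m : ℚ) ^ k) ^ 2 * x = ((z * (m : ℤ) ^ k : ℤ) : ℚ) * 1 := by
        push_cast; rw [← hz]; ring
      rw [this, ← u_zpow]
      exact C.zpow_mem hu _
    have h2 : u x = (dg m ^ k)⁻¹ * (dg m ^ k * u x * (dg m ^ k)⁻¹) * dg m ^ k := by group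
    rw [h2]
    exact C.mul_mem (C.mul_mem (C.inv_mem (C.pow_mem ht _)) h1) (C.pow_mem ht _)
  have hv' : ∀ x ∈ A m, v x ∈ C := by
    rintro x ⟨k, z, hz⟩
    have h1 : v x = dg m ^ k * v ((z * (m : ℤ) ^ k : ℤ) : ℚ) * (dg m ^ k)⁻¹ := by
      rw [dg_pow hmq, dg_conj_v (pow_ne_zero _ hmq)]
      congr 1
      push_cast
      rw [← hz]
      field_simp
    rw [h1]
    refine C.mul_mem (C.mul_mem (C.pow_mem ht _) ?_) (C.inv_mem (C.pow_mem ht _))
    have h3 := C.zpow_mem hv (z * (m : ℤ) ^ k)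
    rwa [v_zpow, mul_one] at h3
  have hd' : ∀ e ∈ A m, e ≠ 0 → e⁻¹ ∈ A m → dg e ∈ C := by
    intro e he he0 hei
    rw [dg_eq he0]
    have h1 : u (-1) ∈ C := hu' _ ((A m).neg_mem (A m).one_mem)
    exact C.mul_mem (C.mul_mem (C.mul_mem (hu' _ he) (hv' _ ((A m).neg_mem hei))) (hu' _ he))
      (C.mul_mem (C.mul_mem h1 hv) h1)
  intro g hg
  have hdet := det_eq g
  obtain ⟨l, hl, hl0, h, hC, hhG, h00, h10⟩ := bezout_col hm (hg 0 0) (hg 1 0) (by
    rintro ⟨h1, h2⟩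
    rw [h1, h2] at hdet
    simp at hdet)
  have hhC := hC C hu hv
  have hhdet := det_eq h
  -- `k = h⁻¹ g` is upper triangular
  obtain ⟨k, hk⟩ : ∃ k : SL2, k = h⁻¹ * g := ⟨_, rfl⟩
  have hkG : k ∈ G m := hk ▸ (G m).mul_mem ((G m).inv_mem hhG) hg
  have hk00 : k 0 0 = l := by
    rw [hk, mul_app, inv00, inv01, h00, h10]; linear_combination l * hhdet
  have hk10 : k 1 0 = 0 := by
    rw [hk, mul_app, inv10, inv11, h00, h10]; ring
  have hkdet := det_eq k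
  rw [hk00, hk10, mul_zero, sub_zero] at hkdet
  have hk11 : k 1 1 = l⁻¹ := eq_inv_of_mul_eq_one_right hkdet
  have hli : l⁻¹ ∈ A m := hk11 ▸ hkG 1 1
  have hkk : k = dg l * u (l⁻¹ * k 0 1) := by
    apply ext4
    · rw [mul_app, dg_00 hl0, dg_01 hl0, hk00]; simp
    · rw [mul_app, dg_00 hl0, dg_01 hl0]; simp only [u_01, u_11]; field_simp; ring
    · rw [mul_app, dg_10 hl0, dg_11 hl0, hk10]; simp
    · rw [mul_app, dg_10 hl0, dg_11 hl0, hk11]; simp
  have hkC : k ∈ C := by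
    rw [hkk]
    exact C.mul_mem (hd' l hl hl0 hli) (hu' _ ((A m).mul_mem hli (hkG 0 1)))
  have : g = h * k := by rw [hk]; group
  rw [this]; exact C.mul_mem hhC hkC

end Boom4c
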