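import Pool.Agent.H.MP_4c7af0_al.Step4a

/-! Step 4, part 2: `t` and `u 1` act trivially on `Γ(N)/E*(N)`. -/

namespace Boom4c

open Matrix

instance Es_normal (m N : ℕ) : ((Es m N).subgroupOf (G m)).Normal where
  conj_mem := by
    intro n hn g
    rw [Subgroup.mem_subgroupOf] at hn ⊢
    exact Es_conj g.2 hn

/-- commuting modulo `E*(N)` -/
def Cm (m N : ℕ) (g x : SL2) : Prop := g * x * g⁻¹ * x⁻¹ ∈ Es m N

/-- the quotient map `G → G/E*(N)` -/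
def pr (m N : ℕ) : G m →* (G m ⧸ (Es m N).subgroupOf (G m)) := QuotientGroup.mk' _

theorem pr_eq_one {m N : ℕ} (x : G m) : pr m N x = 1 ↔ (x : SL2) ∈ Es m N := by
  rw [pr, QuotientGroup.mk'_apply, QuotientGroup.eq_one_iff, Subgroup.mem_subgroupOf]

theorem pr_eq {m N : ℕ} {x y : G m} (h : (x : SL2) * (y : SL2)⁻¹ ∈ Es m N) :
    pr m N x = pr m N y := by
  have : pr m N (x * y⁻¹) = 1 := by
    rw [pr_eq_one]; exact h
  rwa [map_mul, map_inv, mul_inv_eq_one] at this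

theorem cm_iff {m N : ℕ} (g x : G m) : Cm m N g x ↔ Commute (pr m N g) (pr m N x) := by
  have h1 : Cm m N g x ↔ pr m N (g * x * g⁻¹ * x⁻¹) = 1 := by
    rw [pr_eq_one]; rfl
  rw [h1, map_mul, map_mul, map_mul, map_inv, map_inv, mul_inv_eq_one, mul_inv_eq_iff_eq_mul]
  rfl

theorem Commute.of_coprime_pow {Q : Type*} [Group Q] {t x : Q} {k l : ℕ} (hkl : Nat.Coprime k l)
    (h1 : Commute (t ^ k) x) (h2 : Commute (t ^ l) x) : Commute t x := by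
  have hb := Nat.gcd_eq_gcd_ab k l
  rw [hkl.gcd_eq_one] at hb
  have ht : t = (t ^ k) ^ (Nat.gcdA k l) * (t ^ l) ^ (Nat.gcdB k l) := by
    rw [← zpow_natCast t k, ← zpow_natCast t l, ← _root_.zpow_mul, ← _root_.zpow_mul,
      ← _root_.zpow_add, ← hb]
    simp
  rw [ht]
  exact (h1.zpow_left _).mul_left (h2.zpow_left _)

/-- `t = diag(m, 1/m)` as an element of `G m` -/
noncomputable def tG (m : ℕ) : G m := ⟨dg m, dg_mem_G (natA m m) inv_m_mem⟩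

theorem t_pow_comm {m N : ℕ} (hm : 2 ≤ m) (hN : 1 ≤ N) (x : G m) (hx : (x : SL2) ∈ GN m N)
    {k : ℕ} {y : ℚ} (hy : y ∈ A m) (h0 : (x : SL2) 0 0 + (x : SL2) 0 1 * N * y ≠ 0)
    (hk : ((m : ℚ) ^ (2 * k) - 1) / ((x : SL2) 0 0 + (x : SL2) 0 1 * N * y) ∈ A m) :
    Commute (pr m N (tG m ^ k)) (pr m N x) := by
  have hmq : (m : ℚ) ≠ 0 := by exact_mod_cast (by omega : m ≠ 0)
  have hmk : (m : ℚ) ^ k ≠ 0 := pow_ne_zero _ hmq
  have hNq : (N : ℚ) ≠ 0 := by exact_mod_cast (by omega : N ≠ 0)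
  have hNy : (N : ℚ) * y ∈ A m := (A m).mul_mem (natA m N) hy
  -- x' = x v(N y)
  obtain ⟨x', hx'⟩ : ∃ x' : SL2, x' = (x : SL2) * v (N * y) := ⟨_, rfl⟩
  have hvN : v (N * y) ∈ GN m N := v_mem_GN (by rw [mul_div_cancel_left₀ _ hNq]; exact hy)
  have hx'N : x' ∈ GN m N := hx' ▸ (GN m N).mul_mem hx hvN
  have hx'G : x' ∈ G m := GN_le hN hx'N
  have h00 : x' 0 0 = (x : SL2) 0 0 + (x : SL2) 0 1 * N * y := by
    rw [hx', mul_app]; simp; ring
  have h01 : x' 0 1 = (x : SL2) 0 1 := by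
    rw [hx', mul_app]; simp
  rw [← h00] at h0 hk
  -- `pr x' = pr x`
  have hprx : pr m N ⟨x', hx'G⟩ = pr m N x := by
    apply pr_eq
    have : (x' : SL2) * (x : SL2)⁻¹ = (x : SL2) * v (N * y) * (x : SL2)⁻¹ := by rw [hx']
    rw [this]
    apply Es_conj x.2
    exact v_mem_Es hN (by rw [mul_div_cancel_left₀ _ hNq]; exact hy)
  set s := ((m : ℚ) ^ (2 * k) - 1) / x' 0 0 with hs
  have hsm : s * x' 0 0 = (m : ℚ) ^ (2 * k) - 1 := by rw [hs]; field_simp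
  have hsb : s * x' 0 1 / N ∈ A m := by
    rw [mul_div_assoc]; exact (A m).mul_mem hk hx'N.2.1
  -- z = t^k x' t^-k
  have htk : dg m ^ k = dg ((m : ℚ) ^ k) := dg_pow hmq k
  have htkG : dg m ^ k ∈ G m := (G m).pow_mem (tG m).2 k
  obtain ⟨z, hz⟩ : ∃ z : SL2, z = dg m ^ k * x' * (dg m ^ k)⁻¹ := ⟨_, rfl⟩
  have hzN : z ∈ GN m N := hz ▸ GN_conj hN htkG hx'N
  have hz00 : z 0 0 = x' 0 0 := by
    rw [hz, htk]
    simp only [mul_app, inv00, inv01, inv10, inv11, dg_00 hmk, dg_01 hmk, dg_10 hmk,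
      dg_11 hmk]
    field_simp; ring
  have hz01 : z 0 1 = (m : ℚ) ^ (2 * k) * x' 0 1 := by
    rw [hz, htk]
    simp only [mul_app, inv00, inv01, inv10, inv11, dg_00 hmk, dg_01 hmk, dg_10 hmk,
      dg_11 hmk]
    rw [mul_comm 2 k, pow_mul]; ring
  obtain ⟨x2, hx2⟩ : ∃ x2 : SL2, x2 = x' * u (s * x' 0 1) := ⟨_, rfl⟩
  have hx200 : x2 0 0 = x' 0 0 := by rw [hx2, mul_app]; simp
  have hx201 : x2 0 1 = (m : ℚ) ^ (2 * k) * x' 0 1 := by
    rw [hx2, mul_app]; simp only [u_01, u_11]; linear_combination (x' 0 1) * hsm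
  have hx2N : x2 ∈ GN m N := hx2 ▸ (GN m N).mul_mem hx'N (u_mem_GN hsb)
  have hx2det := det_eq x2
  obtain ⟨q, hq⟩ : ∃ q : SL2, q = z * x2⁻¹ := ⟨_, rfl⟩
  have hqN : q ∈ GN m N := hq ▸ (GN m N).mul_mem hzN ((GN m N).inv_mem hx2N)
  have hq00 : q 0 0 = 1 := by
    rw [hq, mul_app, inv00, inv10, hz00, hz01, ← hx200, ← hx201]
    linear_combination hx2det
  have hq01 : q 0 1 = 0 := by
    rw [hq, mul_app, inv01, inv11, hz00, hz01, ← hx200, ← hx201]; ring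
  have hqdet := det_eq q
  have hq11 : q 1 1 = 1 := by rw [hq00, hq01] at hqdet; linarith
  have hqv : q = v (q 1 0) := ext4 (by rw [hq00]; rfl) (by rw [hq01]; rfl) rfl (by rw [hq11]; rfl)
  have hqE : q ∈ Es m N := by rw [hqv]; exact v_mem_Es hN hqN.2.2.1
  -- conclude
  have hx2G : x2 ∈ G m := GN_le hN hx2N
  have hzG : z ∈ G m := GN_le hN hzN
  have e1 : pr m N ⟨z, hzG⟩ = pr m N ⟨x2, hx2G⟩ := by
    apply pr_eq
    change z * x2⁻¹ ∈ Es m N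
    rw [← hq]; exact hqE
  have e2 : pr m N ⟨x2, hx2G⟩ = pr m N ⟨x', hx'G⟩ := by
    apply pr_eq
    change x2 * x'⁻¹ ∈ Es m N
    rw [hx2]
    exact Es_conj hx'G (u_mem_Es hN hsb)
  have e3 : pr m N ⟨z, hzG⟩ = pr m N (tG m ^ k) * pr m N ⟨x', hx'G⟩ * (pr m N (tG m ^ k))⁻¹ := by
    rw [← map_inv, ← map_mul, ← map_mul]
    congr 1
    apply Subtype.ext
    exact hz
  rw [← hprx]
  have e4 : pr m N (tG m ^ k) * pr m N ⟨x', hx'G⟩ * (pr m N (tG m ^ k))⁻¹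
      = pr m N ⟨x', hx'G⟩ := by rw [← e3, e1, e2]
  exact mul_inv_eq_iff_eq_mul.1 e4

theorem t_comm_aux {m N : ℕ} (hm : 2 ≤ m) (hN : 1 ≤ N) (x : G m) (hx : (x : SL2) ∈ GN m N)
    (hb : (x : SL2) 0 1 ≠ 0) : Commute (pr m N (tG m)) (pr m N x) := by
  have hNq : (N : ℚ) ≠ 0 := by exact_mod_cast (by omega : N ≠ 0)
  have hdet := det_eq (x : SL2)
  obtain ⟨k₁, k₂, hco, _, _, ⟨y₁, hy₁, h0₁, hk₁⟩, ⟨y₂, hy₂, h0₂, hk₂⟩⟩ :=
    two_primes hm (N := 1) (K := 1) le_rfl (Nat.coprime_one_left m) le_rfl (by simp)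
      (a := (x : SL2) 0 0) (b := (x : SL2) 0 1 * N) (x.2 0 0)
      ((A m).mul_mem (x.2 0 1) (natA m N)) (mul_ne_zero hb hNq)
      ⟨(x : SL2) 1 1, x.2 1 1, - ((x : SL2) 1 0 / N), (A m).neg_mem hx.2.2.1, by
        field_simp; linear_combination hdet⟩
  apply Commute.of_coprime_pow hco
  · rw [← map_pow]
    apply t_pow_comm hm hN x hx hy₁ h0₁
    simpa using hk₁
  · rw [← map_pow]
    apply t_pow_comm hm hN x hx hy₂ h0₂
    simpa using hk₂

theorem t_comm {m N : ℕ} (hm : 2 ≤ m) (hN : 1 ≤ N) (x : G m) (hx : (x : SL2) ∈ GN m N) :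
    Commute (pr m N (tG m)) (pr m N x) := by
  by_cases hb : (x : SL2) 0 1 = 0
  · have hNq : (N : ℚ) ≠ 0 := by exact_mod_cast (by omega : N ≠ 0)
    have hdet := det_eq (x : SL2)
    have huN : u N ∈ GN m N := u_mem_GN (by rw [div_self hNq]; exact (A m).one_mem)
    have huG : u N ∈ G m := u_mem_G (natA m N)
    have h1 := t_comm_aux hm hN (x * ⟨u N, huG⟩) ((GN m N).mul_mem hx huN) (by
      change ((x : SL2) * u N) 0 1 ≠ 0
      rw [mul_app]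
      simp only [u_01, u_11]
      rw [hb, zero_mul, add_zero]
      rw [hb, zero_mul, sub_zero] at hdet
      exact mul_ne_zero (left_ne_zero_of_mul (by rw [hdet]; exact one_ne_zero)) hNq)
    have h2 : pr m N (x * ⟨u N, huG⟩) = pr m N x := by
      rw [map_mul]
      have : pr m N ⟨u N, huG⟩ = 1 := by
        rw [pr_eq_one]
        exact u_mem_Es hN (by rw [div_self hNq]; exact (A m).one_mem)
      rw [this, mul_one]
    rwa [h2] at h1
  · exact t_comm_aux hm hN x hx hb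

end Boom4c
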