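import Pool.Agent.H.MP_4c7af0_al.Step4b

/-! Step 4, part 3: strong approximation and `u 1`, `v 1` act trivially on `Γ(N)/E*(N)`. -/

namespace Boom4c

open Matrix

theorem int_dvd_of_div_mem {m M : ℕ} (hM : 1 ≤ M) (hMm : Nat.Coprime M m) {n : ℤ}
    (h : (n : ℚ) / M ∈ A m) : (M : ℤ) ∣ n := by
  obtain ⟨k, z, hz⟩ := h
  have hMq : (M : ℚ) ≠ 0 := by exact_mod_cast (by omega : M ≠ 0)
  have h1 : (n : ℚ) * (m : ℚ) ^ k = z * M := by
    rw [← hz]; field_simp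
  have h2 : n * (m : ℤ) ^ k = z * M := by exact_mod_cast h1
  have h3 : (M : ℤ) ∣ n * (m : ℤ) ^ k := ⟨z, by rw [h2]; ring⟩
  have hco : IsCoprime (M : ℤ) ((m : ℤ) ^ k) := (Nat.isCoprime_iff_coprime.2 hMm).pow_right
  exact hco.dvd_of_dvd_mul_right h3

theorem unit_shift {m M : ℕ} (hM : 1 ≤ M) (hMm : Nat.Coprime M m) {a b c d : ℚ} (ha : a ∈ A m)
    (hb : b ∈ A m) (hc : c ∈ A m) (hd : d ∈ A m) (h : a * d - b * c = 1) :
    ∃ y ∈ A m, ∃ w ∈ A m, ((a + b * y) * w - 1) / M ∈ A m := by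
  have hMq : (M : ℚ) ≠ 0 := by exact_mod_cast (by omega : M ≠ 0)
  have : NeZero M := ⟨by omega⟩
  obtain ⟨ra, hra⟩ := exists_residue hM hMm ha
  obtain ⟨rb, hrb⟩ := exists_residue hM hMm hb
  obtain ⟨rc, hrc⟩ := exists_residue hM hMm hc
  obtain ⟨rd, hrd⟩ := exists_residue hM hMm hd
  set ea := (a - (ra : ℕ)) / M with hea
  set eb := (b - (rb : ℕ)) / M with heb
  set ec := (c - (rc : ℕ)) / M with hec
  set ed := (d - (rd : ℕ)) / M with hed
  have ha' : a = (ra : ℕ) + M * ea := by rw [hea]; field_simp; ring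
  have hb' : b = (rb : ℕ) + M * eb := by rw [heb]; field_simp; ring
  have hc' : c = (rc : ℕ) + M * ec := by rw [hec]; field_simp; ring
  have hd' : d = (rd : ℕ) + M * ed := by rw [hed]; field_simp; ring
  -- `ra rd - rb rc = 1` modulo `M`
  have h1 : (((ra : ℕ) : ℤ) * (rd : ℕ) - ((rb : ℕ) : ℤ) * (rc : ℕ) - 1 : ℤ) / (M : ℚ) ∈ A m := by
    have : ((((ra : ℕ) : ℤ) * (rd : ℕ) - ((rb : ℕ) : ℤ) * (rc : ℕ) - 1 : ℤ) : ℚ) / (M : ℚ)
        = -(ea * d + (ra : ℕ) * ed) + (eb * c + (rb : ℕ) * ec) := by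
      push_cast
      rw [div_eq_iff hMq]
      have e1 : ((ra : ℕ) : ℚ) * (rd : ℕ) = a * d - M * (ea * d + (ra : ℕ) * ed) := by
        rw [ha', hd']; ring
      have e2 : ((rb : ℕ) : ℚ) * (rc : ℕ) = b * c - M * (eb * c + (rb : ℕ) * ec) := by
        rw [hb', hc']; ring
      rw [e1, e2]; linear_combination h
    rw [this]
    exact (A m).add_mem ((A m).neg_mem ((A m).add_mem ((A m).mul_mem hra hd)
      ((A m).mul_mem (natA m _) hrd))) ((A m).add_mem ((A m).mul_mem hrb hc)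
      ((A m).mul_mem (natA m _) hrc))
  have h2 := int_dvd_of_div_mem hM hMm h1
  -- gcd
  set n' := Nat.gcd rb M with hn'
  have hn'M : n' ∣ M := Nat.gcd_dvd_right _ _
  have hn'b : n' ∣ (rb : ℕ) := Nat.gcd_dvd_left _ _
  have h3 : (((ra : ℕ) : ZMod n')) * ((rd : ℕ) : ZMod n') = 1 := by
    have h4 : ((n' : ℕ) : ℤ) ∣ ((ra : ℕ) : ℤ) * (rd : ℕ) - ((rb : ℕ) : ℤ) * (rc : ℕ) - 1 :=
      (Int.natCast_dvd_natCast.2 hn'M).trans h2
    have h5 := (ZMod.intCast_zmod_eq_zero_iff_dvd _ n').2 h4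
    push_cast at h5
    have h6 : ((rb : ℕ) : ZMod n') = 0 := (ZMod.natCast_eq_zero_iff _ _).2 hn'b
    rw [h6, zero_mul, sub_zero, sub_eq_zero] at h5
    exact h5
  have h3' : ((rd : ℕ) : ZMod n') * ((ra : ℕ) : ZMod n') = 1 := by rw [mul_comm]; exact h3
  obtain ⟨U, hU⟩ := ZMod.unitsMap_surjective hn'M (⟨_, _, h3, h3'⟩ : (ZMod n')ˣ)
  have hU' : (((U : ZMod M).val : ℕ) : ZMod n') = ((ra : ℕ) : ZMod n') := by
    have := congrArg Units.val hU
    rw [ZMod.unitsMap_val] at this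
    rw [ZMod.natCast_val]
    exact this
  have h7 : ((n' : ℕ) : ℤ) ∣ ((U : ZMod M).val : ℤ) - (ra : ℕ) := by
    rw [← ZMod.intCast_zmod_eq_zero_iff_dvd]
    push_cast
    rw [hU', sub_self]
  obtain ⟨q, hq⟩ := h7
  have hbez := Nat.gcd_eq_gcd_ab rb M
  rw [← hn'] at hbez
  set s := Nat.gcdA rb M
  set t := Nat.gcdB rb M
  -- inverse
  have h8 : ((M : ℕ) : ℤ) ∣ ((U : ZMod M).val : ℤ) * (((U⁻¹ : (ZMod M)ˣ) : ZMod M).val : ℤ) - 1 := by
    rw [← ZMod.intCast_zmod_eq_zero_iff_dvd]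
    push_cast
    rw [ZMod.natCast_zmod_val, ZMod.natCast_zmod_val, Units.mul_inv, sub_self]
  obtain ⟨r, hr⟩ := h8
  refine ⟨((s * q : ℤ) : ℚ), intA m _, ((((U⁻¹ : (ZMod M)ˣ) : ZMod M).val : ℤ) : ℚ), intA m _, ?_⟩
  set W : ℤ := (((U⁻¹ : (ZMod M)ˣ) : ZMod M).val : ℤ)
  have h9 : ((ra : ℕ) : ℤ) + (rb : ℕ) * (s * q) = ((U : ZMod M).val : ℤ) - M * (t * q) := by
    have : ((U : ZMod M).val : ℤ) = (ra : ℕ) + n' * q := by rw [← hq]; ring
    rw [this, hbez]; ring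
  have h10 : ((a + b * ((s * q : ℤ) : ℚ)) * (W : ℚ) - 1) / M
      = (ea + eb * ((s * q : ℤ) : ℚ)) * W + ((r - (t * q) * W : ℤ) : ℚ) := by
    rw [div_eq_iff hMq]
    have h9' : ((ra : ℕ) : ℚ) + (rb : ℕ) * ((s * q : ℤ) : ℚ)
        = (((U : ZMod M).val : ℤ) : ℚ) - M * ((t * q : ℤ) : ℚ) := by exact_mod_cast h9
    have hr' : (((U : ZMod M).val : ℤ) : ℚ) * (W : ℚ) - 1 = M * (r : ℚ) := by exact_mod_cast hr
    have e1 : (a + b * ((s * q : ℤ) : ℚ)) = ((ra : ℕ) : ℚ) + (rb : ℕ) * ((s * q : ℤ) : ℚ)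
        + M * (ea + eb * ((s * q : ℤ) : ℚ)) := by
      rw [ha', hb']; ring
    rw [e1, h9']
    push_cast at *
    linear_combination hr'
  rw [h10]
  exact (A m).add_mem ((A m).mul_mem ((A m).add_mem hra ((A m).mul_mem hrb (intA m _))) (intA m _))
    (intA m _)

theorem deep {m N M : ℕ} (hN : 1 ≤ N) (hM : 1 ≤ M) (hNM : N ∣ M)
    (hMm : Nat.Coprime M m) (x : G m) (hx : (x : SL2) ∈ GN m N) :
    ∃ x1 : G m, (x1 : SL2) ∈ GN m M ∧ pr m N x1 = pr m N x := by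
  have hNq : (N : ℚ) ≠ 0 := by exact_mod_cast (by omega : N ≠ 0)
  have hMq : (M : ℚ) ≠ 0 := by exact_mod_cast (by omega : M ≠ 0)
  have hdet := det_eq (x : SL2)
  obtain ⟨y, hy, w, hw, hyw⟩ := unit_shift hM hMm (x.2 0 0)
    ((A m).mul_mem (x.2 0 1) (natA m N)) hx.2.2.1 (x.2 1 1)
    (by field_simp; linear_combination hdet)
  have hNy : (N : ℚ) * y / N ∈ A m := by rw [mul_div_cancel_left₀ _ hNq]; exact hy
  -- x' = x v(N y)
  obtain ⟨x', hx'⟩ : ∃ x' : SL2, x' = (x : SL2) * v (N * y) := ⟨_, rfl⟩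
  have hx'N : x' ∈ GN m N := hx' ▸ (GN m N).mul_mem hx (v_mem_GN hNy)
  have hx'G : x' ∈ G m := GN_le hN hx'N
  have h00 : x' 0 0 = (x : SL2) 0 0 + (x : SL2) 0 1 * N * y := by
    rw [hx', mul_app]; simp; ring
  rw [← h00] at hyw
  have hdet' := det_eq x'
  set a := x' 0 0 with ha
  set b := x' 0 1 with hb
  set c := x' 1 0 with hc
  set d := x' 1 1 with hd
  set f := (a * w - 1) / M with hf
  have haw : a * w = 1 + M * f := by rw [hf]; field_simp; ring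
  obtain ⟨M', hM'⟩ := hNM
  have hM'q : (M : ℚ) = N * M' := by rw [hM']; push_cast; ring
  have haN : (a - 1) / N ∈ A m := hx'N.1
  have hbN : b / N ∈ A m := hx'N.2.1
  have hcN : c / N ∈ A m := hx'N.2.2.1
  have hw1 : (1 - w) / N ∈ A m := by
    have : (1 - w) / N = (a - 1) / N * w - M' * f := by
      rw [eq_sub_iff_add_eq, div_mul_eq_mul_div, div_add' _ _ _ hNq, div_eq_div_iff hNq hNq]
      rw [hM'q] at haw
      linear_combination (-(N : ℚ)) * haw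
    rw [this]
    exact (A m).sub_mem ((A m).mul_mem haN hw) ((A m).mul_mem (natA m _) hyw)
  have hcw : (-(c * w)) / N ∈ A m := by
    have : (-(c * w)) / N = -(c / N * w) := by ring
    rw [this]; exact (A m).neg_mem ((A m).mul_mem hcN hw)
  have hbw : (-(b * w)) / N ∈ A m := by
    have : (-(b * w)) / N = -(b / N * w) := by ring
    rw [this]; exact (A m).neg_mem ((A m).mul_mem hbN hw)
  -- y1 = v(-c w) x' u(-b w)
  obtain ⟨y1, hy1⟩ : ∃ y1 : SL2, y1 = v (-(c * w)) * x' * u (-(b * w)) := ⟨_, rfl⟩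
  have e00 : y1 0 0 = a := by
    rw [hy1, mul_app, mul_app, mul_app]; simp [← ha]
  have e01 : y1 0 1 = - b * M * f := by
    rw [hy1, mul_app, mul_app, mul_app]; simp only [v_00, v_01, u_01, u_11, ← ha, ← hb]
    linear_combination (-b) * haw
  have e10 : y1 1 0 = - c * M * f := by
    rw [hy1, mul_app, mul_app, mul_app]; simp only [v_10, v_11, u_00, u_10, ← ha, ← hc, ← hb, ← hd]
    linear_combination (-c) * haw
  have e11 : y1 1 1 = w + M * f * (b * c * w - d) := by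
    rw [hy1, mul_app, mul_app, mul_app]
    simp only [v_10, v_11, u_01, u_11, ← ha, ← hc, ← hb, ← hd]
    linear_combination (w) * hdet' + (b * c * w - d) * haw
  -- the element of E*(N)
  obtain ⟨D, hD⟩ : ∃ D : SL2, D = v (1 - w) * (v (-1) * u (a - 1) * (v (-1))⁻¹) *
      u (-((a - 1) * w)) := ⟨_, rfl⟩
  have hDE : D ∈ Es m N := by
    rw [hD]
    refine (Es m N).mul_mem ((Es m N).mul_mem (v_mem_Es hN hw1) ?_) ?_
    · exact Es_conj (v_mem_G ((A m).neg_mem (A m).one_mem)) (u_mem_Es hN haN)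
    · apply u_mem_Es hN
      have : (-((a - 1) * w)) / N = -((a - 1) / N * w) := by ring
      rw [this]; exact (A m).neg_mem ((A m).mul_mem haN hw)
  have d00 : D 0 0 = a := by
    rw [hD, v_inv]; simp only [mul_app, v_00, v_01, v_10, v_11, u_00, u_01, u_10, u_11]; ring
  have d01 : D 0 1 = -(a - 1) * (a * w - 1) := by
    rw [hD, v_inv]; simp only [mul_app, v_00, v_01, v_10, v_11, u_00, u_01, u_10, u_11]; ring
  have d10 : D 1 0 = 1 - a * w := by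
    rw [hD, v_inv]; simp only [mul_app, v_00, v_01, v_10, v_11, u_00, u_01, u_10, u_11]; ring
  have d11 : D 1 1 = -(1 - a * w) * (a - 1) * w + 1 - w * (a - 1) := by
    rw [hD, v_inv]; simp only [mul_app, v_00, v_01, v_10, v_11, u_00, u_01, u_10, u_11]; ring
  have hDG : D ∈ G m := GN_le hN (Es_le_GN hN hDE)
  have haA : a ∈ A m := hx'G 0 0
  have hbA : b ∈ A m := hx'G 0 1
  have hcA : c ∈ A m := hx'G 1 0
  have hdA : d ∈ A m := hx'G 1 1
  have ha1 : a - 1 ∈ A m := (A m).sub_mem haA (A m).one_mem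
  have hfin : D⁻¹ * y1 ∈ GN m M := by
    apply inv_mul_mem_GN hM hDG
    intro i j
    fin_cases i <;> fin_cases j
    · change (y1 0 0 - D 0 0) / M ∈ A m
      rw [e00, d00, sub_self, zero_div]; exact (A m).zero_mem
    · change (y1 0 1 - D 0 1) / M ∈ A m
      have : (y1 0 1 - D 0 1) / M = - b * f + (a - 1) * f := by
        rw [e01, d01, haw, div_eq_iff hMq]; ring
      rw [this]
      exact (A m).add_mem ((A m).mul_mem ((A m).neg_mem hbA) hyw) ((A m).mul_mem ha1 hyw)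
    · change (y1 1 0 - D 1 0) / M ∈ A m
      have : (y1 1 0 - D 1 0) / M = - c * f + f := by
        rw [e10, d10, haw, div_eq_iff hMq]; ring
      rw [this]
      exact (A m).add_mem ((A m).mul_mem ((A m).neg_mem hcA) hyw) hyw
    · change (y1 1 1 - D 1 1) / M ∈ A m
      have : (y1 1 1 - D 1 1) / M = f * (b * c * w - d) - f * ((a - 1) * w) + f := by
        rw [e11, d11, haw, div_eq_iff hMq]
        linear_combination haw
      rw [this]
      exact (A m).add_mem ((A m).sub_mem ((A m).mul_mem hyw ((A m).sub_mem ((A m).mul_mem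
        ((A m).mul_mem hbA hcA) hw) hdA)) ((A m).mul_mem hyw ((A m).mul_mem ha1 hw))) hyw
  refine ⟨⟨D⁻¹ * y1, GN_le hM hfin⟩, hfin, ?_⟩
  -- quotient computation
  have p1 : pr m N ⟨D, hDG⟩ = 1 := (pr_eq_one _).2 hDE
  have vG : v (-(c * w)) ∈ G m := v_mem_G ((A m).neg_mem ((A m).mul_mem hcA hw))
  have uG : u (-(b * w)) ∈ G m := u_mem_G ((A m).neg_mem ((A m).mul_mem hbA hw))
  have vyG : v (N * y) ∈ G m := v_mem_G ((A m).mul_mem (natA m N) hy)
  have p2 : pr m N ⟨v (-(c * w)), vG⟩ = 1 := (pr_eq_one _).2 (v_mem_Es hN hcw)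
  have p3 : pr m N ⟨u (-(b * w)), uG⟩ = 1 := (pr_eq_one _).2 (u_mem_Es hN hbw)
  have p4 : pr m N ⟨v (N * y), vyG⟩ = 1 := (pr_eq_one _).2 (v_mem_Es hN hNy)
  have e : (⟨D⁻¹ * y1, GN_le hM hfin⟩ : G m) = (⟨D, hDG⟩ : G m)⁻¹ *
      (⟨v (-(c * w)), vG⟩ * (x * ⟨v (N * y), vyG⟩) * ⟨u (-(b * w)), uG⟩) := by
    apply Subtype.ext
    change D⁻¹ * y1 = D⁻¹ * (v (-(c * w)) * ((x : SL2) * v (N * y)) * u (-(b * w)))
    rw [hy1, ← hx']
  rw [e, map_mul, map_inv, map_mul, map_mul, map_mul, p1, p2, p3, p4]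
  simp

/-- the unipotent matrix with fixed vector `(a, c)` -/
def Um (a c r : ℚ) : SL2 := mk4 (1 - r * a * c) (r * a ^ 2) (-r * c ^ 2) (1 + r * a * c) (by ring)

theorem conj_u_eq (g : SL2) (r : ℚ) : g * u r * g⁻¹ = Um (g 0 0) (g 1 0) r := by
  have hdet := det_eq g
  apply ext4
  · simp only [mul_app, inv00, inv10, u_00, u_01, u_10, u_11, Um, mk4_00]
    linear_combination hdet
  · simp only [mul_app, inv01, inv11, u_00, u_01, u_10, u_11, Um, mk4_01]; ring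
  · simp only [mul_app, inv00, inv10, u_00, u_01, u_10, u_11, Um, mk4_10]; ring
  · simp only [mul_app, inv01, inv11, u_00, u_01, u_10, u_11, Um, mk4_11]
    linear_combination hdet

theorem uconj_Um (z a c r : ℚ) : u z * Um a c r * (u z)⁻¹ = Um (a + z * c) c r := by
  apply ext4 <;> simp only [mul_app, inv00, inv01, inv10, inv11, u_00, u_01, u_10, u_11, Um,
    mk4_00, mk4_01, mk4_10, mk4_11] <;> ring

theorem Um_scale (a c l r : ℚ) : Um (a * l) (c * l) r = Um a c (l ^ 2 * r) := by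
  apply ext4 <;> simp only [Um, mk4_00, mk4_01, mk4_10, mk4_11] <;> ring

theorem Um_mem {m N : ℕ} (hm : 2 ≤ m) {a c y : ℚ} (ha : a ∈ A m) (hc : c ∈ A m) (hy : y ∈ A m) :
    Um a c (N * y) ∈ Es m N := by
  by_cases h0 : a = 0 ∧ c = 0
  · obtain ⟨rfl, rfl⟩ := h0
    have : Um 0 0 (N * y) = 1 := by
      apply ext4 <;> simp [Um]
    rw [this]; exact (Es m N).one_mem
  · obtain ⟨l, hl, _, h, _, hhG, h00, h10⟩ := bezout_col hm ha hc h0
    rw [h00, h10, Um_scale]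
    refine Subgroup.subset_closure ⟨h, hhG, l ^ 2 * y, (A m).mul_mem ((A m).pow_mem hl 2) hy, ?_⟩
    rw [conj_u_eq]
    congr 1; ring

theorem bigconj {m N s : ℕ} (hm : 2 ≤ m) (hs : 1 ≤ s) {h : SL2} (hh : h ∈ Es m (s ^ 2 * N)) :
    u (1 / s) * h * (u (1 / s))⁻¹ ∈ Es m N := by
  have hsq : (s : ℚ) ≠ 0 := by exact_mod_cast (by omega : s ≠ 0)
  induction hh using Subgroup.closure_induction with
  | mem x hx =>
    obtain ⟨g, hg, y, hy, rfl⟩ := hx
    rw [conj_u_eq, uconj_Um]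
    have h1 : Um (g 0 0 + 1 / s * g 1 0) (g 1 0) (((s ^ 2 * N : ℕ) : ℚ) * y)
        = Um (s * g 0 0 + g 1 0) (g 1 0 * s) (N * y) := by
      have h2 : (s : ℚ) * g 0 0 + g 1 0 = (g 0 0 + 1 / s * g 1 0) * s := by field_simp
      rw [h2, Um_scale]
      congr 1; push_cast; ring
    rw [h1]
    exact Um_mem hm ((A m).add_mem ((A m).mul_mem (natA m s) (hg _ _)) (hg _ _))
      ((A m).mul_mem (hg _ _) (natA m s)) hy
  | one => simp
  | mul x y _ _ hx hy =>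
    have : u (1 / s) * (x * y) * (u (1 / s))⁻¹ = (u (1 / s) * x * (u (1 / s))⁻¹) *
      (u (1 / s) * y * (u (1 / s))⁻¹) := by group
    rw [this]; exact (Es m N).mul_mem hx hy
  | inv x _ hx =>
    have : u (1 / s) * x⁻¹ * (u (1 / s))⁻¹ = (u (1 / s) * x * (u (1 / s))⁻¹)⁻¹ := by group
    rw [this]; exact (Es m N).inv_mem hx

theorem u_neg_one_mem {m : ℕ} : u (-1) ∈ G m := u_mem_G ((A m).neg_mem (A m).one_mem)

theorem u1_comm {m N : ℕ} (hm : 2 ≤ m) (hN : 1 ≤ N) (hNm : Nat.Coprime N m) (x : G m)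
    (hx : (x : SL2) ∈ GN m N) : Commute (pr m N ⟨u (-1), u_neg_one_mem⟩) (pr m N x) := by
  have hmq : (m : ℚ) ≠ 0 := by exact_mod_cast (by omega : m ≠ 0)
  have hm2 : 4 ≤ m ^ 2 := by nlinarith
  obtain ⟨s, hs⟩ : ∃ s : ℕ, s = m ^ 2 - 1 := ⟨_, rfl⟩
  have hs1 : 1 ≤ s := by omega
  have hsq : (s : ℚ) ≠ 0 := by exact_mod_cast (by omega : s ≠ 0)
  have hsm : (m : ℚ) ^ 2 = s + 1 := by
    have : m ^ 2 = s + 1 := by omega
    exact_mod_cast this
  have hsco : Nat.Coprime s m := by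
    rw [← Nat.isCoprime_iff_coprime]
    refine ⟨-1, m, ?_⟩
    have : ((m : ℤ)) ^ 2 = s + 1 := by exact_mod_cast (by omega : m ^ 2 = s + 1)
    linear_combination this
  have hNq : (N : ℚ) ≠ 0 := by exact_mod_cast (by omega : N ≠ 0)
  have hs2N : 1 ≤ s ^ 2 * N := Nat.succ_le_of_lt (by positivity)
  have hs4N : 1 ≤ s ^ 4 * N := Nat.succ_le_of_lt (by positivity)
  obtain ⟨x1, hx1, hx1pr⟩ := deep hN hs4N (dvd_mul_left N (s ^ 4))
    (Nat.Coprime.mul_left (hsco.pow_left 4) hNm) x hx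
  -- x1' = u(1/s)⁻¹ x1 u(1/s)
  obtain ⟨x', hx'⟩ : ∃ x' : SL2, x' = (u (1 / s))⁻¹ * (x1 : SL2) * u (1 / s) := ⟨_, rfl⟩
  obtain ⟨f0, f1, f2, f3⟩ := hx1
  push_cast at f0 f1 f2 f3
  set α := ((x1 : SL2) 0 0 - 1) / ((s : ℚ) ^ 4 * N) with hα
  set β := ((x1 : SL2) 0 1) / ((s : ℚ) ^ 4 * N) with hβ
  set γ := ((x1 : SL2) 1 0) / ((s : ℚ) ^ 4 * N) with hγ
  set δ := ((x1 : SL2) 1 1 - 1) / ((s : ℚ) ^ 4 * N) with hδ
  have ha : (x1 : SL2) 0 0 = 1 + s ^ 4 * N * α := by rw [hα]; field_simp; ring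
  have hb : (x1 : SL2) 0 1 = s ^ 4 * N * β := by rw [hβ]; field_simp
  have hc : (x1 : SL2) 1 0 = s ^ 4 * N * γ := by rw [hγ]; field_simp
  have hd : (x1 : SL2) 1 1 = 1 + s ^ 4 * N * δ := by rw [hδ]; field_simp; ring
  have hsA := natA m s
  have hx'N : x' ∈ GN m (s ^ 2 * N) := by
    refine ⟨?_, ?_, ?_, ?_⟩
    · have : (x' 0 0 - 1) / ((s ^ 2 * N : ℕ) : ℚ) = s ^ 2 * α - s * γ := by
        rw [hx', u_inv]; simp only [mul_app, u_00, u_01, u_10, u_11, ha, hb, hc, hd]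
        push_cast; field_simp; ring
      rw [this]
      exact (A m).sub_mem ((A m).mul_mem ((A m).pow_mem hsA 2) f0) ((A m).mul_mem hsA f2)
    · have : (x' 0 1) / ((s ^ 2 * N : ℕ) : ℚ) = s ^ 2 * β + s * (α - δ) - γ := by
        rw [hx', u_inv]; simp only [mul_app, u_00, u_01, u_10, u_11, ha, hb, hc, hd]
        push_cast; field_simp; ring
      rw [this]
      exact (A m).sub_mem ((A m).add_mem ((A m).mul_mem ((A m).pow_mem hsA 2) f1)
        ((A m).mul_mem hsA ((A m).sub_mem f0 f3))) f2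
    · have : (x' 1 0) / ((s ^ 2 * N : ℕ) : ℚ) = s ^ 2 * γ := by
        rw [hx', u_inv]; simp only [mul_app, u_00, u_01, u_10, u_11, ha, hb, hc, hd]
        push_cast; field_simp; ring
      rw [this]
      exact (A m).mul_mem ((A m).pow_mem hsA 2) f2
    · have : (x' 1 1 - 1) / ((s ^ 2 * N : ℕ) : ℚ) = s ^ 2 * δ + s * γ := by
        rw [hx', u_inv]; simp only [mul_app, u_00, u_01, u_10, u_11, ha, hb, hc, hd]
        push_cast; field_simp; ring
      rw [this]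
      exact (A m).add_mem ((A m).mul_mem ((A m).pow_mem hsA 2) f3) ((A m).mul_mem hsA f2)
  have hx'G : x' ∈ G m := GN_le hs2N hx'N
  have h1 := (cm_iff _ _).2 (t_comm hm hs2N ⟨x', hx'G⟩ hx'N)
  have h2 := bigconj hm hs1 h1
  have hut : u (1 / s) * dg m * (u (1 / s))⁻¹ = u (-1) * dg m := by
    rw [u_inv]
    apply ext4 <;> simp only [mul_app, u_00, u_01, u_10, u_11, dg_00 hmq, dg_01 hmq, dg_10 hmq,
      dg_11 hmq]
    · ring
    · field_simp; linear_combination (-(s : ℚ)) * hsm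
    · ring
    · ring
  have h3 : Cm m N (u (-1) * dg m) (x1 : SL2) := by
    have e : u (1 / s) * (dg m * x' * (dg m)⁻¹ * x'⁻¹) * (u (1 / s))⁻¹
        = (u (1 / s) * dg m * (u (1 / s))⁻¹) * (x1 : SL2) *
          (u (1 / s) * dg m * (u (1 / s))⁻¹)⁻¹ * (x1 : SL2)⁻¹ := by
      rw [hx']; group
    rw [hut] at e
    rw [Cm, ← e]
    exact h2
  have h4 : Commute (pr m N (⟨u (-1), u_neg_one_mem⟩ * tG m)) (pr m N x1) := (cm_iff _ _).1 h3
  have hx1N : (x1 : SL2) ∈ GN m N := by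
    have hsN : ∀ z : ℚ, z / N = s ^ 4 * (z / (s ^ 4 * N)) := fun z => by field_simp
    refine ⟨?_, ?_, ?_, ?_⟩
    · rw [hsN]; exact (A m).mul_mem ((A m).pow_mem hsA 4) f0
    · rw [hsN]; exact (A m).mul_mem ((A m).pow_mem hsA 4) f1
    · rw [hsN]; exact (A m).mul_mem ((A m).pow_mem hsA 4) f2
    · rw [hsN]; exact (A m).mul_mem ((A m).pow_mem hsA 4) f3
  have h5 := t_comm hm hN x1 hx1N
  rw [← hx1pr]
  have h6 : pr m N ⟨u (-1), u_neg_one_mem⟩ =
      pr m N (⟨u (-1), u_neg_one_mem⟩ * tG m) * (pr m N (tG m))⁻¹ := by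
    rw [map_mul, mul_inv_cancel_right]
  rw [h6]
  exact h4.mul_left h5.inv_left

theorem v1_comm {m N : ℕ} (hm : 2 ≤ m) (hN : 1 ≤ N) (hNm : Nat.Coprime N m) (x : G m)
    (hx : (x : SL2) ∈ GN m N) :
    Commute (pr m N ⟨v 1, v_mem_G (A m).one_mem⟩) (pr m N x) := by
  set w : G m := ⟨wy, wy_mem_G⟩ with hw
  have hx' : ((w⁻¹ * x * w : G m) : SL2) ∈ GN m N := by
    have := GN_conj hN ((G m).inv_mem (wy_mem_G (m := m))) hx
    rw [inv_inv] at this
    exact this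
  have h1 := u1_comm hm hN hNm (w⁻¹ * x * w) hx'
  have e1 : (⟨v 1, v_mem_G (A m).one_mem⟩ : G m) = w * ⟨u (-1), u_neg_one_mem⟩ * w⁻¹ := by
    apply Subtype.ext
    change v 1 = wy * u (-1) * wy⁻¹
    rw [wy_conj_u, neg_neg]
  have e2 : x = w * (w⁻¹ * x * w) * w⁻¹ := by group
  rw [e1, e2, map_mul, map_mul, map_mul (pr m N) (w * (w⁻¹ * x * w)), map_mul (pr m N) w]
  rw [map_inv]
  have h2 := h1.eq
  rw [Commute, SemiconjBy]
  set W := pr m N w
  set Y := pr m N (w⁻¹ * x * w)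
  set Z := pr m N ⟨u (-1), u_neg_one_mem⟩
  calc W * Z * W⁻¹ * (W * Y * W⁻¹) = W * (Z * Y) * W⁻¹ := by group
    _ = W * (Y * Z) * W⁻¹ := by rw [h2]
    _ = W * Y * W⁻¹ * (W * Z * W⁻¹) := by group

end Boom4c
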